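import Pool.Agent.H85.SB.Dat
import Pool.Agent.H77.SF.Cor2

/-! # [H85 SB SIZ] The size of the auxiliary value for radicals (as `size2` in H77/SA/Co2)

`tay_bound` (H77/SF/Cor2) with `B = 2` (`|α| ≤ 3/2`) and coefficients `(∑_k y_(k,n) bb_(k,i,u)(α)) w_n`, `|w_n| ≤ max(a,b)^J`; no denominators (`c = ± 1`). -/

namespace Pool.Agent.H85.SB

open Finset Polynomial Pool.Agent.H77.SF

theorem size3 {r s m M t l : ℕ} {A : ℝ} {a b : ℕ} {α : ℝ} {c : ℤ} {π : ℝ} {z : Fin s → ℝ}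
    {bb : Fin m → Fin s → ℕ → ℤ[X]} {e : ℤ} {Yv : Fin m → ℤ}
    (h : Dat3 r s m M t l A a b α c π z bb e Yv) {Y J d b0 : ℕ} (hd : d + 1 = r * (J + 1))
    {v : ℕ → ℕ} {y : Fin m → ℕ → ℤ} (hy : ∀ k n, |y k n| ≤ Y)
    (hv : ∀ i, ∀ u < 2 * t + 1, ∀ x < v u, ∑ k, ∑ n ∈ range (r * (J + 1)),
        ((y k n : ℝ) * ((b : ℝ) ^ (n / r) * (a : ℝ) ^ (J - n / r))) * ((n.choose x : ℝ) * α ^ (n - x)) *
          aeval α (bb k i u) = 0)
    (hne : ∑ k, ∑ n ∈ range (r * (J + 1)),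
        (y k n * ((b : ℤ) ^ (n / r) * (a : ℤ) ^ (J - n / r))) * ((n.choose b0 : ℤ) * c ^ (n - b0)) * Yv k ≠ 0) :
    |π| ^ M ≤ A ^ 3 * m * ((d : ℝ) + 1) ^ 2 * 8 ^ d * (max a b : ℕ) ^ J * Y *
      (|π| ^ (2 * t + 1) + ∑ _i : Fin s, ∑ u ∈ range (2 * t + 1), |π| ^ u * |(c : ℝ) - α| ^ (v u - b0)) := by
  simp only [← hd] at hv hne
  have hA1 : 1 ≤ A := by linarith [h.A2]
  have hr0 : 0 < r := by have := h.r2; omega
  have hc1 : |(c : ℝ)| ≤ 1 := by
    rcases h.cc with hc | hc <;> rw [hc] <;> norm_num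
  have hα : |α| ≤ 2 := by
    have h1 := abs_add_le (α - c) (c : ℝ)
    rw [sub_add_cancel] at h1
    linarith [h.near]
  have hδ : |(c : ℝ) - α| ≤ 1 := by
    rw [abs_sub_comm]
    linarith [h.near]
  have he : (0 : ℝ) < e := by
    have := h.e1
    exact_mod_cast (show 0 < e by omega)
  set Mx : ℝ := ((max a b : ℕ) : ℝ) with hMx
  have hMx0 : 0 ≤ Mx := by positivity
  have haM : (a : ℝ) ≤ Mx := by
    rw [hMx]
    exact_mod_cast le_max_left a b
  have hbM : (b : ℝ) ≤ Mx := by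
    rw [hMx]
    exact_mod_cast le_max_right a b
  set w : ℕ → ℝ := fun n => (b : ℝ) ^ (n / r) * (a : ℝ) ^ (J - n / r) with hw
  have hw0 : ∀ n, 0 ≤ w n := fun n => by
    simp only [hw]
    positivity
  have hwM : ∀ n < d + 1, w n ≤ Mx ^ J := by
    intro n hn
    have h1 : n / r ≤ J := by
      rw [hd, mul_comm] at hn
      have := Nat.div_lt_of_lt_mul (show n < r * (J + 1) by rw [mul_comm]; exact hn)
      omega
    have h2 : Mx ^ J = Mx ^ (n / r) * Mx ^ (J - n / r) := by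
      rw [← pow_add, Nat.add_sub_cancel' h1]
    rw [h2]
    simp only [hw]
    exact mul_le_mul (pow_le_pow_left₀ (by positivity) hbM _)
      (pow_le_pow_left₀ (by positivity) haM _) (by positivity) (by positivity)
  have hYr : ∀ k n, |(y k n : ℝ)| ≤ Y := fun k n => by
    have := hy k n
    exact_mod_cast this
  have hY0 : (0 : ℝ) ≤ Y := by positivity
  set Y' : ℝ := Y * Mx ^ J with hY'
  have hY'0 : 0 ≤ Y' := by positivity
  set g : Fin m → ℕ → ℝ := fun k n => if n < d + 1 then (y k n : ℝ) * w n else 0 with hg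
  have hgY : ∀ k n, |g k n| ≤ Y' := by
    intro k n
    simp only [hg]
    split_ifs with hn
    · rw [abs_mul, abs_of_nonneg (hw0 n)]
      exact mul_le_mul (hYr k n) (hwM n hn) (hw0 n) hY0
    · rw [abs_zero]
      exact hY'0
  have hgr : ∀ k, ∀ n ∈ range (d + 1), g k n = (y k n : ℝ) * w n := by
    intro k n hn
    simp only [hg]
    rw [if_pos (Finset.mem_range.1 hn)]
  set Sk : Fin m → ℝ := fun k => ∑ n ∈ range (d + 1), g k n * ((n.choose b0 : ℝ) *
    (c : ℝ) ^ (n - b0)) with hSk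
  -- size of Sk
  have hSkb : ∀ k, |Sk k| ≤ ((d : ℝ) + 1) ^ 2 * 8 ^ d * Y' := by
    intro k
    refine (Finset.abs_sum_le_sum_abs _ _).trans ?_
    refine (Finset.sum_le_card_nsmul _ _ (Y' * 2 ^ d) fun n hn => ?_).trans ?_
    · rw [Finset.mem_range] at hn
      rw [abs_mul, abs_mul, abs_pow, Nat.abs_cast]
      refine mul_le_mul (hgY k n) ?_ (by positivity) hY'0
      have h3 : (n.choose b0 : ℝ) ≤ 2 ^ d := by
        have h4 : n.choose b0 ≤ 2 ^ d :=
          (Nat.choose_le_two_pow _ _).trans (Nat.pow_le_pow_right (by norm_num) (by omega))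
        exact_mod_cast h4
      have h5 : |(c : ℝ)| ^ (n - b0) ≤ 1 := pow_le_one₀ (abs_nonneg _) hc1
      calc (n.choose b0 : ℝ) * |(c : ℝ)| ^ (n - b0) ≤ 2 ^ d * 1 :=
            mul_le_mul h3 h5 (by positivity) (by positivity)
        _ = 2 ^ d := mul_one _
    · rw [Finset.card_range, nsmul_eq_mul]
      push_cast
      have h5 : (2 : ℝ) ^ d ≤ 8 ^ d := pow_le_pow_left₀ (by norm_num) (by norm_num) _
      have h6 : ((d : ℝ) + 1) ≤ ((d : ℝ) + 1) ^ 2 := by
        have : (0 : ℝ) ≤ d := by positivity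
        nlinarith
      calc ((d : ℝ) + 1) * (Y' * 2 ^ d) ≤ ((d : ℝ) + 1) ^ 2 * (Y' * 8 ^ d) :=
            mul_le_mul h6 (mul_le_mul_of_nonneg_left h5 hY'0) (by positivity) (by positivity)
        _ = _ := by ring
  -- size of the G
  set Gu : Fin s → ℕ → ℝ := fun i u => ∑ k, aeval α (bb k i u) * Sk k with hGu
  have haα : ∀ k i u, u < 2 * t + 1 → |aeval α (bb k i u)| ≤ A := by
    intro k i u hu
    have h1 : (b : ℂ) * ((algebraMap ℝ ℂ) α) ^ r = a := by
      have h0 := h.root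
      have h01 : (((b : ℝ) * α ^ r : ℝ) : ℂ) = ((a : ℝ) : ℂ) := by rw [h0]
      push_cast at h01
      exact h01
    have h2 := h.bA k i u hu _ h1
    rw [Polynomial.aeval_algebraMap_apply] at h2
    have h3 : ‖(algebraMap ℝ ℂ) (aeval α (bb k i u))‖ = |aeval α (bb k i u)| := by
      rw [Complex.coe_algebraMap, Complex.norm_real, Real.norm_eq_abs]
    rw [h3] at h2
    refine le_trans (le_mul_of_one_le_left (abs_nonneg _) ?_) h2
    have hb1 : (1 : ℝ) ≤ b := by exact_mod_cast h.b1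
    exact one_le_mul_of_one_le_of_one_le (one_le_pow₀ hb1) (one_le_pow₀ (by norm_num))
  have hGb : ∀ i, ∀ u < 2 * t + 1, |Gu i u| ≤
      ((d : ℝ) + 1) ^ 2 * 8 ^ d * (m * (Y' * A)) * |(c : ℝ) - α| ^ (v u - b0) := by
    intro i u hu
    have h1 : Gu i u = ∑ n ∈ range (d + 1), (∑ k, g k n * aeval α (bb k i u)) *
        ((n.choose b0 : ℝ) * (c : ℝ) ^ (n - b0)) := by
      simp only [hGu, hSk, Finset.mul_sum, Finset.sum_mul]
      rw [Finset.sum_comm]
      refine Finset.sum_congr rfl fun n _ => Finset.sum_congr rfl fun k _ => ?_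
      ring
    rw [h1]
    have h8 : (8 : ℝ) ^ d = (4 * 2) ^ d := by norm_num
    rw [h8]
    refine tay_bound (by norm_num) hα hδ _ (fun n => ?_) d b0 (v u) fun x hx => ?_
    · refine (Finset.abs_sum_le_sum_abs _ _).trans ?_
      refine (Finset.sum_le_card_nsmul _ _ (Y' * A) fun k _ => ?_).trans ?_
      · rw [abs_mul]
        exact mul_le_mul (hgY k n) (haα k i u hu) (abs_nonneg _) hY'0
      · rw [Finset.card_univ, Fintype.card_fin, nsmul_eq_mul]
    · rw [← hv i u hu x hx, Finset.sum_comm]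
      refine Finset.sum_congr rfl fun n hn => ?_
      rw [Finset.sum_mul]
      refine Finset.sum_congr rfl fun k _ => ?_
      rw [hgr k n hn]
      simp only [hw]
      ring
  -- the integer
  set Z : ℤ := ∑ k, ∑ n ∈ range (d + 1),
    (y k n * ((b : ℤ) ^ (n / r) * (a : ℤ) ^ (J - n / r))) * ((n.choose b0 : ℤ) * c ^ (n - b0)) *
      Yv k with hZ
  set Wv : ℝ := ∑ k, Sk k * ((Yv k : ℝ) / e) with hW
  have hZW : (Z : ℝ) = e * Wv := by
    rw [hZ, hW]
    push_cast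
    rw [Finset.mul_sum]
    refine Finset.sum_congr rfl fun k _ => ?_
    have h1 : (e : ℝ) * (Sk k * ((Yv k : ℝ) / e)) = Sk k * Yv k := by
      field_simp
    rw [h1, hSk, Finset.sum_mul]
    refine Finset.sum_congr rfl fun n hn => ?_
    rw [hgr k n hn]
  have hZ1 : (1 : ℝ) ≤ |(Z : ℝ)| := by
    have := Int.one_le_abs hne
    exact_mod_cast this
  -- the estimate of pi^M Wv
  have hWb : |π ^ M * Wv| ≤ ((d : ℝ) + 1) ^ 2 * 8 ^ d * (m * Y') * A ^ 2 *
      (|π| ^ (2 * t + 1) + ∑ _i : Fin s, ∑ u ∈ range (2 * t + 1),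
        |π| ^ u * |(c : ℝ) - α| ^ (v u - b0)) := by
    have h1 : π ^ M * Wv = ∑ k, Sk k * (π ^ M * ((Yv k : ℝ) / e) -
        ∑ i, ∑ u ∈ range (2 * t + 1), aeval α (bb k i u) * z i * π ^ u) +
        ∑ i, ∑ u ∈ range (2 * t + 1), z i * π ^ u * Gu i u := by
      have h2 : ∑ i, ∑ u ∈ range (2 * t + 1), z i * π ^ u * Gu i u =
          ∑ k, Sk k * ∑ i, ∑ u ∈ range (2 * t + 1), aeval α (bb k i u) * z i * π ^ u := by
        simp only [hGu, Finset.mul_sum]
        symm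
        rw [Finset.sum_comm]
        refine Finset.sum_congr rfl fun i _ => ?_
        rw [Finset.sum_comm]
        refine Finset.sum_congr rfl fun u _ => Finset.sum_congr rfl fun k _ => ?_
        ring
      rw [h2, ← Finset.sum_add_distrib, hW, Finset.mul_sum]
      refine Finset.sum_congr rfl fun k _ => ?_
      ring
    have h3 : |∑ k, Sk k * (π ^ M * ((Yv k : ℝ) / e) -
        ∑ i, ∑ u ∈ range (2 * t + 1), aeval α (bb k i u) * z i * π ^ u)| ≤
        ((d : ℝ) + 1) ^ 2 * 8 ^ d * (m * Y') * A ^ 2 * |π| ^ (2 * t + 1) := by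
      refine (Finset.abs_sum_le_sum_abs _ _).trans ?_
      refine (Finset.sum_le_card_nsmul _ _
        ((((d : ℝ) + 1) ^ 2 * 8 ^ d * Y') * (A * |π| ^ (2 * t + 1))) fun k _ => ?_).trans ?_
      · rw [abs_mul]
        exact mul_le_mul (hSkb k) (h.app k) (abs_nonneg _) (by positivity)
      · rw [Finset.card_univ, Fintype.card_fin, nsmul_eq_mul]
        have h4 : A ≤ A ^ 2 := by nlinarith
        calc (m : ℝ) * ((((d : ℝ) + 1) ^ 2 * 8 ^ d * Y') * (A * |π| ^ (2 * t + 1)))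
            = (((d : ℝ) + 1) ^ 2 * 8 ^ d * (m * Y') * |π| ^ (2 * t + 1)) * A := by ring
          _ ≤ (((d : ℝ) + 1) ^ 2 * 8 ^ d * (m * Y') * |π| ^ (2 * t + 1)) * A ^ 2 :=
              mul_le_mul_of_nonneg_left h4 (by positivity)
          _ = _ := by ring
    have h5 : |∑ i, ∑ u ∈ range (2 * t + 1), z i * π ^ u * Gu i u| ≤
        ((d : ℝ) + 1) ^ 2 * 8 ^ d * (m * Y') * A ^ 2 *
          ∑ _i : Fin s, ∑ u ∈ range (2 * t + 1), |π| ^ u * |(c : ℝ) - α| ^ (v u - b0) := by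
      refine (Finset.abs_sum_le_sum_abs _ _).trans ?_
      rw [Finset.mul_sum]
      refine Finset.sum_le_sum fun i _ => ?_
      refine (Finset.abs_sum_le_sum_abs _ _).trans ?_
      rw [Finset.mul_sum]
      refine Finset.sum_le_sum fun u hu => ?_
      rw [Finset.mem_range] at hu
      rw [abs_mul, abs_mul, abs_pow]
      calc |z i| * |π| ^ u * |Gu i u| ≤ A * |π| ^ u *
            (((d : ℝ) + 1) ^ 2 * 8 ^ d * (m * (Y' * A)) * |(c : ℝ) - α| ^ (v u - b0)) :=
            mul_le_mul (mul_le_mul_of_nonneg_right (h.zA i) (by positivity)) (hGb i u hu)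
              (abs_nonneg _) (by positivity)
        _ = _ := by ring
    rw [h1]
    refine (abs_add_le _ _).trans ?_
    refine (add_le_add h3 h5).trans (le_of_eq ?_)
    ring
  calc |π| ^ M ≤ |π| ^ M * |(Z : ℝ)| := le_mul_of_one_le_right (by positivity) hZ1
    _ = e * |π ^ M * Wv| := by
        rw [hZW, abs_mul, abs_mul, abs_pow, abs_of_pos he]
        ring
    _ ≤ A * (((d : ℝ) + 1) ^ 2 * 8 ^ d * (m * Y') * A ^ 2 *
          (|π| ^ (2 * t + 1) + ∑ _i : Fin s, ∑ u ∈ range (2 * t + 1),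
            |π| ^ u * |(c : ℝ) - α| ^ (v u - b0))) :=
        mul_le_mul h.eA hWb (abs_nonneg _) (by linarith)
    _ = _ := by
        rw [hY']
        ring

end Pool.Agent.H85.SB
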