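import Pool.Agent.H85.SB.Au1
import Pool.Agent.H85.SB.Siz

/-! # [H85 SB COR] No numerical data with a very small `π`, radicals (as `core2` in H77/SA/Co2)

`T = - log |π|`, `L = - log |α - c| ≥ log 2`, `L ≤ (r + 2) log A + ..` (`|a^.. |`: `1/b ≤ |α^r - c^r| ≤ |α - c| r 2^r`, `A ≥ b`; if `c^r = -1` then `α < 0`, `r` odd: impossible, so `c^r = 1`), `q = ⌊T/L⌋`, `J = (q (2t+1+w) + (r+1) m)/r`, `d + 1 = r (J + 1) ≤ q (2t+1+w) + (r+1) m + r`.
`q (2t+1-w-M) L ≤ M L + 3 log A + log m + 2 log (d+1) + d log 8 + J log max(a,b) + kp (log 2 + r (log (4 N) + d log 2 + log A)) + log (1 + s (2t+1))` and `num` says `(2t+1-w-M-1) L ≥ (2t+1+w) (log max(a,b) / r + log 8 + kp r log 2)`. So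
`q L ≤ C log A` with an explicit `C`, and `T < (q+1) L`. The exponent `E3` may be changed (any explicit expression in + and *, monotone), only its name and arguments are fixed. -/

namespace Pool.Agent.H85.SB

open Finset Polynomial Pool.Agent.H77.SF

/-- the explicit exponent -/
def E3 (r s m M t w kp : ℕ) : ℕ :=
  1000 * (r + s + m + M + t + w + kp + 2) ^ 12

theorem E3_mono {r s m M t w kp r' s' m' M' t' w' kp' : ℕ} (h1 : r ≤ r') (h2 : s ≤ s') (h3 : m ≤ m') (h4 : M ≤ M')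
    (h5 : t ≤ t') (h6 : w ≤ w') (h7 : kp ≤ kp') : E3 r s m M t w kp ≤ E3 r' s' m' M' t' w' kp' := by
  unfold E3
  gcongr

/-- the exponents of the terms -/
private theorem expo3 {T L : ℝ} {q U w M u b0 : ℕ} (hL : 0 < L) (h1 : (q : ℝ) * L ≤ T)
    (h2 : T ≤ ((q : ℝ) + 1) * L) (hu : u < U) (hb : b0 < q * w) (hM : w + M + 1 ≤ U) :
    (M : ℝ) * T + ((q : ℝ) * ((U : ℝ) - w - M) * L - M * L) ≤
      u * T + ((q * (U - u) - b0 : ℕ) : ℝ) * L := by
  have hT0 : 0 ≤ T := le_trans (by positivity) h1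
  have hM' : (w : ℝ) + M + 1 ≤ U := by exact_mod_cast hM
  rcases Nat.lt_or_ge (q * (U - u)) b0 with h | h
  · have h3 : q * (U - u) - b0 = 0 := by omega
    have h4 : U - u < w := by
      by_contra hcon
      push Not at hcon
      have := Nat.mul_le_mul_left q hcon
      omega
    have h5 : (U : ℝ) ≤ u + w := by exact_mod_cast (show U ≤ u + w by omega)
    rw [h3, Nat.cast_zero, zero_mul, add_zero]
    have h6 : ((U : ℝ) - w - M) * ((q : ℝ) * L) ≤ ((U : ℝ) - w - M) * T :=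
      mul_le_mul_of_nonneg_left h1 (by linarith)
    have h7 : ((U : ℝ) - w) * T ≤ u * T := mul_le_mul_of_nonneg_right (by linarith) hT0
    have h8 : 0 ≤ (M : ℝ) * L := by positivity
    linarith
  · have h3 : ((q * (U - u) - b0 : ℕ) : ℝ) = (q : ℝ) * ((U : ℝ) - u) - b0 := by
      rw [Nat.cast_sub h, Nat.cast_mul, Nat.cast_sub hu.le]
    have h4 : (b0 : ℝ) ≤ q * w := by exact_mod_cast hb.le
    rw [h3]
    have h5 : (b0 : ℝ) * L ≤ q * w * L := mul_le_mul_of_nonneg_right h4 hL.le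
    have h6 : (M : ℝ) * (T - ((q : ℝ) + 1) * L) ≤ 0 :=
      mul_nonpos_of_nonneg_of_nonpos (by positivity) (by linarith)
    have h7 : 0 ≤ (u : ℝ) * (T - q * L) := mul_nonneg (by positivity) (by linarith)
    linarith

private theorem pol_S {S : ℕ} (hS2 : 2 ≤ S) :
    2 * ((2 * S + 1) * S + 3 + (S + 1) * S * (4 + S * S) + S * (3 + S * S) + S + S * S) +
      3 * (S + S * (2 * S + 1) + 2 * (2 * S + 1 + S + (S + 1) * S + S) +
        S * S * (4 * (S * (S * ((2 * S + 1) * (2 * S + 2))) + S)) + 4 * (2 + S * S) ^ 2) +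
      (2 * S + 1) < 1000 * S ^ 12 := by
  have h0 : 1 ≤ S ^ 6 := Nat.one_le_pow _ _ (by omega)
  have h1 : S ≤ S ^ 6 := Nat.le_self_pow (by norm_num) _
  have h2 : S ^ 2 ≤ S ^ 6 := Nat.pow_le_pow_right (by omega) (by norm_num)
  have h3 : S ^ 3 ≤ S ^ 6 := Nat.pow_le_pow_right (by omega) (by norm_num)
  have h4 : S ^ 4 ≤ S ^ 6 := Nat.pow_le_pow_right (by omega) (by norm_num)
  have h5 : S ^ 5 ≤ S ^ 6 := Nat.pow_le_pow_right (by omega) (by norm_num)
  have h6 : 2 ^ 6 ≤ S ^ 6 := Nat.pow_le_pow_left hS2 6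
  have h8 : 2 ^ 6 * S ^ 6 ≤ S ^ 12 := by
    rw [show S ^ 12 = S ^ 6 * S ^ 6 by ring]
    exact Nat.mul_le_mul_right _ h6
  have h9 : 2 * ((2 * S + 1) * S + 3 + (S + 1) * S * (4 + S * S) + S * (3 + S * S) + S + S * S) +
      3 * (S + S * (2 * S + 1) + 2 * (2 * S + 1 + S + (S + 1) * S + S) +
        S * S * (4 * (S * (S * ((2 * S + 1) * (2 * S + 2))) + S)) + 4 * (2 + S * S) ^ 2) +
      (2 * S + 1) =
      48 * S ^ 6 + 72 * S ^ 5 + 38 * S ^ 4 + 16 * S ^ 3 + 74 * S ^ 2 + 56 * S + 61 := by ring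
  rw [h9]
  generalize S ^ 6 = x6 at *
  generalize S ^ 12 = x12 at *
  generalize S ^ 5 = x5 at *
  generalize S ^ 4 = x4 at *
  generalize S ^ 3 = x3 at *
  generalize S ^ 2 = x2 at *
  omega

private theorem E3_big {r s m M t w kp : ℕ} :
    2 * ((2 * r + 1) * M + 3 + (r + 1) * m * (4 + kp * r) + r * (3 + kp * r) + kp + kp * r) +
      3 * (m + s * (2 * t + 1) + 2 * (2 * t + 1 + w + (r + 1) * m + r) +
        kp * r * (4 * (r * (s * ((2 * t + 1) * (2 * t + 2))) + w)) + 4 * (2 + kp * r) ^ 2) +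
      (2 * r + 1) < E3 r s m M t w kp := by
  unfold E3
  have hr : r ≤ r + s + m + M + t + w + kp + 2 := by omega
  have hs : s ≤ r + s + m + M + t + w + kp + 2 := by omega
  have hm : m ≤ r + s + m + M + t + w + kp + 2 := by omega
  have hM : M ≤ r + s + m + M + t + w + kp + 2 := by omega
  have ht : t ≤ r + s + m + M + t + w + kp + 2 := by omega
  have hw : w ≤ r + s + m + M + t + w + kp + 2 := by omega
  have hk : kp ≤ r + s + m + M + t + w + kp + 2 := by omega
  have hS2 : 2 ≤ r + s + m + M + t + w + kp + 2 := by omega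
  generalize r + s + m + M + t + w + kp + 2 = S at *
  refine lt_of_le_of_lt ?_ (pol_S hS2)
  gcongr

/-- the numerical inequality at the end -/
private theorem fin3 {r s m M t w kp q : ℕ} {la L T lm R : ℝ} (hr : 2 ≤ r) (hm : 1 ≤ m)
    (hq : 1 ≤ q) (hw : 1 ≤ w) (hM : w + M + 1 ≤ 2 * t + 1) (hla : Real.log 2 ≤ la)
    (hL1 : Real.log 2 ≤ L) (hL2 : L ≤ (2 * r + 1) * la) (hlm0 : 0 ≤ lm) (hlm : lm ≤ la)
    (hTE : (E3 r s m M t w kp : ℝ) * la ≤ T) (hT : T < ((q : ℝ) + 1) * L)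
    (hnum : ((2 * t + 1 : ℕ) + (w : ℝ)) * (lm + (3 * r + kp * r ^ 2) * Real.log 2) ≤
      r * (((2 * t + 1 : ℕ) : ℝ) - w - M - 1) * L)
    {J d : ℕ} (hJ : r * J ≤ q * (2 * t + 1) + q * w + (r + 1) * m) (hd : d + 1 = r * (J + 1))
    (hR : R = Real.log (4 * ((r * (s * (q * (2 * t + 1) * (2 * t + 2))) + q * w : ℕ) : ℝ)))
    (hmain : 0 ≤ 3 * la + Real.log m + 2 * Real.log ((d : ℝ) + 1) + d * Real.log 8 + J * lm +
      kp * (Real.log 2 + r * (R + (r * (J + 1) : ℕ) * Real.log 2 + la)) +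
      Real.log (1 + s * (2 * t + 1 : ℕ)) -
      ((q : ℝ) * (((2 * t + 1 : ℕ) : ℝ) - w - M) * L - M * L)) : False := by
  have hlog2 : (0.69 : ℝ) ≤ Real.log 2 := by
    have := Real.log_two_gt_d9
    linarith
  set l2 := Real.log 2 with hl2
  have hl8 : Real.log 8 = 3 * l2 := by
    rw [show (8 : ℝ) = 2 ^ 3 by norm_num, Real.log_pow, hl2]
    norm_num
  have hr0 : (0 : ℝ) < r := by exact_mod_cast (show 0 < r by omega)
  have hr1 : (1 : ℝ) ≤ r := by exact_mod_cast (show 1 ≤ r by omega)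
  have hq1 : (1 : ℝ) ≤ q := by exact_mod_cast hq
  have hm1 : (1 : ℝ) ≤ m := by exact_mod_cast hm
  have hla0 : 0 < la := by linarith
  have hL0 : 0 < L := by linarith
  set U : ℝ := ((2 * t + 1 : ℕ) : ℝ) with hU
  have hU1 : U = 2 * t + 1 := by rw [hU]; push_cast; ring
  have hUM : (w : ℝ) + M + 1 ≤ U := by rw [hU]; exact_mod_cast hM
  set X : ℝ := ((r : ℝ) + 1) * m with hX
  have hX0 : 0 ≤ X := by positivity
  -- J and d
  have hJr : (r : ℝ) * J ≤ q * (U + w) + X := by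
    have h1 : ((r * J : ℕ) : ℝ) ≤ ((q * (2 * t + 1) + q * w + (r + 1) * m : ℕ) : ℝ) := by
      exact_mod_cast hJ
    push_cast at h1
    rw [hU1, hX]
    linarith
  have hdr : (d : ℝ) + 1 = r * J + r := by
    have h1 : ((d + 1 : ℕ) : ℝ) = ((r * (J + 1) : ℕ) : ℝ) := by rw [hd]
    push_cast at h1
    rw [h1]
    ring
  have hd1 : (d : ℝ) + 1 ≤ q * (U + w) + X + r := by linarith
  have hD : ((r * (J + 1) : ℕ) : ℝ) ≤ q * (U + w) + X + r := by
    rw [← hd]
    push_cast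
    exact hd1
  -- the main terms
  set κ : ℝ := (kp : ℝ) * r with hκ
  have hκ0 : 0 ≤ κ := by positivity
  have hm1' : (d : ℝ) * Real.log 8 ≤ (q * (U + w) + X + r) * (3 * l2) := by
    rw [hl8]
    exact mul_le_mul_of_nonneg_right (by linarith) (by linarith)
  have hm2 : (J : ℝ) * lm ≤ (q * (U + w) + X) * (lm / r) := by
    have h1 : (J : ℝ) * lm = (r * J) * (lm / r) := by field_simp
    rw [h1]
    exact mul_le_mul_of_nonneg_right hJr (div_nonneg hlm0 hr0.le)
  have hm3 : (kp : ℝ) * (r * (((r * (J + 1) : ℕ) : ℝ) * l2)) ≤ (q * (U + w) + X + r) * (κ * l2) := by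
    have h1 : (kp : ℝ) * (r * (((r * (J + 1) : ℕ) : ℝ) * l2)) =
        ((r * (J + 1) : ℕ) : ℝ) * (κ * l2) := by
      rw [hκ]
      ring
    rw [h1]
    exact mul_le_mul_of_nonneg_right hD (by positivity)
  have hnum2 : (q * (U + w)) * (3 * l2 + lm / r + κ * l2) ≤ q * (U - w - M - 1) * L := by
    have h1 : (U + w) * (3 * l2 + lm / r + κ * l2) ≤ (U - w - M - 1) * L := by
      have h2 : r * ((U + w) * (3 * l2 + lm / r + κ * l2)) =
          (U + w) * (lm + (3 * r + kp * r ^ 2) * l2) := by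
        rw [hκ]
        field_simp
        ring
      have h3 : r * ((U + w) * (3 * l2 + lm / r + κ * l2)) ≤ r * ((U - w - M - 1) * L) := by
        rw [h2]
        linarith
      exact le_of_mul_le_mul_left h3 hr0
    calc (q * (U + w)) * (3 * l2 + lm / r + κ * l2) = q * ((U + w) * (3 * l2 + lm / r + κ * l2)) := by
          ring
      _ ≤ q * ((U - w - M - 1) * L) := mul_le_mul_of_nonneg_left h1 (by linarith)
      _ = _ := by ring
  have hlmr : lm / r ≤ la := (div_le_self hlm0 hr1).trans hlm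
  have hX2 : X * (3 * l2 + lm / r + κ * l2) ≤ X * ((4 + κ) * la) := by
    refine mul_le_mul_of_nonneg_left ?_ hX0
    have h1 : κ * l2 ≤ κ * la := mul_le_mul_of_nonneg_left hla hκ0
    linarith
  have hr2 : (r : ℝ) * (3 * l2 + κ * l2) ≤ r * ((3 + κ) * la) := by
    refine mul_le_mul_of_nonneg_left ?_ hr0.le
    have h1 : κ * l2 ≤ κ * la := mul_le_mul_of_nonneg_left hla hκ0
    linarith
  -- the logarithms
  have hlm' : Real.log m ≤ m := by
    have := Real.log_le_sub_one_of_pos (show (0 : ℝ) < m by linarith)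
    linarith
  have hls : Real.log (1 + s * U) ≤ s * U := by
    have hU0 : 0 ≤ U := by rw [hU]; positivity
    have h1 : (0 : ℝ) < 1 + s * U := by positivity
    have := Real.log_le_sub_one_of_pos h1
    linarith
  set D1 : ℝ := U + w + X + r with hD1
  have hD1p : 0 < D1 := by
    have h1 : (0 : ℝ) ≤ w := by positivity
    have h2 : (0 : ℝ) ≤ U := by rw [hU]; positivity
    linarith
  have hld : Real.log ((d : ℝ) + 1) ≤ Real.log q + D1 := by
    have h1 : (d : ℝ) + 1 ≤ q * D1 := by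
      have h2 : X ≤ q * X := le_mul_of_one_le_left hX0 hq1
      have h3 : (r : ℝ) ≤ q * r := le_mul_of_one_le_left hr0.le hq1
      rw [hD1]
      linarith
    refine (Real.log_le_log (by positivity) h1).trans ?_
    rw [Real.log_mul (by linarith) hD1p.ne']
    have := Real.log_le_sub_one_of_pos hD1p
    linarith
  set D2 : ℝ := 4 * ((r : ℝ) * (s * ((2 * t + 1) * (2 * t + 2))) + w) with hD2
  have hD2p : 0 < D2 := by
    have h1 : (1 : ℝ) ≤ w := by exact_mod_cast hw
    positivity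
  have hlR : R ≤ Real.log q + D2 := by
    have h1 : 4 * ((r * (s * (q * (2 * t + 1) * (2 * t + 2))) + q * w : ℕ) : ℝ) = q * D2 := by
      rw [hD2]
      push_cast
      ring
    rw [hR, h1, Real.log_mul (by linarith) hD2p.ne']
    have := Real.log_le_sub_one_of_pos hD2p
    linarith
  set c1 : ℝ := 2 + κ with hc1
  have hc1p : 2 ≤ c1 := by linarith
  have hlq : c1 * Real.log q ≤ q / 4 + 4 * c1 ^ 2 := by
    have h1 : Real.log ((q : ℝ) / (4 * c1)) ≤ q / (4 * c1) - 1 :=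
      Real.log_le_sub_one_of_pos (by positivity)
    rw [Real.log_div (by linarith) (by linarith)] at h1
    have h2 : Real.log (4 * c1) ≤ 4 * c1 - 1 := Real.log_le_sub_one_of_pos (by linarith)
    have h3 : Real.log q ≤ q / (4 * c1) + 4 * c1 := by linarith
    calc c1 * Real.log q ≤ c1 * (q / (4 * c1) + 4 * c1) :=
          mul_le_mul_of_nonneg_left h3 (by linarith)
      _ = q / 4 + 4 * c1 ^ 2 := by
          field_simp
  have hq4 : (q : ℝ) / 4 ≤ q * L / 2 := by
    have h1 : (q : ℝ) * (1 / 2) ≤ q * L := mul_le_mul_of_nonneg_left (by linarith) (by linarith)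
    linarith
  have hkR : (kp : ℝ) * (r * R) ≤ κ * (Real.log q + D2) := by
    have h1 : (kp : ℝ) * (r * R) = κ * R := by rw [hκ]; ring
    rw [h1]
    exact mul_le_mul_of_nonneg_left hlR hκ0
  have hML : (M : ℝ) * L ≤ M * ((2 * r + 1) * la) := mul_le_mul_of_nonneg_left hL2 (by positivity)
  have hk2 : (kp : ℝ) * l2 ≤ kp * la := mul_le_mul_of_nonneg_left hla (by positivity)
  -- the sum
  have hsum : (q : ℝ) * L ≤ M * ((2 * r + 1) * la) + 3 * la + m + s * U + X * ((4 + κ) * la) +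
      r * ((3 + κ) * la) + kp * la + κ * la + 2 * D1 + κ * D2 + (q * L / 2 + 4 * c1 ^ 2) := by
    have hexp : (kp : ℝ) * (l2 + r * (R + ((r * (J + 1) : ℕ) : ℝ) * l2 + la)) =
        kp * l2 + kp * (r * R) + kp * (r * (((r * (J + 1) : ℕ) : ℝ) * l2)) + κ * la := by
      rw [hκ]
      ring
    rw [hexp] at hmain
    have hc1q : 2 * Real.log q + κ * Real.log q = c1 * Real.log q := by rw [hc1]; ring
    linarith
  have hfin : (q : ℝ) * L ≤ 2 * ((2 * r + 1) * M + 3 + (r + 1) * m * (4 + κ) + r * (3 + κ) + kp + κ) * la +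
      2 * (m + s * U + 2 * D1 + κ * D2 + 4 * c1 ^ 2) := by
    rw [hX] at hsum
    linarith
  have hQ0 : 0 ≤ m + s * U + 2 * D1 + κ * D2 + 4 * c1 ^ 2 := by
    have h2 : (0 : ℝ) ≤ U := by rw [hU]; positivity
    positivity
  have hfin2 : 2 * (m + s * U + 2 * D1 + κ * D2 + 4 * c1 ^ 2) ≤
      3 * (m + s * U + 2 * D1 + κ * D2 + 4 * c1 ^ 2) * la := by
    have h1 : (m + s * U + 2 * D1 + κ * D2 + 4 * c1 ^ 2) * 0.69 ≤
        (m + s * U + 2 * D1 + κ * D2 + 4 * c1 ^ 2) * la :=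
      mul_le_mul_of_nonneg_left (by linarith) hQ0
    linarith
  have hall : T < (2 * ((2 * r + 1) * M + 3 + (r + 1) * m * (4 + κ) + r * (3 + κ) + kp + κ) +
      3 * (m + s * U + 2 * D1 + κ * D2 + 4 * c1 ^ 2) + (2 * r + 1)) * la := by
    linarith
  have hE := E3_big (r := r) (s := s) (m := m) (M := M) (t := t) (w := w) (kp := kp)
  have hE' : (2 * ((2 * r + 1) * M + 3 + (r + 1) * m * (4 + κ) + r * (3 + κ) + kp + κ) +
      3 * (m + s * U + 2 * D1 + κ * D2 + 4 * c1 ^ 2) + (2 * r + 1)) ≤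
      (E3 r s m M t w kp : ℝ) := by
    have h1 : ((2 * ((2 * r + 1) * M + 3 + (r + 1) * m * (4 + kp * r) + r * (3 + kp * r) + kp + kp * r) +
      3 * (m + s * (2 * t + 1) + 2 * (2 * t + 1 + w + (r + 1) * m + r) +
        kp * r * (4 * (r * (s * ((2 * t + 1) * (2 * t + 2))) + w)) + 4 * (2 + kp * r) ^ 2) +
      (2 * r + 1) : ℕ) : ℝ) ≤ (E3 r s m M t w kp : ℝ) := by exact_mod_cast hE.le
    refine le_trans (le_of_eq ?_) h1
    push_cast
    rw [hD1, hD2, hc1, hκ, hX, hU1]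
  have h9 := mul_le_mul_of_nonneg_right hE' hla0.le
  linarith

private theorem near_lb {r s m M t l : ℕ} {A : ℝ} {a b : ℕ} {α : ℝ} {c : ℤ} {π : ℝ} {z : Fin s → ℝ}
    {bb : Fin m → Fin s → ℕ → ℤ[X]} {e : ℤ} {Yv : Fin m → ℤ}
    (h : Dat3 r s m M t l A a b α c π z bb e Yv) : 1 ≤ |α - c| * A ^ (2 * r + 1) := by
  have hr := h.r2
  have hb1 := h.b1
  have hA := h.A2
  have hb0 : (0 : ℝ) < b := by exact_mod_cast hb1
  -- the integer
  have hne : (a : ℤ) - b * c ^ r ≠ 0 := by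
    intro h0
    have h1 : (a : ℤ) = b * c ^ r := by linarith
    set p : ℤ[X] := X ^ r - C ((a * b ^ (r - 1) : ℕ) : ℤ) with hp
    have hdeg : p.natDegree = r := natDegree_X_pow_sub_C
    have h2 : p.eval (b * c : ℤ) = 0 := by
      rw [hp, eval_sub, eval_pow, eval_X, eval_C]
      push_cast
      rw [h1, mul_pow]
      have h3 : (b : ℤ) ^ r = (b : ℤ) ^ (r - 1) * b := by
        rw [← pow_succ, Nat.sub_add_cancel (by omega)]
      rw [h3]
      ring
    obtain ⟨g, hg⟩ := (Polynomial.dvd_iff_isRoot (p := p) (a := (b * c : ℤ))).2 h2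
    rcases h.irr.isUnit_or_isUnit hg with hu | hu
    · exact Polynomial.not_isUnit_X_sub_C _ hu
    · have h4 : p.natDegree = 1 := by
        rw [hg, Polynomial.natDegree_mul (X_sub_C_ne_zero _) hu.ne_zero, natDegree_X_sub_C,
          Polynomial.natDegree_eq_zero_of_isUnit hu]
      omega
  have h1 : (1 : ℝ) ≤ |(a : ℝ) - b * c ^ r| := by
    have h2 : (1 : ℤ) ≤ |(a : ℤ) - b * c ^ r| := Int.one_le_abs hne
    have h3 : ((1 : ℤ) : ℝ) ≤ ((|(a : ℤ) - b * c ^ r| : ℤ) : ℝ) := by exact_mod_cast h2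
    rw [Int.cast_abs] at h3
    push_cast at h3
    exact h3
  have hc : |(c : ℝ)| = 1 := by
    rcases h.cc with hc | hc
    · rw [hc]; norm_num
    · rw [hc]; norm_num
  have hα : |α| ≤ 2 := by
    have h2 := h.near
    have h3 : |α| ≤ |α - c| + |(c : ℝ)| := by
      calc |α| = |(α - c) + c| := by rw [sub_add_cancel]
        _ ≤ _ := abs_add_le _ _
    rw [hc] at h3
    linarith
  have h2 : |α ^ r - (c : ℝ) ^ r| ≤ |α - c| * (r * 2 ^ r) := by
    rw [← (Commute.all α (c : ℝ)).geom_sum₂_mul r, abs_mul, mul_comm]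
    refine mul_le_mul_of_nonneg_left ?_ (abs_nonneg _)
    refine (Finset.abs_sum_le_sum_abs _ _).trans ?_
    refine (Finset.sum_le_card_nsmul _ _ ((2 : ℝ) ^ r) fun i hi => ?_).trans ?_
    · rw [abs_mul, abs_pow, abs_pow, hc, one_pow, mul_one]
      exact (pow_le_pow_left₀ (abs_nonneg _) hα _).trans
        (pow_le_pow_right₀ (by norm_num) (Finset.mem_range.1 hi).le)
    · rw [Finset.card_range, nsmul_eq_mul]
  have h3 : (a : ℝ) - b * c ^ r = b * (α ^ r - c ^ r) := by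
    rw [mul_sub, h.root]
  rw [h3, abs_mul, abs_of_pos hb0] at h1
  have h4 : (r : ℝ) ≤ 2 ^ r := by exact_mod_cast (Nat.lt_two_pow_self (n := r)).le
  have h5 : (2 : ℝ) ^ r ≤ A ^ r := pow_le_pow_left₀ (by norm_num) hA r
  calc (1 : ℝ) ≤ b * |α ^ r - (c : ℝ) ^ r| := h1
    _ ≤ A * (|α - c| * (A ^ r * A ^ r)) := by
        refine mul_le_mul h.bA' ?_ (abs_nonneg _) (by linarith)
        refine h2.trans (mul_le_mul_of_nonneg_left ?_ (abs_nonneg _))
        exact mul_le_mul (h4.trans h5) h5 (by positivity) (by positivity)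
    _ = |α - c| * A ^ (2 * r + 1) := by ring

theorem core3 {r s m M t l : ℕ} {A : ℝ} {a b : ℕ} {α : ℝ} {c : ℤ} {π : ℝ} {z : Fin s → ℝ}
    {bb : Fin m → Fin s → ℕ → ℤ[X]} {e : ℤ} {Yv : Fin m → ℤ}
    (h : Dat3 r s m M t l A a b α c π z bb e Yv) {w kp : ℕ} (hw : 1 ≤ w)
    (hkp : s * (2 * t + 1) * (2 * t + 2) ≤ 2 * w * kp) (hM : w + M + 1 ≤ 2 * t + 1)
    (num : |α - c| ^ (r * (2 * t + 1 - w - M - 1)) *
      (((max a b : ℕ) : ℝ) * 2 ^ (3 * r + kp * r ^ 2)) ^ (2 * t + 1 + w) ≤ 1)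
    (hπ : |π| * A ^ E3 r s m M t w kp ≤ 1) : False := by
  have hm : 1 ≤ m := by
    obtain ⟨k, _⟩ := h.Y0
    exact Nat.one_le_of_lt (Nat.lt_of_le_of_lt (Nat.zero_le _) k.2)
  have hr := h.r2
  have hs := h.s1
  have hA := h.A2
  have ha1 := h.a1
  have hb1 := h.b1
  have hA0 : 0 < A := by linarith
  set la := Real.log A with hla
  have hla2 : Real.log 2 ≤ la := Real.log_le_log (by norm_num) hA
  have hlog2 : (0.69 : ℝ) ≤ Real.log 2 := by
    have := Real.log_two_gt_d9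
    linarith
  have hla0 : 0 < la := by linarith
  -- L
  have hnl := near_lb h
  have hδ0 : 0 < |α - c| := by
    by_contra hcon
    have h1 : |α - c| = 0 := le_antisymm (not_lt.1 hcon) (abs_nonneg _)
    rw [h1, zero_mul] at hnl
    linarith
  set L := -Real.log |α - c| with hL
  have hexpL : |α - c| = Real.exp (-L) := by rw [hL, neg_neg, Real.exp_log hδ0]
  have hL1 : Real.log 2 ≤ L := by
    have h1 : Real.log |α - c| ≤ Real.log (1 / 2) := Real.log_le_log hδ0 h.near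
    rw [one_div, Real.log_inv] at h1
    rw [hL]
    linarith
  have hL0 : 0 < L := by linarith
  have hL2 : L ≤ (2 * r + 1) * la := by
    have h1 := Real.log_nonneg hnl
    rw [Real.log_mul hδ0.ne' (by positivity), Real.log_pow] at h1
    push_cast at h1
    rw [hL, hla]
    linarith
  -- lm
  set mx : ℝ := ((max a b : ℕ) : ℝ) with hmx
  have hmx1 : 1 ≤ mx := by
    rw [hmx]
    exact_mod_cast (le_max_of_le_left ha1 : 1 ≤ max a b)
  have hmxA : mx ≤ A := by
    rw [hmx, Nat.cast_max]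
    exact max_le h.aA h.bA'
  set lm := Real.log mx with hlm
  have hlm0 : 0 ≤ lm := Real.log_nonneg hmx1
  have hlma : lm ≤ la := Real.log_le_log (by linarith) hmxA
  have hnum : ((2 * t + 1 : ℕ) + (w : ℝ)) * (lm + (3 * r + kp * r ^ 2) * Real.log 2) ≤
      r * (((2 * t + 1 : ℕ) : ℝ) - w - M - 1) * L := by
    have h1 := Real.log_nonpos (by positivity) num
    rw [Real.log_mul (by positivity) (by positivity), Real.log_pow, Real.log_pow,
      Real.log_mul (by positivity) (by positivity), Real.log_pow] at h1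
    have h2 : ((r * (2 * t + 1 - w - M - 1) : ℕ) : ℝ) =
        r * (((2 * t + 1 : ℕ) : ℝ) - w - M - 1) := by
      rw [Nat.cast_mul, show 2 * t + 1 - w - M - 1 = 2 * t + 1 - (w + M + 1) by omega,
        Nat.cast_sub hM]
      push_cast
      ring
    rw [h2] at h1
    push_cast at h1 ⊢
    rw [hL]
    linarith
  -- T
  have hπ0 := h.π0
  set T := -Real.log |π| with hT
  have hexpT : |π| = Real.exp (-T) := by rw [hT, neg_neg, Real.exp_log hπ0]
  have hTE : (E3 r s m M t w kp : ℝ) * la ≤ T := by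
    have h1 : Real.log (|π| * A ^ E3 r s m M t w kp) ≤ 0 := Real.log_nonpos (by positivity) hπ
    rw [Real.log_mul hπ0.ne' (by positivity), Real.log_pow] at h1
    rw [hT]
    linarith
  have hTL : L ≤ T := by
    have h1 : 2 * r + 1 ≤ E3 r s m M t w kp := by
      have := E3_big (r := r) (s := s) (m := m) (M := M) (t := t) (w := w) (kp := kp)
      omega
    have h2 : (2 * r + 1 : ℝ) ≤ E3 r s m M t w kp := by exact_mod_cast h1
    calc L ≤ (2 * r + 1) * la := hL2
      _ ≤ E3 r s m M t w kp * la := mul_le_mul_of_nonneg_right h2 hla0.le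
      _ ≤ T := hTE
  set q := ⌊T / L⌋₊ with hq
  have hq1 : 1 ≤ q := by
    rw [hq, Nat.one_le_floor_iff, le_div_iff₀ hL0, one_mul]
    exact hTL
  have hqT1 : q * L ≤ T := by
    have h1 : (q : ℝ) ≤ T / L := Nat.floor_le (div_nonneg (by linarith) hL0.le)
    rwa [le_div_iff₀ hL0] at h1
  have hqT2 : T < ((q : ℝ) + 1) * L := by
    have h1 : T / L < q + 1 := Nat.lt_floor_add_one _
    rwa [div_lt_iff₀ hL0] at h1
  -- J and d
  set J := (q * (2 * t + 1) + q * w + (r + 1) * m) / r with hJ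
  have hJ1 : r * J ≤ q * (2 * t + 1) + q * w + (r + 1) * m := Nat.mul_div_le _ _
  have hJ2 : q * (2 * t + 1) + q * w + (r + 1) * m ≤ r * (J + 1) := by
    have h1 := Nat.div_add_mod (q * (2 * t + 1) + q * w + (r + 1) * m) r
    have h2 := Nat.mod_lt (q * (2 * t + 1) + q * w + (r + 1) * m) (show 0 < r by omega)
    rw [← hJ] at h1
    have h3 : r * (J + 1) = r * J + r := by ring
    omega
  obtain ⟨d, hd⟩ : ∃ d, d + 1 = r * (J + 1) := by
    refine ⟨r * (J + 1) - 1, Nat.sub_add_cancel ?_⟩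
    exact Nat.mul_pos (by omega) (Nat.succ_pos _)
  -- the auxiliary function
  set N := r * (s * (q * (2 * t + 1) * (2 * t + 2))) + q * w with hN
  have hN1 : (1 : ℝ) ≤ (N : ℝ) := by
    have : 1 ≤ N := by
      have : 1 ≤ q * w := Nat.mul_pos hq1 hw
      omega
    exact_mod_cast this
  set Q : ℝ := (4 * (N : ℝ) * 2 ^ (r * (J + 1)) * A) ^ r with hQ
  have hQb : (1 : ℝ) ≤ 4 * (N : ℝ) * 2 ^ (r * (J + 1)) * A := by
    have h1 : (1 : ℝ) ≤ 2 ^ (r * (J + 1)) := one_le_pow₀ (by norm_num)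
    exact one_le_mul_of_one_le_of_one_le (one_le_mul_of_one_le_of_one_le (by linarith) h1)
      (by linarith)
  have hQ1 : 1 ≤ Q := one_le_pow₀ hQb
  set Y : ℕ := ⌈Q⌉₊ ^ kp with hY
  have hceil : Q ≤ (⌈Q⌉₊ : ℝ) := Nat.le_ceil _
  have hceil2 : (⌈Q⌉₊ : ℝ) ≤ 2 * Q := by
    have := Nat.ceil_lt_add_one (show 0 ≤ Q by linarith)
    linarith
  have hceil0 : 0 < ⌈Q⌉₊ := Nat.ceil_pos.2 (by linarith)
  obtain ⟨y, hy, hv, b0, hb0, hne⟩ := cor1_3 h hq1 hw hkp hJ2 (Y := Y) (Nat.pow_pos hceil0) (by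
    rw [hY]
    push_cast
    refine pow_le_pow_left₀ (by positivity) ?_ _
    refine le_trans (le_of_eq ?_) hceil
    rw [hQ, hN]
    push_cast
    rfl)
  have hsz := size3 h hd (v := fun u => q * (2 * t + 1 - u)) hy hv hne
  -- the bound
  set K : ℝ := A ^ 3 * m * ((d : ℝ) + 1) ^ 2 * 8 ^ d * mx ^ J * Y with hK
  have hm' : (0 : ℝ) < m := by exact_mod_cast hm
  have hY0 : (0 : ℝ) < Y := by
    have : 0 < Y := Nat.pow_pos hceil0
    exact_mod_cast this
  have hK0 : 0 < K := by positivity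
  set U : ℝ := ((2 * t + 1 : ℕ) : ℝ) with hU
  set G : ℝ := Real.exp (-((q : ℝ) * (U - w - M) * L - M * L)) with hG
  have hUM : (w : ℝ) + M + 1 ≤ U := by rw [hU]; exact_mod_cast hM
  have hT0 : 0 ≤ T := by linarith
  have hterm : |π| ^ (2 * t + 1) + ∑ _i : Fin s, ∑ u ∈ range (2 * t + 1),
      |π| ^ u * |(c : ℝ) - α| ^ (q * (2 * t + 1 - u) - b0) ≤
      |π| ^ M * ((1 + s * U) * G) := by
    have h1 : |π| ^ (2 * t + 1) ≤ |π| ^ M * G := by
      rw [hexpT, ← Real.exp_nat_mul, ← Real.exp_nat_mul, hG, ← Real.exp_add]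
      refine Real.exp_le_exp.2 ?_
      rw [← hU]
      have h2 : (U - w - M) * ((q : ℝ) * L) ≤ (U - w - M) * T :=
        mul_le_mul_of_nonneg_left hqT1 (by linarith)
      have h3 : 0 ≤ (w : ℝ) * T := by positivity
      have h4 : 0 ≤ (M : ℝ) * L := by positivity
      linarith
    have h2 : ∀ u ∈ range (2 * t + 1), |π| ^ u * |(c : ℝ) - α| ^ (q * (2 * t + 1 - u) - b0) ≤
        |π| ^ M * G := by
      intro u hu
      rw [Finset.mem_range] at hu
      rw [abs_sub_comm, hexpL, hexpT, ← Real.exp_nat_mul, ← Real.exp_nat_mul,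
        ← Real.exp_nat_mul, hG, ← Real.exp_add, ← Real.exp_add]
      refine Real.exp_le_exp.2 ?_
      have h3 := expo3 hL0 hqT1 hqT2.le hu hb0 hM
      rw [← hU] at h3
      linarith
    calc |π| ^ (2 * t + 1) + ∑ _i : Fin s, ∑ u ∈ range (2 * t + 1),
          |π| ^ u * |(c : ℝ) - α| ^ (q * (2 * t + 1 - u) - b0)
        ≤ |π| ^ M * G + ∑ _i : Fin s, ∑ _u ∈ range (2 * t + 1), |π| ^ M * G :=
          add_le_add h1 (Finset.sum_le_sum fun _ _ => Finset.sum_le_sum h2)
      _ = |π| ^ M * ((1 + s * U) * G) := by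
          rw [Finset.sum_const, Finset.sum_const, Finset.card_univ, Fintype.card_fin,
            Finset.card_range, nsmul_eq_mul, nsmul_eq_mul, ← hU]
          ring
  have hU0 : 0 ≤ U := by rw [hU]; positivity
  have hone : 1 ≤ K * ((1 + s * U) * G) := by
    have h1 : |π| ^ M ≤ |π| ^ M * (K * ((1 + s * U) * G)) := by
      refine hsz.trans ((mul_le_mul_of_nonneg_left hterm hK0.le).trans (le_of_eq ?_))
      ring
    have h2 : 0 < |π| ^ M := by positivity
    have h3 : |π| ^ M * 1 ≤ |π| ^ M * (K * ((1 + s * U) * G)) := by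
      rw [mul_one]
      exact h1
    exact le_of_mul_le_mul_left h3 h2
  have hlog : 0 ≤ Real.log K + Real.log (1 + s * U) + -((q : ℝ) * (U - w - M) * L - M * L) := by
    have h1 := Real.log_nonneg hone
    rw [Real.log_mul hK0.ne' (by positivity), Real.log_mul (by positivity) (Real.exp_pos _).ne',
      Real.log_exp] at h1
    linarith
  -- logarithm of K
  have hlY : Real.log Y ≤ kp *
      (Real.log 2 + r * (Real.log (4 * (N : ℝ)) + (r * (J + 1) : ℕ) * Real.log 2 + la)) := by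
    have h1 : Real.log Y = kp * Real.log (⌈Q⌉₊ : ℝ) := by
      rw [hY]
      push_cast
      rw [Real.log_pow]
    have h2 : Real.log (⌈Q⌉₊ : ℝ) ≤ Real.log 2 + Real.log Q := by
      rw [← Real.log_mul (by norm_num) (by linarith)]
      exact Real.log_le_log (by exact_mod_cast hceil0) hceil2
    have h3 : Real.log Q = r * (Real.log (4 * (N : ℝ)) + (r * (J + 1) : ℕ) * Real.log 2 + la) := by
      rw [hQ, Real.log_pow, Real.log_mul (by positivity) hA0.ne', Real.log_mul (by positivity)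
        (by positivity), Real.log_pow]
    rw [h1, ← h3]
    exact mul_le_mul_of_nonneg_left h2 (by positivity)
  have hlK : Real.log K = 3 * la + Real.log m + 2 * Real.log ((d : ℝ) + 1) +
      d * Real.log 8 + J * lm + Real.log Y := by
    rw [hK, Real.log_mul (by positivity) (by positivity),
      Real.log_mul (by positivity) (by positivity), Real.log_mul (by positivity) (by positivity),
      Real.log_mul (by positivity) (by positivity), Real.log_mul (by positivity) (by positivity),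
      Real.log_pow A 3, Real.log_pow ((d : ℝ) + 1) 2, Real.log_pow 8 d, Real.log_pow mx J]
    push_cast
    ring
  refine fin3 hr hm hq1 hw hM hla2 hL1 hL2 hlm0 hlma hTE hqT2 hnum hJ1 hd
    (R := Real.log (4 * (N : ℝ))) (by rw [hN]) ?_
  rw [hlK] at hlog
  rw [← hU]
  linarith

end Pool.Agent.H85.SB
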