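import Pool.Agent.H85.SB.JevP
import Pool.Agent.H85.SB.DatP
import Pool.Agent.H85.SB.Cor
import Pool.Agent.H85.SA.Snd

/-! # [H85 SB SND] SOUNDNESS of the certificates of type 3 -/

namespace Pool.Agent.H85.SB

open Pool.Agent.H98.AL Pool.Agent.H85.SA

/-- the exponent -/
def ES (Z : ℕ) : ℕ := E3 Z Z Z (2 * Z + 1) Z (2 * Z + 1) Z

/-- the bound -/
def PhiS (Z : ℕ) : ℕ := (Z + 1) ^ 5 * TT Z ^ (6 * ES Z * Z + 5 * Z + 2)

/-- `|α - c| ≤ |a - b|/b` for the sign `c` of `α` -/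
private theorem sgn_near {r a b : ℕ} (hb : 1 ≤ b) (hr : 1 ≤ r) {α : ℝ} (h : (b : ℝ) * α ^ r = a) (ha : 1 ≤ a) :
    ∃ c : ℤ, (c = 1 ∨ c = -1) ∧ |α - c| * b ≤ |(a : ℝ) - b| := by
  have hb0 : (0 : ℝ) < b := by exact_mod_cast hb
  have ha0 : (0 : ℝ) < a := by exact_mod_cast ha
  have hpos : 0 < α ^ r := by
    by_contra hc
    push Not at hc
    have := mul_nonpos_of_nonneg_of_nonpos hb0.le hc
    linarith
  have key : ∀ x : ℝ, 0 ≤ x → |x - 1| ≤ |x ^ r - 1| := by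
    intro x hx
    have h1 : (∑ i ∈ Finset.range r, x ^ i) * (x - 1) = x ^ r - 1 := geom_sum_mul x r
    have h2 : 1 ≤ ∑ i ∈ Finset.range r, x ^ i := by
      have h3 := Finset.single_le_sum (f := fun i => x ^ i) (fun i _ => pow_nonneg hx i) (Finset.mem_range.2 hr)
      simpa using h3
    rw [← h1, abs_mul, abs_of_nonneg (show 0 ≤ ∑ i ∈ Finset.range r, x ^ i by linarith)]
    exact le_mul_of_one_le_left (abs_nonneg _) h2
  have hx : ∀ x : ℝ, 0 ≤ x → (b : ℝ) * x ^ r = a → |x - 1| * b ≤ |(a : ℝ) - b| := by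
    intro x hx0 hxr
    have h1 : |(a : ℝ) - b| = |x ^ r - 1| * b := by
      rw [← hxr, show (b : ℝ) * x ^ r - b = (x ^ r - 1) * b by ring, abs_mul, abs_of_pos hb0]
    rw [h1]
    exact mul_le_mul_of_nonneg_right (key x hx0) hb0.le
  rcases le_or_gt 0 α with h0 | h0
  · refine ⟨1, Or.inl rfl, ?_⟩
    push_cast
    exact hx α h0 h
  · refine ⟨-1, Or.inr rfl, ?_⟩
    have h1 : α ^ r = (-α) ^ r := by
      rcases Nat.even_or_odd r with he | ho
      · rw [he.neg_pow]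
      · exfalso
        exact absurd hpos (not_lt.2 (ho.pow_neg h0).le)
    have h2 := hx (-α) (by linarith) (by rw [← h1]; exact h)
    have h3 : |α - ((-1 : ℤ) : ℝ)| = |(-α) - 1| := by
      push_cast
      rw [show -α - 1 = -(α - -1) by ring, abs_neg]
    rw [h3]
    exact h2

theorem soundS {F : P2} {Z : ℕ} (h : CerS F Z) {x y : ℤ} (h0 : MvPolynomial.eval ![x, y] F = 0) :
    max |x| |y| ≤ (PhiS Z : ℤ) := by
  obtain ⟨r, a, b, M, t, w, kp, d, hr, hrZ, haZ, hbZ, htZ, hkZ, hirr, hN, hC⟩ := h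
  have hZ := hC.Z2
  have h0' := vl_shf_int d.c h0
  have hTp := TT_pos Z
  have hT0 := TT_ge Z hZ
  have hTZ : 1 + 2 * Z ≤ TT Z := by
    have h1 : 2 * Z + 2 ≤ (2 * Z + 2) ^ 5 := Nat.le_self_pow (by norm_num) _
    omega
  set X := TT Z ^ (6 * ES Z * Z + 5 * Z + 1) with hX
  have hX1 : 1 ≤ X := Nat.one_le_pow _ _ (by omega)
  by_cases hc : |x + d.c * y| ≤ (X : ℤ)
  · refine (xy_bd (by omega) hC.cZ hC.dZ hC.lc hC.FZ h0' hX1 hc).trans ?_
    unfold PhiS
    have h1 : X ≤ TT Z ^ (6 * ES Z * Z + 5 * Z + 2) := Nat.pow_le_pow_right (by omega) (by omega)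
    exact_mod_cast Nat.mul_le_mul_left _ h1
  exfalso
  push Not at hc
  have hcR : ((X : ℕ) : ℝ) ≤ |((x + d.c * y : ℤ) : ℝ)| := by
    have h1 : ((X : ℤ) : ℝ) ≤ ((|x + d.c * y| : ℤ) : ℝ) := by exact_mod_cast hc.le
    rw [Int.cast_abs] at h1
    exact_mod_cast h1
  have hTr : (1 : ℝ) ≤ TT Z := by exact_mod_cast hTp
  have hXR : ((X : ℕ) : ℝ) = (TT Z : ℝ) ^ (6 * ES Z * Z + 5 * Z + 1) := by rw [hX]; push_cast; rfl
  obtain ⟨α, ϖ, z, e, Y, hα, hϖ0, hϖ, hz, he1, heA, hY0, happ⟩ := datcP hC h0' (by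
    refine le_trans ?_ hcR
    rw [hXR]
    exact pow_le_pow_right₀ hTr (by omega))
  -- the numbers `a`, `b`
  have hb1 : 1 ≤ b := by
    by_contra hb
    have hb0 : b = 0 := by omega
    have h1 := hN.cl
    rw [hb0] at h1
    have h2 : |(a : ℤ) - (0 : ℕ)| = a := by simp
    rw [h2] at h1
    have h3 : a = 0 := by
      have : 2 * (a : ℤ) ≤ 0 := by simpa using h1
      omega
    exact hN.ne (by rw [h3, hb0])
  have hcl : 2 * |(a : ℝ) - b| ≤ b := by exact_mod_cast hN.cl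
  have hb0 : (0 : ℝ) < b := by exact_mod_cast hb1
  have habs := abs_le.1 (show |(a : ℝ) - b| ≤ b / 2 by linarith)
  have ha0 : (0 : ℝ) < a := by linarith [habs.1]
  have ha1 : 1 ≤ a := by exact_mod_cast ha0
  have ha2R : (a : ℝ) ≤ 2 * b := by linarith [habs.2]
  have ha2 : a ≤ 2 * b := by exact_mod_cast ha2R
  have hroot : (b : ℝ) * α ^ r = a := by
    rw [rd_aeval] at hα
    linarith
  obtain ⟨c, hcc, hcn⟩ := sgn_near hb1 (by omega) hroot ha1
  have hnear : |α - c| ≤ 1 / 2 := by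
    have h1 : |α - c| * b ≤ 1 / 2 * b := by linarith
    exact le_of_mul_le_mul_right h1 hb0
  have hTT6 : (TT Z : ℝ) ≤ (TT Z : ℝ) ^ 6 := le_self_pow₀ hTr (by norm_num)
  have hZT : (Z : ℝ) ≤ TT Z := by exact_mod_cast (by omega : Z ≤ TT Z)
  have hpZ : ∀ n, n ≤ Z + 3 → (2 * (Z : ℝ) + 2) ^ n ≤ TT Z := by
    intro n hn
    have h1 : (2 * Z + 2) ^ n ≤ TT Z := by
      unfold TT
      exact Nat.pow_le_pow_right (by omega) hn
    exact_mod_cast h1
  have hZr : (2 : ℝ) ≤ Z := by exact_mod_cast hZ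
  have hbZr : (b : ℝ) ≤ Z := by exact_mod_cast hbZ
  have haZr : (a : ℝ) ≤ Z := by exact_mod_cast haZ
  -- complex roots
  have hβ : ∀ β : ℂ, (b : ℂ) * β ^ r = a → ‖β‖ ≤ 2 := by
    intro β hβ
    by_contra h1
    push Not at h1
    have h2 : (b : ℝ) * ‖β‖ ^ r = a := by
      have h3 := congrArg norm hβ
      rw [norm_mul, norm_pow, Complex.norm_natCast, Complex.norm_natCast] at h3
      exact h3
    have h3 : (2 : ℝ) < ‖β‖ ^ r := lt_of_lt_of_le h1 (le_self_pow₀ (by linarith) (by omega))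
    nlinarith
  have hval : ∀ (s : Polynomial ℤ), Sz Z s → ∀ β : ℂ, ‖β‖ ≤ 2 → ‖Polynomial.aeval β s‖ ≤ TT Z := by
    intro s hs β hβ2
    have h1 : Polynomial.aeval β s = ∑ i ∈ Finset.range (Z + 1), (s.coeff i : ℂ) * β ^ i := by
      rw [Polynomial.aeval_eq_sum_range' (Nat.lt_succ_of_le hs.1)]
      refine Finset.sum_congr rfl fun i _ => ?_
      rw [zsmul_eq_mul]
    have h2 : ∀ i ∈ Finset.range (Z + 1), ‖(s.coeff i : ℂ) * β ^ i‖ ≤ |(s.coeff i : ℝ)| * 2 ^ Z := by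
      intro i hi
      rw [norm_mul, norm_pow, Complex.norm_intCast]
      refine mul_le_mul_of_nonneg_left ?_ (abs_nonneg _)
      calc ‖β‖ ^ i ≤ 2 ^ i := pow_le_pow_left₀ (norm_nonneg _) hβ2 i
        _ ≤ 2 ^ Z := pow_le_pow_right₀ (by norm_num) (by have := Finset.mem_range.1 hi; omega)
    rw [h1]
    refine (norm_sum_le _ _).trans ((Finset.sum_le_sum h2).trans ?_)
    rw [← Finset.sum_mul]
    have h3 : ∑ i ∈ Finset.range (Z + 1), |(s.coeff i : ℝ)| ≤ Z := by exact_mod_cast hs.2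
    calc (∑ i ∈ Finset.range (Z + 1), |(s.coeff i : ℝ)|) * 2 ^ Z ≤ (Z : ℝ) * 2 ^ Z :=
          mul_le_mul_of_nonneg_right h3 (by positivity)
      _ ≤ (2 * (Z : ℝ) + 2) * (2 * Z + 2) ^ Z := by
          refine mul_le_mul (by linarith) (pow_le_pow_left₀ (by norm_num) (by linarith) _) (by positivity) (by positivity)
      _ = (2 * (Z : ℝ) + 2) ^ (Z + 1) := by rw [pow_succ]; ring
      _ ≤ TT Z := hpZ _ (by omega)
  have hDat : Dat3 r d.s d.m M t d.l ((TT Z : ℝ) ^ 6) a b α c ϖ z (fun k i u => d.b k i u) e Y :=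
    { r2 := hr
      s1 := hC.s1
      A2 := by
        have h1 : (2 : ℝ) ≤ TT Z := by exact_mod_cast (by omega : 2 ≤ TT Z)
        linarith
      a1 := ha1
      b1 := hb1
      aA := by linarith
      bA' := by linarith
      a2 := ha2
      irr := hirr
      root := hroot
      cc := hcc
      near := hnear
      π0 := hϖ0
      zA := hz
      deg := fun k i u hu => (hC.blb k k.2 i i.2 u hu).1
      bA := fun k i u hu β hβ' => by
        have h1 := hval _ (hC.blb k k.2 i i.2 u hu).2 β (hβ β hβ')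
        have h2 : (b : ℝ) ^ (r + d.l) ≤ (TT Z : ℝ) ^ 2 := by
          calc (b : ℝ) ^ (r + d.l) ≤ (2 * (Z : ℝ) + 2) ^ (r + d.l) := pow_le_pow_left₀ hb0.le (by linarith) _
            _ ≤ (2 * (Z : ℝ) + 2) ^ ((Z + 3) * 2) := pow_le_pow_right₀ (by linarith) (by have := hC.lZ; omega)
            _ = ((2 * (Z : ℝ) + 2) ^ (Z + 3)) ^ 2 := by rw [pow_mul]
            _ ≤ (TT Z : ℝ) ^ 2 := pow_le_pow_left₀ (by positivity) (hpZ _ le_rfl) 2
        have h3 : (2 : ℝ) ^ r ≤ TT Z :=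
          (pow_le_pow_left₀ (by norm_num) (by linarith : (2 : ℝ) ≤ 2 * Z + 2) r).trans (hpZ _ (by omega))
        calc (b : ℝ) ^ (r + d.l) * 2 ^ r * ‖Polynomial.aeval β (d.b k i u)‖ ≤ (TT Z : ℝ) ^ 2 * TT Z * TT Z := by
              gcongr
          _ = (TT Z : ℝ) ^ 4 := by ring
          _ ≤ (TT Z : ℝ) ^ 6 := pow_le_pow_right₀ hTr (by norm_num)
      e1 := he1
      eA := heA
      Y0 := hY0
      app := happ
      sur := jets_soundP hr hb1 hirr hC.jets fun k hk i hi u hu => (hC.blb k hk i hi u hu).1 }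
  refine core3 hDat hN.w1 hN.kw hN.wM ?_ ?_ (kp := kp)
  · -- the numbers
    have h1 : ((|(a : ℤ) - b| : ℤ) : ℝ) ^ (r * (2 * t + 1 - w - M - 1)) *
        (((max a b : ℕ) : ℝ) * 2 ^ (3 * r + kp * r ^ 2)) ^ (2 * t + 1 + w) ≤
        (b : ℝ) ^ (r * (2 * t + 1 - w - M - 1)) := by exact_mod_cast hN.num
    have h2 : ((|(a : ℤ) - b| : ℤ) : ℝ) = |(a : ℝ) - b| := by push_cast; rfl
    rw [h2] at h1
    set E := r * (2 * t + 1 - w - M - 1)
    set K : ℝ := (((max a b : ℕ) : ℝ) * 2 ^ (3 * r + kp * r ^ 2)) ^ (2 * t + 1 + w) with hK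
    have hK0 : 0 ≤ K := by positivity
    have h3 : (|α - c| * b) ^ E * K ≤ (b : ℝ) ^ E :=
      (mul_le_mul_of_nonneg_right (pow_le_pow_left₀ (by positivity) hcn E) hK0).trans h1
    have h4 : (|α - c| ^ E * K) * (b : ℝ) ^ E ≤ 1 * (b : ℝ) ^ E := by
      rw [one_mul]
      refine le_trans (le_of_eq ?_) h3
      rw [mul_pow]
      ring
    exact le_of_mul_le_mul_right h4 (by positivity)
  · have hE : E3 r d.s d.m M t w kp ≤ ES Z := by
      unfold ES
      refine E3_mono hrZ hC.sZ hC.mZ ?_ htZ ?_ hkZ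
      · have := hC.MU; omega
      · have := hN.wM; omega
    have he0 : d.e ≠ 0 := by have := hC.e1; omega
    refine (pow_le_one_iff_of_nonneg (by positivity) he0).1 ?_
    have h1 : (TT Z : ℝ) ^ (6 * ES Z * Z + 5 * Z + 1) * |ϖ| ^ d.e ≤ TT Z := by
      have h2 : ((X : ℕ) : ℝ) * |ϖ| ^ d.e ≤ 1 + 2 * Z :=
        (mul_le_mul_of_nonneg_right hcR (by positivity)).trans hϖ
      rw [hXR] at h2
      have h3 : (1 : ℝ) + 2 * Z ≤ TT Z := by exact_mod_cast hTZ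
      linarith
    have h2 : (TT Z : ℝ) ^ (6 * ES Z * Z) * |ϖ| ^ d.e ≤ 1 := by
      refine le_of_mul_le_mul_left (a := (TT Z : ℝ)) ?_ (by linarith)
      rw [mul_one]
      refine le_trans ?_ h1
      rw [← mul_assoc, ← pow_succ']
      refine mul_le_mul_of_nonneg_right (pow_le_pow_right₀ hTr (by omega)) (by positivity)
    refine le_trans ?_ h2
    rw [mul_pow, mul_comm, ← pow_mul, ← pow_mul]
    refine mul_le_mul_of_nonneg_right (pow_le_pow_right₀ hTr ?_) (by positivity)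
    calc 6 * (E3 r d.s d.m M t w kp * d.e) ≤ 6 * (ES Z * Z) :=
          Nat.mul_le_mul_left _ (Nat.mul_le_mul hE hC.eZ)
      _ = 6 * ES Z * Z := by ring

end Pool.Agent.H85.SB
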