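import Pool.Agent.H85.SA.Def

/-! # [H85 SB K0] THE ALGORITHM FOR RADICALS (phase 3 of SpecialFields): the certificate of type 3

`U = 2t + 1` profiles `k < U`; the profile `k` prescribes jets of order `prf r t k j ≤ U` at the points over the `j`-th root of `q = b X^r - a`;
the sum over `j` is `r (t+1)`, and every order in `1..U` occurs exactly once for every `j` (`Prf.lean`). -/

namespace Pool.Agent.H85.SB

open Pool.Agent.H98.AL Pool.Agent.H85.SA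

/-- `b X^r - a` -/
noncomputable def rd (r a b : ℕ) : Polynomial ℤ :=
  Polynomial.C (b : ℤ) * Polynomial.X ^ r - Polynomial.C (a : ℤ)

/-- the order of the jets at the `j`-th root in the `k`-th profile, `k ≤ 2t` -/
def prf (r t k j : ℕ) : ℕ :=
  if r % 2 = 1 ∧ j < 3 then
    if j = 0 then k + 1
    else if j = 1 then (if k ≤ t then 2 * t - 2 * k + 1 else 4 * t + 2 - 2 * k)
    else (if k ≤ t then t + k + 1 else k - t)
  else if (j + r) % 2 = 0 then k + 1 else 2 * t + 1 - k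

/-- (c7): a number field in which `q` splits, and for every profile the jets over the roots `ρ_j/μ` are surjective -/
def JetsP (q : Polynomial ℤ) (t : ℕ) (d : Dt) : Prop :=
  ∃ (M : Polynomial ℤ) (μ ν : ℤ) (ro : ℕ → Polynomial ℤ) (Q : P2), 1 ≤ M.natDegree ∧ μ ≠ 0 ∧ ν ≠ 0 ∧
    MvPolynomial.C ν * (MvPolynomial.C q.leadingCoeff *
      (∏ j ∈ Finset.range q.natDegree, (MvPolynomial.C μ * MvPolynomial.X 0 - emT (ro j))) -
      MvPolynomial.C (μ ^ q.natDegree) * em q) = emT M * Q ∧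
    ∀ k < 2 * t + 1, ∀ j₀ < q.natDegree, ∀ i₁ < d.s, ∀ u₁ < prf q.natDegree t k j₀,
      ∃ (w : ℕ → Polynomial ℤ) (ν' : ℤ), ν' ≠ 0 ∧
        ∀ j < q.natDegree, ∀ i < d.s, ∀ u < prf q.natDegree t k j,
          ∃ (κ : ℤ) (R : Polynomial ℤ), κ ≠ 0 ∧
            Polynomial.C κ * ((∑ k' ∈ Finset.range d.m, w k' * hmu (d.b k' i u) d.l (ro j) μ) -
              if j = j₀ ∧ i = i₁ ∧ u = u₁ then Polynomial.C ν' else 0) = M * R

/-- the certificate without the numbers: pole order `M`, jets of order `2t+1`; `d.W` is only a bound for `2t+1` -/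
structure CerP (F : P2) (q : Polynomial ℤ) (M t Z : ℕ) (d : Dt) : Prop where
  Z2 : 2 ≤ Z
  cZ : d.c ≤ Z
  lc : MvPolynomial.coeff (Finsupp.single 1 (shf d.c F).totalDegree) (shf d.c F) ≠ 0
  dZ : (shf d.c F).totalDegree ≤ Z
  FZ : ∀ t, |MvPolynomial.coeff t (shf d.c F)| ≤ (Z : ℤ)
  e1 : 1 ≤ d.e
  eZ : d.e ≤ Z
  s1 : 1 ≤ d.s
  sZ : d.s ≤ Z
  MU : M ≤ 2 * t + 1
  UW : 2 * t + 1 ≤ d.W
  WZ : d.W ≤ Z
  mZ : d.m ≤ Z
  lZ : d.l ≤ Z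
  D0 : d.D ≠ 0
  DZ : Sz Z d.D
  qZ : Sz Z q
  -- (c1)
  eq1 : Eqv (shf d.c F) (MvPolynomial.X 0 * d.pi ^ d.e * d.v) (em d.D ^ (d.e + 1))
  bpi : Bd (shf d.c F) Z (em d.D) d.pi
  bv : Bd (shf d.c F) Z (em d.D) d.v
  bt : Bd (shf d.c F) Z (em d.D ^ d.e) (MvPolynomial.X 0 * d.pi ^ d.e)
  -- (c2)
  bg : Bd (shf d.c F) Z (em d.D) d.g
  beta : Bd (shf d.c F) Z (em d.D) d.eta
  eq2 : Eqv (shf d.c F) (hm q q.natDegree d.g (em d.D) * em d.D ^ (2 * t + 1 + 1))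
    (d.eta * d.pi ^ (2 * t + 1) * em d.D ^ q.natDegree)
  -- (c3)
  bz : ∀ i < d.s, Bd (shf d.c F) Z (em d.D) (d.z i)
  brho : ∀ k < d.m, Bd (shf d.c F) Z (em d.D) (d.rho k)
  -- (c4)
  blb : ∀ k < d.m, ∀ i < d.s, ∀ u < 2 * t + 1, (d.b k i u).natDegree ≤ d.l ∧ Sz Z (d.b k i u)
  eq4 : ∀ k < d.m, Eqv (shf d.c F) (d.pi ^ M * d.phi k * em d.D ^ (d.l + (2 * t + 1) - M))
    ((∑ i ∈ Finset.range d.s, ∑ u ∈ Finset.range (2 * t + 1),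
      hm (d.b k i u) d.l d.g (em d.D) * d.z i * d.pi ^ u * em d.D ^ (2 * t + 1 - u)) +
      d.rho k * d.pi ^ (2 * t + 1) * em d.D ^ d.l)
  -- (c5)
  ig : ∀ k < d.m, Ig (shf d.c F) Z (em d.D) (d.phi k)
  l0 : d.lam0 ≠ 0
  eq5 : Eqv (shf d.c F) (∑ k ∈ Finset.range d.m, MvPolynomial.C (d.lam k) * d.phi k)
    (MvPolynomial.C d.lam0 * em d.D)
  -- (c6)
  n0 : d.N0 ≠ 0
  UZ : Sz Z d.U
  VZ : Sz Z d.V
  eq6 : d.U * q + d.V * Polynomial.derivative q = Polynomial.C d.N0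
  -- (c7)
  jets : JetsP q t d

/-- (c8): the numbers, `U = 2t + 1` -/
structure NumR (a b r s M t w kp : ℕ) : Prop where
  ne : a ≠ b
  cl : 2 * |(a : ℤ) - b| ≤ b
  w1 : 1 ≤ w
  kw : s * (2 * t + 1) * (2 * t + 2) ≤ 2 * w * kp
  wM : w + M + 1 ≤ 2 * t + 1
  num : |(a : ℤ) - b| ^ (r * (2 * t + 1 - w - M - 1)) * ((max a b : ℕ) * 2 ^ (3 * r + kp * r ^ 2)) ^ (2 * t + 1 + w) ≤
    (b : ℤ) ^ (r * (2 * t + 1 - w - M - 1))

/-- the certificate of type 3, of size `Z` -/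
def CerS (F : P2) (Z : ℕ) : Prop :=
  ∃ (r a b M t w kp : ℕ) (d : Dt), 2 ≤ r ∧ r ≤ Z ∧ a ≤ Z ∧ b ≤ Z ∧ t ≤ Z ∧ kp ≤ Z ∧
    Irreducible (Polynomial.X ^ r - Polynomial.C ((a * b ^ (r - 1) : ℕ) : ℤ)) ∧ NumR a b r d.s M t w kp ∧
    CerP F (rd r a b) M t Z d

end Pool.Agent.H85.SB
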