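import Pool.Agent.H77.SF.Ind

/-! # [H85 SB IND] Independence with profiles

As `indep` (H77/SF/Ind) with a finite family of profiles `p k : J → ℕ` with weights `n k` instead of the partitions. The joint map of all `lam j i u`, `u < p k j`, is surjective for every `k`; `v u ≤ ∑_(k : u < p k j) n k` for all `j, u`.
Only `wr_main` changes: with `ρ = dim (range P)` and `rk j u = ρ - finrank (G j u)`, where `G j u` is the image of the common kernel of `lam j i u'`, `u' < u` (so `rk j 0 = 0`, `rk j` is monotone): the surjectivity for the profile `k`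
gives `∑_j rk j (p k j) ≤ ρ` (as `dim_count`), so `∑_k n k ∑_j rk j (p k j) ≤ ρ ∑ n k`, and by Abel summation `∑_u (v u - v (u+1)) rk j (u+1) = ∑_u v u (rk j (u+1) - rk j u) ≤ ∑_k n k rk j (p k j)`. The rest of the count is the same with
`∑_(u<M) (v u - v (u+1)) κ u` replaced by `∑ n k`. -/

namespace Pool.Agent.H85.SB

open Finset Polynomial Module Pool.Agent.H77.SF

/-- Abel summation against the profiles -/
private theorem abel {S : Type*} [Fintype S] (M ρ : ℕ) (v : ℕ → ℕ) (hv : Antitone v) (hvM : v M = 0)
    (n p : S → ℕ) (hpM : ∀ k, p k ≤ M) (hp : ∀ u, v u ≤ ∑ k, if u < p k then n k else 0)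
    (f : ℕ → ℕ) (hf : Antitone f) (hf0 : f 0 = ρ) :
    v 0 * ρ + ∑ k, n k * f (p k) ≤
      (∑ k, n k) * ρ + ∑ u ∈ range M, (v u - v (u + 1)) * f (u + 1) := by
  have hfle : ∀ u, f u ≤ ρ := fun u => by rw [← hf0]; exact hf (Nat.zero_le u)
  -- in the integers
  set V : ℕ → ℤ := fun u => (v u : ℤ) with hV
  set R : ℕ → ℤ := fun u => (ρ : ℤ) - f u with hR
  have hR0 : R 0 = 0 := by
    simp only [hR, hf0, sub_self]
  have hRm : ∀ u, 0 ≤ R (u + 1) - R u := by
    intro u
    have h1 := hf (Nat.le_succ u)
    have h2 : (f (u + 1) : ℤ) ≤ f u := by exact_mod_cast h1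
    simp only [hR]
    linarith
  have hid : ∀ m, ∑ u ∈ range m, (V u - V (u + 1)) * R (u + 1) =
      ∑ u ∈ range m, V u * (R (u + 1) - R u) - V m * R m := by
    intro m
    induction m with
    | zero => simp [hR0]
    | succ m ih =>
      rw [Finset.sum_range_succ, Finset.sum_range_succ, ih]
      ring
  have htel : ∀ m, ∑ u ∈ range m, (V u - V (u + 1)) = V 0 - V m := by
    intro m
    rw [Finset.sum_range_sub']
  have hVM : V M = 0 := by
    simp only [hV, hvM, Nat.cast_zero]
  have h1 : ∑ u ∈ range M, (V u - V (u + 1)) * R (u + 1) ≤ ∑ k, (n k : ℤ) * R (p k) := by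
    rw [hid M, hVM, zero_mul, sub_zero]
    calc ∑ u ∈ range M, V u * (R (u + 1) - R u)
        ≤ ∑ u ∈ range M, (∑ k, if u < p k then (n k : ℤ) else 0) * (R (u + 1) - R u) := by
          refine Finset.sum_le_sum fun u _ => mul_le_mul_of_nonneg_right ?_ (hRm u)
          have h2 := hp u
          have h3 : (v u : ℤ) ≤ ((∑ k, if u < p k then n k else 0 : ℕ) : ℤ) := by
            exact_mod_cast h2
          refine h3.trans (le_of_eq ?_)
          push_cast
          rfl
      _ = ∑ k, (n k : ℤ) * R (p k) := by
          simp only [Finset.sum_mul]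
          rw [Finset.sum_comm]
          refine Finset.sum_congr rfl fun k _ => ?_
          have h4 : ∀ u, (if u < p k then (n k : ℤ) else 0) * (R (u + 1) - R u) =
              if u < p k then (n k : ℤ) * (R (u + 1) - R u) else 0 := by
            intro u
            split_ifs
            · rfl
            · rw [zero_mul]
          simp only [h4]
          rw [← Finset.sum_filter]
          have h5 : (range M).filter (fun u => u < p k) = range (p k) := by
            ext u
            simp only [Finset.mem_filter, Finset.mem_range]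
            have := hpM k
            omega
          rw [h5, ← Finset.mul_sum, Finset.sum_range_sub, hR0, sub_zero]
  have h2 : ∑ u ∈ range M, (V u - V (u + 1)) * R (u + 1) =
      (V 0 : ℤ) * ρ - ∑ u ∈ range M, (V u - V (u + 1)) * f (u + 1) := by
    have h3 : ∀ u, (V u - V (u + 1)) * R (u + 1) =
        (V u - V (u + 1)) * ρ - (V u - V (u + 1)) * f (u + 1) := by
      intro u
      simp only [hR]
      ring
    simp only [h3]
    rw [Finset.sum_sub_distrib, ← Finset.sum_mul, htel M, hVM, sub_zero]
  have h3 : ∑ k, (n k : ℤ) * R (p k) = (∑ k, (n k : ℤ)) * ρ - ∑ k, (n k : ℤ) * f (p k) := by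
    rw [Finset.sum_mul, ← Finset.sum_sub_distrib]
    refine Finset.sum_congr rfl fun k _ => ?_
    simp only [hR]
    ring
  have h4 : ((∑ u ∈ range M, (v u - v (u + 1)) * f (u + 1) : ℕ) : ℤ) =
      ∑ u ∈ range M, (V u - V (u + 1)) * f (u + 1) := by
    push_cast
    refine Finset.sum_congr rfl fun u _ => ?_
    rw [Nat.cast_sub (hv (Nat.le_succ u))]
  zify
  zify at h4
  rw [h4]
  rw [h2, h3] at h1
  have h5 : V 0 = (v 0 : ℤ) := rfl
  rw [h5] at h1
  linarith

/-- `wr_main` of H77/SF/Ind with the count as one inequality -/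
private theorem wr_main2 {F J : Type*} [Field F] [CharZero F] [Fintype J]
    {β : Option J → F} (hβ : Function.Injective β) (B d M : ℕ) (v : ℕ → ℕ) (hv : Antitone v)
    (N : ℕ) (U : Submodule F F[X]) [FiniteDimensional F U] (hne : U ≠ ⊥)
    (G : J → ℕ → Submodule F U) (hG : ∀ j, Antitone (G j))
    (hGd : ∀ j, ∀ u < M, ∀ q ∈ G j u,
      (X - C (β (some j))) ^ (v 0 - v (u + 1)) ∣ (q : F[X]))
    (H : Submodule F U) (hH : finrank F U ≤ finrank F H + 1)
    (hHd : ∀ q ∈ H, (X - C (β none)) ^ B ∣ (q : F[X]))
    (hcoef : ∀ q ∈ U, ∀ i, Fintype.card J * v 0 + B ≤ i + d + 1 → q.coeff i = 0)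
    (hcount : v 0 * (Fintype.card J * finrank F U) ≤ N * finrank F U +
      ∑ j, ∑ u ∈ range M, (v u - v (u + 1)) * finrank F (G j u)) :
    d + 2 ≤ N + B + (Fintype.card J + 1) * (finrank F U - 1) := by
  classical
  set ρ := finrank F U with hρ
  have hρ1 : 1 ≤ ρ := Nat.one_le_iff_ne_zero.2 fun h => hne (Submodule.finrank_eq_zero.1 h)
  set bs := finBasis F U with hbs
  set f : Fin (finrank F U) → F[X] := fun b => (bs b : F[X]) with hf
  have hfi : LinearIndependent F f :=
    bs.linearIndependent.map' U.subtype (Submodule.ker_subtype _)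
  have hw : Pool.Agent.H8.EF.wron f ≠ 0 := Pool.Agent.H8.EF.wron_ne f hfi
  have hN : d + 2 ≤ Fintype.card J * v 0 + B := by
    by_contra hlt
    have h1 : f ⟨0, hρ1⟩ = 0 := by
      ext i
      rw [coeff_zero]
      exact hcoef _ (bs ⟨0, hρ1⟩).2 i (by omega)
    exact hfi.ne_zero _ h1
  have hdeg : ∀ b, (f b).natDegree ≤ Fintype.card J * v 0 + B - (d + 2) := by
    intro b
    rw [natDegree_le_iff_coeff_eq_zero]
    intro i hi
    exact hcoef _ (bs b).2 i (by omega)
  have hW := Pool.Agent.H8.EF.wron_natDegree f _ hdeg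
  choose k hk1 hk2 using fun j => ord_chain (β (some j)) U M v hv (G j) (hG j) (hGd j)
  obtain ⟨kc, hc1, hc2⟩ := ord_chain (β none) U 1 (fun u => if u = 0 then B else 0)
    (by
      intro u u' h
      show (if u' = 0 then B else 0) ≤ (if u = 0 then B else 0)
      by_cases h1 : u = 0
      · rw [if_pos h1]
        split_ifs
        · exact le_rfl
        · exact Nat.zero_le _
      · rw [if_neg h1, if_neg (by omega)]) (fun _ => H) (fun _ _ _ => le_rfl)
    (by
      intro u _ q hq
      refine dvd_trans (pow_dvd_pow _ ?_) (hHd q hq)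
      simp)
  simp only [Finset.sum_range_one, if_true, Nat.zero_add, one_ne_zero, if_false,
    Nat.sub_zero] at hc2
  -- the product
  set kk : Option J → ℕ := fun x => x.elim kc k with hkk
  have hprod : ∏ x, (X - C (β x)) ^ (kk x) ∣ Pool.Agent.H8.EF.wron f := by
    refine Finset.prod_dvd_of_coprime ?_ ?_
    · intro x _ y _ hxy
      have h1 : β x - β y ≠ 0 := sub_ne_zero.2 fun h => hxy (hβ h)
      exact (isCoprime_X_sub_C_of_isUnit_sub (isUnit_iff_ne_zero.2 h1)).pow
    · intro x _
      rcases x with _ | j
      · exact hc1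
      · exact hk1 j
  have hsum : kc + ∑ j, k j ≤ ρ * (Fintype.card J * v 0 + B - (d + 2)) := by
    have h1 := natDegree_le_of_dvd hprod hw
    have h2 : (∏ x, (X - C (β x)) ^ (kk x)).natDegree = ∑ x, kk x := by
      rw [natDegree_prod _ _ fun x _ => pow_ne_zero _ (X_sub_C_ne_zero _)]
      refine Finset.sum_congr rfl fun x _ => ?_
      rw [natDegree_pow, natDegree_X_sub_C, mul_one]
    rw [h2, Fintype.sum_option] at h1
    exact h1.trans hW
  -- the count
  have hA : v 0 * (Fintype.card J * ρ) ≤ N * ρ +
        (∑ j, k j + Fintype.card J * (ρ * (ρ - 1))) := by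
    refine hcount.trans (Nat.add_le_add_left ?_ _)
    calc ∑ j, ∑ u ∈ range M, (v u - v (u + 1)) * finrank F (G j u)
        ≤ ∑ j, (k j + ρ * (ρ - 1)) := Finset.sum_le_sum fun j _ => hk2 j
      _ = _ := by
          rw [Finset.sum_add_distrib, Finset.sum_const, Finset.card_univ, smul_eq_mul]
  obtain ⟨E, hE⟩ : ∃ E, Fintype.card J * v 0 + B = E + (d + 2) := ⟨_, (Nat.sub_add_cancel hN).symm⟩
  have hE' : Fintype.card J * v 0 + B - (d + 2) = E := by omega
  rw [hE'] at hsum
  obtain ⟨t, ht⟩ : ∃ t, ρ = t + 1 := ⟨ρ - 1, by omega⟩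
  have hB : B * t ≤ kc + ρ * (ρ - 1) := by
    refine le_trans (Nat.mul_le_mul_left _ ?_) hc2
    omega
  have ht1 : ρ - 1 = t := by omega
  rw [ht1] at hB hA ⊢
  rw [ht] at hB hA hsum
  generalize v 0 = n at *
  generalize Fintype.card J = r at *
  generalize ∑ j, k j = S at *
  have hfin : (t + 1) * (d + 2) ≤ (t + 1) * (N + B + (r + 1) * t) := by
    nlinarith [Nat.zero_le (t * B)]
  exact Nat.le_of_mul_le_mul_left hfin (Nat.succ_pos t)

theorem indepP {F V J I S : Type*} [Field F] [CharZero F] [AddCommGroup V] [Module F V]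
    [FiniteDimensional F V] [Fintype J] [Fintype I] [Fintype S] {α : J → F} (hα : Function.Injective α)
    {c : F} (hc : ∀ j, α j ≠ c) {M : ℕ} (hM : 1 ≤ M) (lam : J → I → ℕ → (V →ₗ[F] F))
    (n : S → ℕ) (p : S → J → ℕ) (hpM : ∀ k j, p k j ≤ M)
    (hJ : ∀ k, Function.Surjective (fun φ : V =>
      fun t : (Σ j : J, I × Fin (p k j)) => lam t.1 t.2.1 t.2.2 φ))
    {w : V →ₗ[F] F} (hw : w ≠ 0) {v : ℕ → ℕ} (hv : Antitone v) (hvM : v M = 0)
    (hp : ∀ j u, v u ≤ ∑ k, if u < p k j then n k else 0) (B d : ℕ)
    (hd : ∑ k, n k + B + (Fintype.card J + 1) * finrank F V ≤ d + 1)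
    (a : J → I → ℕ → ℕ → F) (a' : ℕ → F)
    (h : ∀ φ : V, ∀ l ≤ d, ∑ j, ∑ i, ∑ u ∈ range M, ∑ k ∈ range (v u),
        a j i u k * ((l.choose k : F) * (α j) ^ (l - k)) * lam j i u φ +
      ∑ b ∈ range B, a' b * ((l.choose b : F) * c ^ (l - b)) * w φ = 0) :
    (∀ j i, ∀ u < M, ∀ k < v u, a j i u k = 0) ∧ ∀ b < B, a' b = 0 := by
  classical
  have _ := hM
  have hvle : ∀ u, v u ≤ v 0 := fun u => hv (Nat.zero_le _)
  set β : Option J → F := fun x => x.elim c α with hβ
  have hβi : Function.Injective β := by
    intro x y hxy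
    rcases x with _ | x <;> rcases y with _ | y
    · rfl
    · exact absurd hxy.symm (hc y)
    · exact absurd hxy (hc x)
    · exact congrArg some (hα hxy)
  set nn : Option J → ℕ := fun x => x.elim B (fun _ => v 0) with hn
  set AA : Option J → ℕ → (V →ₗ[F] F) := fun x k => x.elim (a' k • w)
    (fun j => ∑ i, ∑ u ∈ range M, if k < v u then a j i u k • lam j i u else 0) with hAA
  have hAs : ∀ j k φ, AA (some j) k φ =
      ∑ i, ∑ u ∈ range M, if k < v u then a j i u k * lam j i u φ else 0 := by
    intro j k φ
    simp only [hAA, Option.elim_some, LinearMap.sum_apply]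
    refine Finset.sum_congr rfl fun i _ => Finset.sum_congr rfl fun u _ => ?_
    split_ifs
    · rw [LinearMap.smul_apply, smul_eq_mul]
    · rfl
  have hAn : ∀ k φ, AA none k φ = a' k * w φ := by
    intro k φ
    simp only [hAA, Option.elim_none, LinearMap.smul_apply, smul_eq_mul]
  set P : V →ₗ[F] F[X] :=
    ∑ x, ∑ k ∈ range (nn x), (AA x k).smulRight (tm β nn x k) with hP
  have hPa : ∀ φ, P φ = ∑ x, ∑ k ∈ range (nn x), C (AA x k φ) * tm β nn x k := by
    intro φ
    simp only [hP, LinearMap.sum_apply, LinearMap.smulRight_apply, Polynomial.smul_eq_C_mul]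
  have hrel : ∀ φ, ∀ l ≤ d, ∑ x, ∑ k ∈ range (nn x),
      AA x k φ * ((l.choose k : F) * (β x) ^ (l - k)) = 0 := by
    intro φ l hl
    rw [Fintype.sum_option, ← h φ l hl, add_comm]
    congr 1
    · refine Finset.sum_congr rfl fun j _ => ?_
      simp only [hn, hβ, Option.elim_some, hAs, Finset.sum_mul]
      rw [Finset.sum_comm]
      refine Finset.sum_congr rfl fun i _ => ?_
      rw [Finset.sum_comm]
      refine Finset.sum_congr rfl fun u hu => ?_
      have h1 : range (v u) = (range (v 0)).filter (fun k => k < v u) := by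
        ext k
        simp only [Finset.mem_range, Finset.mem_filter]
        have := hvle u
        omega
      rw [h1, Finset.sum_filter]
      refine Finset.sum_congr rfl fun k _ => ?_
      split_ifs
      · ring
      · rw [zero_mul]
    · simp only [hn, hβ, Option.elim_none, hAn]
      refine Finset.sum_congr rfl fun b _ => ?_
      ring
  have hnsum : ∑ x, nn x = Fintype.card J * v 0 + B := by
    rw [Fintype.sum_option]
    simp only [hn, Option.elim_none, Option.elim_some, Finset.sum_const, Finset.card_univ,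
      smul_eq_mul]
    ring
  -- the kernels
  set K : J → ℕ → Submodule F V := fun j u =>
    ⨅ i, ⨅ u' : ℕ, ⨅ (_ : u' < u), LinearMap.ker (lam j i u') with hK
  have hKm : ∀ j u φ, φ ∈ K j u ↔ ∀ i, ∀ u' < u, lam j i u' φ = 0 := by
    intro j u φ
    simp only [hK, Submodule.mem_iInf, LinearMap.mem_ker]
  have hKa : ∀ j, Antitone (K j) := by
    intro j u u' huu φ hφ
    rw [hKm] at hφ ⊢
    exact fun i t ht => hφ i t (ht.trans_le huu)
  have hP0 : ∀ φ, P φ = 0 := by
    by_contra hne
    have hUne : LinearMap.range P ≠ ⊥ := by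
      intro hb
      rw [LinearMap.range_eq_bot] at hb
      exact hne fun φ => by rw [hb]; rfl
    have hsur : Function.Surjective P.rangeRestrict := LinearMap.surjective_rangeRestrict P
    have hfr : finrank F (LinearMap.range P) ≤ finrank F V := LinearMap.finrank_range_le P
    have hfr1 : 1 ≤ finrank F (LinearMap.range P) :=
      Nat.one_le_iff_ne_zero.2 fun h => hUne (Submodule.finrank_eq_zero.1 h)
    set f : J → ℕ → ℕ := fun j u => finrank F ((K j u).map P.rangeRestrict) with hf
    have hfa : ∀ j, Antitone (f j) := fun j u u' huu =>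
      Submodule.finrank_mono (Submodule.map_mono (hKa j huu))
    have hf0 : ∀ j, f j 0 = finrank F (LinearMap.range P) := by
      intro j
      have h1 : K j 0 = ⊤ := by
        rw [eq_top_iff]
        intro φ _
        rw [hKm]
        intro i u' hu'
        exact absurd hu' (Nat.not_lt_zero _)
      simp only [hf]
      rw [h1, Submodule.map_top, LinearMap.range_eq_top.2 hsur, finrank_top]
    have hcnt : ∀ k, Fintype.card J * finrank F (LinearMap.range P) ≤
        finrank F (LinearMap.range P) + ∑ j, f j (p k j) := by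
      intro k
      have h1 := dim_count (K := F) (U := LinearMap.range P) (fun _ : J => True)
        (fun j => (K j (p k j)).map P.rangeRestrict) (by
          intro x
          choose φ hφ using fun j => hsur (x j)
          obtain ⟨ψ, hψ⟩ := hJ k fun t => lam t.1 t.2.1 t.2.2 (φ t.1)
          refine ⟨P.rangeRestrict ψ, fun j _ => ?_⟩
          rw [← hφ j, ← map_sub]
          refine Submodule.mem_map_of_mem ((hKm j _ _).2 fun i u' hu' => ?_)
          have h1 : lam j i u' ψ = lam j i u' (φ j) :=
            congrFun hψ ⟨j, i, ⟨u', hu'⟩⟩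
          rw [map_sub, h1, sub_self])
      simpa using h1
    have hcount : v 0 * (Fintype.card J * finrank F (LinearMap.range P)) ≤
        (∑ k, n k) * finrank F (LinearMap.range P) +
        ∑ j, ∑ u ∈ range M, (v u - v (u + 1)) * f j (u + 1) := by
      have h1 : ∀ j, v 0 * finrank F (LinearMap.range P) + ∑ k, n k * f j (p k j) ≤
          (∑ k, n k) * finrank F (LinearMap.range P) +
            ∑ u ∈ range M, (v u - v (u + 1)) * f j (u + 1) := fun j =>
        abel M _ v hv hvM n (fun k => p k j) (fun k => hpM k j) (hp j) (f j) (hfa j) (hf0 j)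
      have h2 := Finset.sum_le_sum fun j (_ : j ∈ (univ : Finset J)) => h1 j
      rw [Finset.sum_add_distrib, Finset.sum_add_distrib, Finset.sum_const, Finset.sum_const,
        Finset.card_univ, smul_eq_mul, smul_eq_mul, Finset.sum_comm] at h2
      have h3 : Fintype.card J * ((∑ k, n k) * finrank F (LinearMap.range P)) ≤
          (∑ k, n k) * finrank F (LinearMap.range P) + ∑ k, ∑ j, n k * f j (p k j) := by
        calc Fintype.card J * ((∑ k, n k) * finrank F (LinearMap.range P))
            = ∑ k, n k * (Fintype.card J * finrank F (LinearMap.range P)) := by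
              rw [← Finset.sum_mul]
              ring
          _ ≤ ∑ k, n k * (finrank F (LinearMap.range P) + ∑ j, f j (p k j)) :=
              Finset.sum_le_sum fun k _ => Nat.mul_le_mul_left _ (hcnt k)
          _ = _ := by
              simp only [mul_add, Finset.mul_sum]
              rw [Finset.sum_add_distrib, ← Finset.sum_mul]
      have h4 : v 0 * (Fintype.card J * finrank F (LinearMap.range P)) =
          Fintype.card J * (v 0 * finrank F (LinearMap.range P)) := by ring
      omega
    have key := wr_main2 hβi B d M v hv (∑ k, n k) (LinearMap.range P) hUne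
      (fun j u => (K j (u + 1)).map P.rangeRestrict)
      (by
        intro j u u' huu
        exact Submodule.map_mono (hKa j (Nat.succ_le_succ huu)))
      (by
        intro j u hu q hq
        obtain ⟨φ, hφ, rfl⟩ := (Submodule.mem_map).1 hq
        rw [hKm] at hφ
        show _ ∣ P φ
        rw [hPa φ]
        refine pf_dvd β nn (fun x k => AA x k φ) (some j) (v (u + 1)) ?_
        intro k hk1 hk2
        simp only [hAs]
        refine Finset.sum_eq_zero fun i _ => Finset.sum_eq_zero fun u' hu' => ?_
        split_ifs with hkv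
        · rcases Nat.lt_or_ge u u' with huu | huu
          · exfalso
            have h2 := hv (show u + 1 ≤ u' by omega)
            omega
          · rw [hφ i u' (Nat.lt_succ_of_le huu), mul_zero]
        · rfl)
      ((LinearMap.ker w).map P.rangeRestrict)
      (by
        obtain ⟨x0, hx0⟩ : ∃ x0, w x0 ≠ 0 := by
          by_contra hno
          push Not at hno
          exact hw (LinearMap.ext hno)
        have h1 : (⊤ : Submodule F V) = LinearMap.ker w ⊔ Submodule.span F {x0} := by
          refine (eq_top_iff.2 fun φ _ => ?_).symm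
          rw [Submodule.mem_sup]
          refine ⟨φ - (w φ / w x0) • x0, ?_, (w φ / w x0) • x0,
            Submodule.smul_mem _ _ (Submodule.mem_span_singleton_self _), sub_add_cancel _ _⟩
          rw [LinearMap.mem_ker, map_sub, map_smul, smul_eq_mul, div_mul_cancel₀ _ hx0, sub_self]
        have h2 : (⊤ : Submodule F (LinearMap.range P)) =
            (LinearMap.ker w).map P.rangeRestrict ⊔
              (Submodule.span F {x0}).map P.rangeRestrict := by
          rw [← Submodule.map_sup, ← h1, Submodule.map_top, LinearMap.range_eq_top.2 hsur]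
        calc finrank F (LinearMap.range P)
            = finrank F (⊤ : Submodule F (LinearMap.range P)) := (finrank_top _ _).symm
          _ ≤ finrank F ((LinearMap.ker w).map P.rangeRestrict) +
              finrank F ((Submodule.span F {x0}).map P.rangeRestrict) := by
              rw [h2]
              exact Submodule.finrank_add_le_finrank_add_finrank _ _
          _ ≤ finrank F ((LinearMap.ker w).map P.rangeRestrict) + 1 := by
              refine Nat.add_le_add_left ((Submodule.finrank_map_le _ _).trans ?_) _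
              exact (finrank_span_le_card ({x0} : Set V)).trans (by simp))
      (by
        intro q hq
        obtain ⟨φ, hφ, rfl⟩ := (Submodule.mem_map).1 hq
        rw [LinearMap.mem_ker] at hφ
        show _ ∣ P φ
        rw [hPa φ]
        have h1 := pf_dvd β nn (fun x k => AA x k φ) none 0 (by
          intro k _ _
          simp only [hAn]
          rw [hφ, mul_zero])
        exact h1)
      (by
        rintro q ⟨φ, rfl⟩ i hi
        rw [hPa φ]
        exact coeff_eq β nn (fun x k => AA x k φ) d (hrel φ) i (by rw [hnsum]; exact hi))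
      hcount
    have h5 : (Fintype.card J + 1) * (finrank F (LinearMap.range P) - 1) +
        (Fintype.card J + 1) ≤ (Fintype.card J + 1) * finrank F V := by
      calc _ = (Fintype.card J + 1) * (finrank F (LinearMap.range P) - 1 + 1) := by ring
        _ ≤ _ := Nat.mul_le_mul_left _ (by omega)
    omega
  have hA0 : ∀ x k φ, k < nn x → AA x k φ = 0 := fun x k φ hk =>
    pf_indep hβi nn (fun x k => AA x k φ) (by rw [← hPa φ]; exact hP0 φ) x k hk
  refine ⟨fun j i u hu k hk => ?_, fun b hb => ?_⟩
  · -- the last level with `k < v u`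
    obtain ⟨um, hum1, hum2⟩ : ∃ um, k < v um ∧ ∀ u', k < v u' → u' ≤ um := by
      have hlt : ∀ u', k < v u' → u' ≤ M := by
        intro u' h1
        by_contra h2
        have h3 := hv (show M ≤ u' by omega)
        omega
      refine ⟨Nat.findGreatest (fun u' => k < v u') M, ?_, ?_⟩
      · exact Nat.findGreatest_spec (P := fun u' => k < v u') (hlt u hk) hk
      · intro u' h1
        exact Nat.le_findGreatest (hlt u' h1) h1
    obtain ⟨kp, hkp⟩ : ∃ kp, um < p kp j := by
      by_contra hno
      push Not at hno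
      have h1 := hp j um
      rw [Finset.sum_eq_zero fun k' _ => if_neg (by have := hno k'; omega)] at h1
      omega
    obtain ⟨φ, hφ⟩ := hJ kp
      fun t => if t.1 = j ∧ t.2.1 = i ∧ (t.2.2 : ℕ) = u then 1 else 0
    have h1 := hA0 (some j) k φ (lt_of_lt_of_le hk (hvle u))
    rw [hAs] at h1
    have h2 : ∀ i', ∀ u' ≤ um, lam j i' u' φ = if i' = i ∧ u' = u then 1 else 0 := by
      intro i' u' hu'
      have h3 : lam j i' u' φ = if j = j ∧ i' = i ∧ u' = u then 1 else 0 :=
        congrFun hφ ⟨j, i', ⟨u', by omega⟩⟩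
      rw [h3]
      by_cases h4 : i' = i ∧ u' = u
      · rw [if_pos h4, if_pos ⟨rfl, h4.1, h4.2⟩]
      · rw [if_neg h4, if_neg fun h5 => h4 ⟨h5.2.1, h5.2.2⟩]
    rw [Finset.sum_eq_single i, Finset.sum_eq_single u, if_pos hk, h2 i u (hum2 u hk),
      if_pos ⟨rfl, rfl⟩, mul_one] at h1
    · exact h1
    · intro u' hu' hne
      by_cases hkv : k < v u'
      · rw [if_pos hkv, h2 i u' (hum2 u' hkv), if_neg fun h5 => hne h5.2, mul_zero]
      · rw [if_neg hkv]
    · intro hno
      exact absurd (mem_range.2 hu) hno
    · intro i' _ hne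
      refine Finset.sum_eq_zero fun u' hu' => ?_
      by_cases hkv : k < v u'
      · rw [if_pos hkv, h2 i' u' (hum2 u' hkv), if_neg fun h5 => hne h5.1, mul_zero]
      · rw [if_neg hkv]
    · intro hno
      exact absurd (mem_univ i) hno
  · obtain ⟨x0, hx0⟩ : ∃ x0, w x0 ≠ 0 := by
      by_contra hno
      push Not at hno
      exact hw (LinearMap.ext hno)
    have h1 := hA0 none b x0 hb
    rw [hAn] at h1
    exact (mul_eq_zero.1 h1).resolve_right hx0

end Pool.Agent.H85.SB
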