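import Pool.Agent.H85.SB.Dat
import Pool.Agent.H85.SB.Ind
import Pool.Agent.H77.SF.Kf
import Pool.Agent.H77.SF.Sie
import Pool.Agent.H77.SA.Dt2

/-! # [H85 SB AU1] The auxiliary function for radicals (as `hind_of2`, `cor1_2` in H77/SA/Dt2)

`K`, `θ` from `field_data` for the monic polynomial `X^r - a b^(r-1)` (`θ = b ξ`, `b (θ/b)^r = a` for all embeddings). `d + 1 = r (J + 1)`, unknowns `(k, n)`, `n ≤ d`, standing for the monomial `w_n X^n φ_k`, `w_n = b^(n/r) a^(J - n/r)`.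
At a root `ξ` of `b X^r - a`: `w_n ξ^n = a^J ξ^(n % r)`. So the condition `∑ y_(k,n) w_n (n choose x) ξ^(n-x) bb_(k,i,u)(ξ) = 0` is, up to the factor `a^J ξ^(-x)`, the condition
`∑ y_(k,n) (n choose x) ξ^(n % r) bb_(k,i,u)(ξ) = 0`, whose coefficients, times `b^(r+l)`, are algebraic integers of house `≤ 2^d A` (`ξ^i b^(r + l) bb(ξ) ∈ ℤ[θ]`, `i < r`, `|ξ| ≤ 2^(1/r) ≤ 2`).
Independence: `indepP` with `v u = q (2t+1-u)`, `2t+1` profiles of weight `q`, `B = q w`, gives the independence of the vectors without `w_n`; multiplying the coordinate `n` by `w_n ≠ 0` and the vectors by constants `≠ 0` keeps it.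
Siegel's lemma `siegel_emb`: `#C = s ∑_u v u = s q (2t+1)(2t+2)/2`, `B = q w`: `(4 N 2^d A)^(r #C) ≤ Y^(q w)` is implied by `(4 N 2^d A)^(r kp) ≤ Y`. -/

namespace Pool.Agent.H85.SB

open Finset Polynomial NumberField Pool.Agent.H77.SF

/-- homogenisation -/
private noncomputable def hmg (l b : ℕ) (g : ℤ[X]) : ℤ[X] :=
  ∑ j ∈ range (l + 1), C (g.coeff j * (b : ℤ) ^ (l - j)) * X ^ j

private theorem hmg_aeval {R : Type*} [Field R] {l b : ℕ} (hb : (b : R) ≠ 0) {g : ℤ[X]}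
    (hg : g.natDegree ≤ l) (x : R) :
    aeval x (hmg l b g) = (b : R) ^ l * aeval (x / b) g := by
  rw [Polynomial.aeval_eq_sum_range' (Nat.lt_succ_of_le hg), Finset.mul_sum]
  unfold hmg
  rw [map_sum]
  refine Finset.sum_congr rfl fun j hj => ?_
  have hjl : j ≤ l := Nat.le_of_lt_succ (mem_range.1 hj)
  rw [map_mul, aeval_C, map_pow, aeval_X]
  simp only [algebraMap_int_eq, eq_intCast, Int.cast_mul, Int.cast_pow, Int.cast_natCast,
    zsmul_eq_mul]
  have h1 : (b : R) ^ l = (b : R) ^ (l - j) * (b : R) ^ j := by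
    rw [← pow_add, Nat.sub_add_cancel hjl]
  rw [h1, div_pow]
  field_simp

private theorem w_pow {R : Type*} [Field R] {r a b J : ℕ} {ξ : R} (h : (b : R) * ξ ^ r = a)
    {n : ℕ} (hn : n / r ≤ J) :
    ((b : R) ^ (n / r) * (a : R) ^ (J - n / r)) * ξ ^ n = (a : R) ^ J * ξ ^ (n % r) := by
  have h1 : ξ ^ n = (ξ ^ r) ^ (n / r) * ξ ^ (n % r) := by
    rw [← pow_mul, ← pow_add, Nat.div_add_mod]
  have h2 : (b : R) ^ (n / r) * (ξ ^ r) ^ (n / r) = (a : R) ^ (n / r) := by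
    rw [← mul_pow, h]
  have h3 : (a : R) ^ J = (a : R) ^ (n / r) * (a : R) ^ (J - n / r) := by
    rw [← pow_add, Nat.add_sub_cancel' hn]
  rw [h1, h3, ← h2]
  ring

private theorem th_pow {R : Type*} [Field R] {r b n : ℕ} (hr : 1 ≤ r) (hb : (b : R) ≠ 0) (x : R) :
    x ^ (n % r) * (b : R) ^ (r - n % r) = (b : R) ^ r * (x / b) ^ (n % r) := by
  have h0 : n % r ≤ r := (Nat.mod_lt n hr).le
  have h1 : (b : R) ^ r = (b : R) ^ (r - n % r) * (b : R) ^ (n % r) := by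
    rw [← pow_add, Nat.sub_add_cancel h0]
  rw [h1, div_pow]
  field_simp

/-- the coefficient as an algebraic integer -/
private noncomputable def elt {K : Type} [Field K] (θ : 𝓞 K) (r l b : ℕ) (g : ℤ[X]) (n x : ℕ) : 𝓞 K :=
  ((n.choose x : ℕ) : 𝓞 K) * (θ ^ (n % r) * (b : 𝓞 K) ^ (r - n % r)) * aeval θ (hmg l b g)

private theorem elt_hom {K L : Type} [Field K] [NumberField K] [Field L] (σ : K →+* L) (θ : 𝓞 K)
    {r l b : ℕ} (hr : 1 ≤ r) (hb : (b : L) ≠ 0) {g : ℤ[X]} (hg : g.natDegree ≤ l) (n x : ℕ) :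
    σ (algebraMap (𝓞 K) K (elt θ r l b g n x)) = (b : L) ^ (r + l) *
      ((n.choose x : L) * (σ (algebraMap (𝓞 K) K θ) / b) ^ (n % r)) *
        aeval (σ (algebraMap (𝓞 K) K θ) / b) g := by
  unfold elt
  simp only [map_mul, map_natCast, map_pow, hom_aeval]
  rw [hmg_aeval hb hg, th_pow hr hb, pow_add]
  ring

private theorem xi_root {L : Type} [Field L] {r a b : ℕ} (hr : 1 ≤ r) (hb : (b : L) ≠ 0) {x : L}
    (hx : aeval x (X ^ r - C ((a * b ^ (r - 1) : ℕ) : ℤ) : ℤ[X]) = 0) :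
    (b : L) * (x / b) ^ r = a := by
  have h1 : x ^ r = (a : L) * (b : L) ^ (r - 1) := by
    have h2 : x ^ r - (a : L) * (b : L) ^ (r - 1) = 0 := by
      rw [← hx]
      simp
    exact sub_eq_zero.1 h2
  have h3 : (b : L) ^ r = (b : L) ^ (r - 1) * b := by
    rw [← pow_succ, Nat.sub_add_cancel hr]
  rw [div_pow, h1, h3]
  field_simp

private theorem root_xi {L : Type} [Field L] {r a b : ℕ} (hr : 1 ≤ r) {y : L}
    (hy : (b : L) * y ^ r = a) :
    aeval ((b : L) * y) (X ^ r - C ((a * b ^ (r - 1) : ℕ) : ℤ) : ℤ[X]) = 0 := by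
  have h3 : (b : L) ^ r = (b : L) ^ (r - 1) * b := by
    rw [← pow_succ, Nat.sub_add_cancel hr]
  have h1 : ((b : L) * y) ^ r = (a : L) * (b : L) ^ (r - 1) := by
    rw [mul_pow, h3, ← hy]
    ring
  rw [map_sub, map_pow, aeval_X, aeval_C, h1]
  simp

private theorem mon_p {r N : ℕ} (hr : 1 ≤ r) :
    (X ^ r - C ((N : ℕ) : ℤ) : ℤ[X]).Monic ∧ (X ^ r - C ((N : ℕ) : ℤ) : ℤ[X]).natDegree = r :=
  ⟨monic_X_pow_sub_C _ (by omega), natDegree_X_pow_sub_C⟩

/-- the independence for the number field -/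
private theorem hind_of3 {r s m M t l : ℕ} {A : ℝ} {a b : ℕ} {α : ℝ} {c : ℤ} {π : ℝ} {z : Fin s → ℝ}
    {bb : Fin m → Fin s → ℕ → ℤ[X]} {e : ℤ} {Yv : Fin m → ℤ}
    (h : Dat3 r s m M t l A a b α c π z bb e Yv) {q w J : ℕ}
    (hJ : q * (2 * t + 1) + q * w + (r + 1) * m ≤ r * (J + 1))
    {K : Type} [Field K] [NumberField K] {θ : 𝓞 K} (hfin : Module.finrank ℚ K = r)
    (hθ : aeval θ (X ^ r - C ((a * b ^ (r - 1) : ℕ) : ℤ) : ℤ[X]) = 0)
    (hinj : Function.Injective fun σ : K →+* ℂ => σ (algebraMap (𝓞 K) K θ)) :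
    LinearIndependent ℂ (Sum.elim
      (fun x : (Fin s × (Σ u : Fin (2 * t + 1), Fin (q * (2 * t + 1 - (u : ℕ))))) × (K →+* ℂ) =>
        fun T : Fin m × Fin (r * (J + 1)) =>
          x.2 (algebraMap (𝓞 K) K (elt θ r l b (bb T.1 x.1.1 (x.1.2.1 : ℕ)) (T.2 : ℕ)
            (x.1.2.2 : ℕ))))
      (fun b0 : Fin (q * w) => fun T : Fin m × Fin (r * (J + 1)) =>
        (((b : ℂ) ^ ((T.2 : ℕ) / r) * (a : ℂ) ^ (J - (T.2 : ℕ) / r)) *
          (((T.2 : ℕ).choose (b0 : ℕ) : ℂ) * (c : ℂ) ^ ((T.2 : ℕ) - (b0 : ℕ)))) * (Yv T.1 : ℂ))) := by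
  classical
  have hr2 := h.r2
  have hr1 : 1 ≤ r := by omega
  have hb0 : (b : ℂ) ≠ 0 := by
    have := h.b1
    exact_mod_cast (show b ≠ 0 by omega)
  have ha0 : (a : ℂ) ≠ 0 := by
    have := h.a1
    exact_mod_cast (show a ≠ 0 by omega)
  set p : ℤ[X] := X ^ r - C ((a * b ^ (r - 1) : ℕ) : ℤ) with hp
  have hmon : p.Monic := (mon_p hr1).1
  have hdeg : p.natDegree = r := (mon_p hr1).2
  set ξ : (K →+* ℂ) → ℂ := fun σ => σ (algebraMap (𝓞 K) K θ) / b with hξ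
  have hroot : ∀ σ : K →+* ℂ, aeval (σ (algebraMap (𝓞 K) K θ)) p = 0 := by
    intro σ
    have h1 := hom_aeval σ θ p
    rw [hθ, map_zero, map_zero] at h1
    exact h1.symm
  have hξr : ∀ σ, (b : ℂ) * ξ σ ^ r = a := fun σ => xi_root hr1 hb0 (hroot σ)
  have hξinj : Function.Injective ξ := by
    intro σ σ' hσ
    refine hinj ?_
    have h1 : σ (algebraMap (𝓞 K) K θ) / (b : ℂ) = σ' (algebraMap (𝓞 K) K θ) / (b : ℂ) := hσ
    exact (div_left_inj' hb0).1 h1
  have hξ0 : ∀ σ, ξ σ ≠ 0 := by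
    intro σ h0
    have h1 := hξr σ
    rw [h0, zero_pow (by omega), mul_zero] at h1
    exact ha0 h1.symm
  have hcard : Fintype.card (K →+* ℂ) = r := by rw [Embeddings.card, hfin]
  -- the enumeration
  obtain ⟨β', hβinj, hβroot, hβsur⟩ := h.sur
  have hex : ∀ σ, ∃ j, β' j = ξ σ := by
    have hpc : p.map (Int.castRingHom ℂ) ≠ 0 :=
      (Polynomial.map_ne_zero_iff (RingHom.injective_int _)).2 hmon.ne_zero
    have hmem : ∀ x : ℂ, aeval x p = 0 → x ∈ (p.map (Int.castRingHom ℂ)).roots.toFinset := by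
      intro x hx
      rw [Multiset.mem_toFinset, mem_roots hpc, IsRoot.def, eval_map, ← hx, aeval_def]
      rfl
    have h1 : (univ.image fun j => (b : ℂ) * β' j) ⊆ (p.map (Int.castRingHom ℂ)).roots.toFinset := by
      intro x hx
      obtain ⟨j, _, rfl⟩ := Finset.mem_image.1 hx
      exact hmem _ (root_xi hr1 (hβroot j))
    have h2 : (p.map (Int.castRingHom ℂ)).roots.toFinset.card ≤
        (univ.image fun j => (b : ℂ) * β' j).card := by
      rw [Finset.card_image_of_injective _ fun j j' hj => hβinj (mul_left_cancel₀ hb0 hj),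
        Finset.card_univ, Fintype.card_fin]
      refine (Multiset.toFinset_card_le _).trans ((Polynomial.card_roots' _).trans ?_)
      rw [Polynomial.natDegree_map_eq_of_injective (RingHom.injective_int _), hdeg]
    have h3 := Finset.eq_of_subset_of_card_le h1 h2
    intro σ
    have h4 := hmem _ (hroot σ)
    rw [← h3] at h4
    obtain ⟨j, _, hj⟩ := Finset.mem_image.1 h4
    refine ⟨j, ?_⟩
    show β' j = σ (algebraMap (𝓞 K) K θ) / b
    rw [← hj, mul_div_cancel_left₀ _ hb0]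
  choose en0 hen0 using hex
  have hen0i : Function.Injective en0 := by
    intro σ σ' hσ
    refine hξinj ?_
    rw [← hen0 σ, ← hen0 σ', hσ]
  have hen0b : Function.Bijective en0 :=
    (Fintype.bijective_iff_injective_and_card en0).2 ⟨hen0i, by rw [hcard, Fintype.card_fin]⟩
  set en : (K →+* ℂ) ≃ Fin r := Equiv.ofBijective en0 hen0b with hen
  have hβen : ∀ σ, β' (en σ) = ξ σ := hen0
  set lam : (K →+* ℂ) → Fin s → ℕ → ((Fin m → ℂ) →ₗ[ℂ] ℂ) := fun σ i u =>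
    ∑ k, (aeval (ξ σ) (bb k i u)) • LinearMap.proj k with hlam
  have hlama : ∀ σ i u φ, lam σ i u φ = ∑ k, aeval (ξ σ) (bb k i u) * φ k := by
    intro σ i u φ
    simp only [hlam, LinearMap.sum_apply, LinearMap.smul_apply, LinearMap.proj_apply, smul_eq_mul]
  set wv : (Fin m → ℂ) →ₗ[ℂ] ℂ := ∑ k, (Yv k : ℂ) • LinearMap.proj k with hw
  have hwa : ∀ φ, wv φ = ∑ k, (Yv k : ℂ) * φ k := by
    intro φ
    simp only [hw, LinearMap.sum_apply, LinearMap.smul_apply, LinearMap.proj_apply, smul_eq_mul]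
  have hw0 : wv ≠ 0 := by
    obtain ⟨k, hk⟩ := h.Y0
    intro h0
    have h1 : wv (Pi.single k 1) = 0 := by rw [h0]; rfl
    rw [hwa, Finset.sum_eq_single k] at h1
    · rw [Pi.single_eq_same, mul_one] at h1
      exact hk (by exact_mod_cast h1)
    · intro j _ hj
      rw [Pi.single_eq_of_ne hj, mul_zero]
    · intro hn
      exact absurd (mem_univ k) hn
  have hJs : ∀ k : Fin (2 * t + 1), Function.Surjective (fun φ : Fin m → ℂ =>
      fun T : (Σ σ : K →+* ℂ, Fin s × Fin (prf r t k (en σ))) => lam T.1 T.2.1 T.2.2 φ) := by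
    intro k T
    obtain ⟨v, hv⟩ := hβsur k k.2 (fun j i u' =>
      if hu' : u' < prf r t k (en (en.symm j)) then
        T ⟨en.symm j, i, ⟨u', hu'⟩⟩ else 0)
    refine ⟨v, ?_⟩
    funext T0
    obtain ⟨σ, i, u⟩ := T0
    have hu2 : (u : ℕ) < prf r t k (en σ) := u.2
    have h1 := hv (en σ) i u hu2
    have h2 : en.symm (en σ) = σ := Equiv.symm_apply_apply en σ
    rw [h2, dif_pos hu2, hβen] at h1
    show lam σ i u v = T ⟨σ, i, u⟩
    rw [hlama, ← show T ⟨σ, i, ⟨(u : ℕ), hu2⟩⟩ = T ⟨σ, i, u⟩ from rfl, ← h1]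
    exact Finset.sum_congr rfl fun k _ => mul_comm _ _
  -- c is not a root
  have hc : ∀ σ, ξ σ ≠ (c : ℂ) := by
    intro σ hσ
    have h1 : aeval (((b * c : ℤ)) : ℂ) p = 0 := by
      have h2 : (((b * c : ℤ)) : ℂ) = (b : ℂ) * ξ σ := by
        rw [hσ]
        push_cast
        rfl
      rw [h2]
      exact root_xi hr1 (hξr σ)
    have h2 : p.eval (b * c : ℤ) = 0 := by
      have h3 : aeval (((b * c : ℤ)) : ℂ) p = ((p.eval (b * c : ℤ) : ℤ) : ℂ) := by
        have := Polynomial.aeval_algebraMap_apply ℂ (b * c : ℤ) p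
        simpa using this
      rw [h3] at h1
      exact_mod_cast h1
    obtain ⟨g, hg⟩ := (Polynomial.dvd_iff_isRoot (p := p) (a := (b * c : ℤ))).2 h2
    rcases h.irr.isUnit_or_isUnit hg with hu | hu
    · exact Polynomial.not_isUnit_X_sub_C _ hu
    · have h4 : p.natDegree = 1 := by
        rw [hg, Polynomial.natDegree_mul (X_sub_C_ne_zero _) hu.ne_zero, natDegree_X_sub_C,
          Polynomial.natDegree_eq_zero_of_isUnit hu]
      omega
  rw [Fintype.linearIndependent_iff]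
  intro g hg
  set av : (K →+* ℂ) → Fin s → ℕ → ℕ → ℂ := fun σ i u x =>
    if hh : u < 2 * t + 1 ∧ x < q * (2 * t + 1 - u) then
      g (Sum.inl ((i, ⟨⟨u, hh.1⟩, ⟨x, hh.2⟩⟩), σ)) * ((b : ℂ) ^ (r + l) * ξ σ ^ x) else 0 with hav
  set av' : ℕ → ℂ := fun b0 => if hh : b0 < q * w then
    g (Sum.inr ⟨b0, hh⟩) * (a : ℂ) ^ J else 0 with hav'
  have hk : ∀ (k : Fin m) (n : ℕ), n < r * (J + 1) →
      ∑ σ, ∑ i, ∑ u ∈ range (2 * t + 1), ∑ x ∈ range (q * (2 * t + 1 - u)),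
        av σ i u x * ((n.choose x : ℂ) * ξ σ ^ (n - x)) * aeval (ξ σ) (bb k i u) +
      ∑ b0 ∈ range (q * w), av' b0 * ((n.choose b0 : ℂ) * (c : ℂ) ^ (n - b0)) * (Yv k : ℂ)
        = 0 := by
    intro k n hn
    have hnJ : n / r ≤ J := by
      have := (Nat.div_lt_iff_lt_mul (by omega : 0 < r)).2 (by rw [mul_comm]; exact hn : n < (J + 1) * r)
      omega
    have hwn : (b : ℂ) ^ (n / r) * (a : ℂ) ^ (J - n / r) ≠ 0 :=
      mul_ne_zero (pow_ne_zero _ hb0) (pow_ne_zero _ ha0)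
    have h1 := congrFun hg (k, ⟨n, hn⟩)
    simp only [Finset.sum_apply, Pi.smul_apply, smul_eq_mul, Pi.zero_apply, Fintype.sum_sum_type,
      Sum.elim_inl, Sum.elim_inr] at h1
    refine (mul_eq_zero.1 (?_ : ((b : ℂ) ^ (n / r) * (a : ℂ) ^ (J - n / r)) * _ = 0)).resolve_left hwn
    rw [← mul_zero ((a : ℂ) ^ J), ← h1, mul_add, mul_add]
    congr 1
    · rw [Fintype.sum_prod_type_right, Finset.mul_sum, Finset.mul_sum]
      refine Finset.sum_congr rfl fun σ _ => ?_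
      rw [Fintype.sum_prod_type, Finset.mul_sum, Finset.mul_sum]
      refine Finset.sum_congr rfl fun i _ => ?_
      rw [Finset.sum_range, Fintype.sum_sigma, Finset.mul_sum, Finset.mul_sum]
      refine Finset.sum_congr rfl fun u _ => ?_
      rw [Finset.sum_range, Finset.mul_sum, Finset.mul_sum]
      refine Finset.sum_congr rfl fun x _ => ?_
      simp only [hav, dif_pos (And.intro u.2 x.2), Fin.eta]
      rw [elt_hom σ θ hr1 hb0 (h.deg k i u u.2)]
      show _ = (a : ℂ) ^ J * (g (Sum.inl ((i, ⟨u, x⟩), σ)) *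
        ((b : ℂ) ^ (r + l) * ((n.choose (x : ℕ) : ℂ) * ξ σ ^ (n % r)) * aeval (ξ σ) (bb k i u)))
      rcases Nat.lt_or_ge n x with hnx | hnx
      · rw [Nat.choose_eq_zero_of_lt hnx]
        simp
      · have h3 : ξ σ ^ n = ξ σ ^ (x : ℕ) * ξ σ ^ (n - (x : ℕ)) := by
          rw [← pow_add, Nat.add_sub_cancel' hnx]
        have h4 := w_pow (J := J) (hξr σ) hnJ
        rw [h3] at h4
        linear_combination (g (Sum.inl ((i, ⟨u, x⟩), σ)) * (b : ℂ) ^ (r + l) *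
          (n.choose (x : ℕ) : ℂ) * aeval (ξ σ) (bb k i u)) * h4
    · rw [Finset.sum_range, Finset.mul_sum, Finset.mul_sum]
      refine Finset.sum_congr rfl fun b0 _ => ?_
      simp only [hav', dif_pos b0.2, Fin.eta]
      ring
  have hrJ : 1 ≤ r * (J + 1) := Nat.mul_pos hr1 (Nat.succ_pos _)
  have hind := indepP (α := ξ) hξinj (c := (c : ℂ)) hc (M := 2 * t + 1) (by omega) lam
    (fun _ : Fin (2 * t + 1) => q) (fun k σ => prf r t k (en σ)) (fun k σ => prf_le k.2) hJs hw0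
    (v := fun u => q * (2 * t + 1 - u))
    (fun u u' huu => Nat.mul_le_mul_left _ (Nat.sub_le_sub_left huu _)) (by simp)
    (by
      intro σ u
      rw [← Finset.sum_filter, Finset.sum_const, smul_eq_mul, mul_comm]
      exact Nat.mul_le_mul_right _ prf_cnt)
    (q * w) (r * (J + 1) - 1)
    (by
      rw [hcard, Module.finrank_fintype_fun_eq_card, Fintype.card_fin, Finset.sum_const,
        Finset.card_univ, Fintype.card_fin, smul_eq_mul, mul_comm (2 * t + 1) q]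
      omega) av av' (by
      intro φ n hn
      have h1 : ∑ k, φ k * (∑ σ, ∑ i, ∑ u ∈ range (2 * t + 1), ∑ x ∈ range (q * (2 * t + 1 - u)),
          av σ i u x * ((n.choose x : ℂ) * ξ σ ^ (n - x)) * aeval (ξ σ) (bb k i u) +
          ∑ b0 ∈ range (q * w), av' b0 * ((n.choose b0 : ℂ) * (c : ℂ) ^ (n - b0)) *
            (Yv k : ℂ)) = 0 :=
        Finset.sum_eq_zero fun k _ => by rw [hk k n (by omega), mul_zero]
      rw [← h1]
      simp only [mul_add, Finset.sum_add_distrib]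
      congr 1
      · simp only [hlama, Finset.mul_sum]
        symm
        rw [Finset.sum_comm]
        refine Finset.sum_congr rfl fun σ _ => ?_
        rw [Finset.sum_comm]
        refine Finset.sum_congr rfl fun i _ => ?_
        rw [Finset.sum_comm]
        refine Finset.sum_congr rfl fun u _ => ?_
        rw [Finset.sum_comm]
        refine Finset.sum_congr rfl fun x _ => Finset.sum_congr rfl fun k _ => ?_
        ring
      · simp only [hwa, Finset.mul_sum]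
        symm
        rw [Finset.sum_comm]
        refine Finset.sum_congr rfl fun b0 _ => Finset.sum_congr rfl fun k _ => ?_
        ring)
  rintro (⟨⟨i, ⟨u, x⟩⟩, σ⟩ | b0)
  · have h1 := hind.1 σ i u u.2 x x.2
    simp only [hav, dif_pos (And.intro u.2 x.2), Fin.eta] at h1
    exact (mul_eq_zero.1 h1).resolve_right
      (mul_ne_zero (pow_ne_zero _ hb0) (pow_ne_zero _ (hξ0 σ)))
  · have h1 := hind.2 b0 b0.2
    simp only [hav', dif_pos b0.2, Fin.eta] at h1
    exact (mul_eq_zero.1 h1).resolve_right (pow_ne_zero _ ha0)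

private theorem sum_tri (q n : ℕ) : 2 * ∑ u : Fin n, q * (n - (u : ℕ)) = q * n * (n + 1) := by
  induction n with
  | zero => simp
  | succ n ih =>
    rw [Fin.sum_univ_succ]
    have h1 : ∀ u : Fin n, q * (n + 1 - ((Fin.succ u : Fin (n + 1)) : ℕ)) =
        q * (n - (u : ℕ)) := by
      intro u
      rw [Fin.val_succ, Nat.add_sub_add_right]
    rw [Finset.sum_congr rfl fun u _ => h1 u, mul_add, ih]
    simp only [Fin.val_zero, Nat.sub_zero]
    ring

theorem cor1_3 {r s m M t l : ℕ} {A : ℝ} {a b : ℕ} {α : ℝ} {c : ℤ} {π : ℝ} {z : Fin s → ℝ}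
    {bb : Fin m → Fin s → ℕ → ℤ[X]} {e : ℤ} {Yv : Fin m → ℤ}
    (h : Dat3 r s m M t l A a b α c π z bb e Yv) {q w kp J Y : ℕ} (hq : 1 ≤ q) (hw : 1 ≤ w)
    (hkp : s * (2 * t + 1) * (2 * t + 2) ≤ 2 * w * kp)
    (hJ : q * (2 * t + 1) + q * w + (r + 1) * m ≤ r * (J + 1)) (hY1 : 1 ≤ Y)
    (hY : ((4 * ((r * (s * (q * (2 * t + 1) * (2 * t + 2))) + q * w : ℕ) : ℝ) * 2 ^ (r * (J + 1)) * A) ^ r) ^ kp ≤ (Y : ℝ)) :
    ∃ y : Fin m → ℕ → ℤ, (∀ k n, |y k n| ≤ Y) ∧
      (∀ i, ∀ u < 2 * t + 1, ∀ x < q * (2 * t + 1 - u), ∑ k, ∑ n ∈ range (r * (J + 1)),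
        ((y k n : ℝ) * ((b : ℝ) ^ (n / r) * (a : ℝ) ^ (J - n / r))) * ((n.choose x : ℝ) * α ^ (n - x)) *
          aeval α (bb k i u) = 0) ∧
      ∃ b0 < q * w, ∑ k, ∑ n ∈ range (r * (J + 1)),
        (y k n * ((b : ℤ) ^ (n / r) * (a : ℤ) ^ (J - n / r))) * ((n.choose b0 : ℤ) * c ^ (n - b0)) * Yv k ≠ 0 := by
  classical
  have hr2 := h.r2
  have hr1 : 1 ≤ r := by omega
  have hb1 := h.b1
  have ha1 := h.a1
  have hbC : (b : ℂ) ≠ 0 := by exact_mod_cast (show b ≠ 0 by omega)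
  have hbR : (b : ℝ) ≠ 0 := by exact_mod_cast (show b ≠ 0 by omega)
  have haR : (a : ℝ) ≠ 0 := by exact_mod_cast (show a ≠ 0 by omega)
  obtain ⟨K, _, _, θ, hfin0, hθ, hinj, hreal⟩ := field_data (mon_p hr1).1 h.irr
  have hfin : Module.finrank ℚ K = r := by rw [hfin0, (mon_p hr1).2]
  have hind := hind_of3 h hJ hfin hθ hinj
  set p : ℤ[X] := X ^ r - C ((a * b ^ (r - 1) : ℕ) : ℤ) with hp
  have hroot : ∀ σ : K →+* ℂ, aeval (σ (algebraMap (𝓞 K) K θ)) p = 0 := by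
    intro σ
    have h1 := hom_aeval σ θ p
    rw [hθ, map_zero, map_zero] at h1
    exact h1.symm
  have hξr : ∀ σ : K →+* ℂ, (b : ℂ) * (σ (algebraMap (𝓞 K) K θ) / b) ^ r = a :=
    fun σ => xi_root hr1 hbC (hroot σ)
  have hξ2 : ∀ σ : K →+* ℂ, ‖σ (algebraMap (𝓞 K) K θ) / (b : ℂ)‖ ≤ 2 := by
    intro σ
    by_contra hcon
    push Not at hcon
    have h1 := congrArg norm (hξr σ)
    rw [norm_mul, norm_pow, Complex.norm_natCast, Complex.norm_natCast] at h1
    have h2 : (2 : ℝ) ^ r ≤ ‖σ (algebraMap (𝓞 K) K θ) / (b : ℂ)‖ ^ r :=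
      pow_le_pow_left₀ (by norm_num) hcon.le r
    have h3 : (4 : ℝ) ≤ 2 ^ r := by
      calc (4 : ℝ) = 2 ^ 2 := by norm_num
        _ ≤ 2 ^ r := pow_le_pow_right₀ (by norm_num) hr2
    have h4 : (a : ℝ) ≤ 2 * b := by exact_mod_cast h.a2
    have h5 : (0 : ℝ) < b := by exact_mod_cast hb1
    nlinarith
  have hcardσ : Fintype.card (K →+* ℂ) = r := by rw [Embeddings.card, hfin]
  have hA1 : 1 ≤ A := by linarith [h.A2]
  set D := r * (J + 1) with hD
  set nC := Fintype.card (Fin s × (Σ u : Fin (2 * t + 1), Fin (q * (2 * t + 1 - (u : ℕ))))) with hnC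
  have hcardC : 2 * nC = s * (q * (2 * t + 1) * (2 * t + 2)) := by
    rw [hnC, Fintype.card_prod, Fintype.card_fin, Fintype.card_sigma]
    simp only [Fintype.card_fin]
    have h1 := sum_tri q (2 * t + 1)
    calc 2 * (s * ∑ u : Fin (2 * t + 1), q * (2 * t + 1 - (u : ℕ)))
        = s * (2 * ∑ u : Fin (2 * t + 1), q * (2 * t + 1 - (u : ℕ))) := by ring
      _ = _ := by rw [h1]
  have hcardC2 : nC ≤ kp * (q * w) := by
    have h1 := Nat.mul_le_mul_left q hkp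
    have h2 : q * (s * (2 * t + 1) * (2 * t + 2)) = 2 * nC := by
      rw [hcardC]
      ring
    have h3 : q * (2 * w * kp) = 2 * (kp * (q * w)) := by ring
    omega
  set N := r * (s * (q * (2 * t + 1) * (2 * t + 2))) + q * w with hN
  have hNle : Module.finrank ℚ K * nC + q * w ≤ N := by
    rw [hfin, hN]
    refine Nat.add_le_add_right (Nat.mul_le_mul_left _ ?_) _
    omega
  have hN1 : 1 ≤ Module.finrank ℚ K * nC + q * w := by
    have := Nat.mul_pos hq hw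
    omega
  obtain ⟨y0, hy1, hy2, b0, hb0⟩ := siegel_emb
    (fun (x : Fin s × (Σ u : Fin (2 * t + 1), Fin (q * (2 * t + 1 - (u : ℕ)))))
      (T : Fin m × Fin D) => elt θ r l b (bb T.1 x.1 (x.2.1 : ℕ)) (T.2 : ℕ) (x.2.2 : ℕ))
    (B := q * w) (Nat.mul_pos hq hw)
    (fun b0 T => (((b : ℂ) ^ ((T.2 : ℕ) / r) * (a : ℂ) ^ (J - (T.2 : ℕ) / r)) *
          (((T.2 : ℕ).choose (b0 : ℕ) : ℂ) * (c : ℂ) ^ ((T.2 : ℕ) - (b0 : ℕ)))) * (Yv T.1 : ℂ)) hind
    (fun _ => 2 ^ D * A)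
    (fun _ => one_le_mul_of_one_le_of_one_le (one_le_pow₀ (by norm_num)) hA1)
    (fun σ x T => by
      rw [elt_hom σ θ hr1 hbC (h.deg T.1 x.1 x.2.1 x.2.1.2)]
      simp only [norm_mul, norm_pow, Complex.norm_natCast]
      have h1 : ((T.2 : ℕ).choose (x.2.2 : ℕ) : ℝ) ≤ 2 ^ D := by
        have h3 : (T.2 : ℕ).choose (x.2.2 : ℕ) ≤ 2 ^ D :=
          (Nat.choose_le_two_pow _ _).trans (Nat.pow_le_pow_right (by norm_num) T.2.2.le)
        exact_mod_cast h3
      have h2 : ‖σ (algebraMap (𝓞 K) K θ) / (b : ℂ)‖ ^ ((T.2 : ℕ) % r) ≤ 2 ^ r :=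
        (pow_le_pow_left₀ (norm_nonneg _) (hξ2 σ) _).trans
          (pow_le_pow_right₀ (by norm_num) (Nat.mod_lt _ hr1).le)
      have h3 := h.bA T.1 x.1 x.2.1 x.2.1.2 _ (hξr σ)
      calc (b : ℝ) ^ (r + l) * (((T.2 : ℕ).choose (x.2.2 : ℕ) : ℝ) *
            ‖σ (algebraMap (𝓞 K) K θ) / (b : ℂ)‖ ^ ((T.2 : ℕ) % r)) *
            ‖aeval (σ (algebraMap (𝓞 K) K θ) / (b : ℂ)) (bb T.1 x.1 (x.2.1 : ℕ))‖
          ≤ (b : ℝ) ^ (r + l) * (2 ^ D * 2 ^ r) *
            ‖aeval (σ (algebraMap (𝓞 K) K θ) / (b : ℂ)) (bb T.1 x.1 (x.2.1 : ℕ))‖ := by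
            refine mul_le_mul_of_nonneg_right (mul_le_mul_of_nonneg_left
              (mul_le_mul h1 h2 (by positivity) (by positivity)) (by positivity)) (norm_nonneg _)
        _ = 2 ^ D * ((b : ℝ) ^ (r + l) * 2 ^ r *
            ‖aeval (σ (algebraMap (𝓞 K) K θ) / (b : ℂ)) (bb T.1 x.1 (x.2.1 : ℕ))‖) := by ring
        _ ≤ 2 ^ D * A := mul_le_mul_of_nonneg_left h3 (by positivity))
    hY1 (by
      rw [← hnC, Finset.prod_const, Finset.card_univ, hcardσ]
      have hX1 : (1 : ℝ) ≤ 4 * ((Module.finrank ℚ K * nC + q * w : ℕ) : ℝ) * (2 ^ D * A) := by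
        have h1 : (1 : ℝ) ≤ ((Module.finrank ℚ K * nC + q * w : ℕ) : ℝ) := by exact_mod_cast hN1
        have h2 : (1 : ℝ) ≤ 2 ^ D * A :=
          one_le_mul_of_one_le_of_one_le (one_le_pow₀ (by norm_num)) hA1
        nlinarith
      have hXN : 4 * ((Module.finrank ℚ K * nC + q * w : ℕ) : ℝ) * (2 ^ D * A) ≤
          4 * (N : ℝ) * 2 ^ D * A := by
        have h1 : ((Module.finrank ℚ K * nC + q * w : ℕ) : ℝ) ≤ (N : ℝ) := by exact_mod_cast hNle
        have h2 : (0 : ℝ) ≤ 2 ^ D * A := by positivity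
        nlinarith
      have hX0 : (0 : ℝ) ≤ 4 * ((Module.finrank ℚ K * nC + q * w : ℕ) : ℝ) * (2 ^ D * A) := by
        linarith
      calc ((4 * ((Module.finrank ℚ K * nC + q * w : ℕ) : ℝ) * (2 ^ D * A)) ^ r) ^ nC
          ≤ ((4 * ((Module.finrank ℚ K * nC + q * w : ℕ) : ℝ) * (2 ^ D * A)) ^ r) ^ (kp * (q * w)) :=
            pow_le_pow_right₀ (one_le_pow₀ hX1) hcardC2
        _ ≤ ((4 * (N : ℝ) * 2 ^ D * A) ^ r) ^ (kp * (q * w)) :=
            pow_le_pow_left₀ (pow_nonneg hX0 _) (pow_le_pow_left₀ hX0 hXN _) _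
        _ = (((4 * (N : ℝ) * 2 ^ D * A) ^ r) ^ kp) ^ (q * w) := by rw [pow_mul]
        _ ≤ (Y : ℝ) ^ (q * w) := by
            refine pow_le_pow_left₀ ?_ hY _
            have : (0 : ℝ) ≤ 4 * (N : ℝ) * 2 ^ D * A := by positivity
            positivity)
  refine ⟨fun k n => if hn : n < D then y0 (k, ⟨n, hn⟩) else 0, ?_, ?_, b0, b0.2, ?_⟩
  · intro k n
    by_cases hn : n < D
    · simp only [dif_pos hn]
      exact hy1 _
    · simp only [dif_neg hn, abs_zero]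
      positivity
  · intro i u hu x hx
    have hα0 : α ≠ 0 := by
      intro h0
      have h1 := h.root
      rw [h0, zero_pow (by omega), mul_zero] at h1
      exact haR h1.symm
    obtain ⟨φ, hφ⟩ := hreal ((b : ℝ) * α) (root_xi hr1 h.root)
    have hdiv : (b : ℝ) * α / b = α := mul_div_cancel_left₀ _ hbR
    have h1 := congrArg (fun x => φ (algebraMap (𝓞 K) K x)) (hy2 (i, ⟨⟨u, hu⟩, ⟨x, hx⟩⟩))
    simp only [map_sum, map_mul, map_zero, map_intCast] at h1
    have h2 : ∀ T : Fin m × Fin D, φ (algebraMap (𝓞 K) K (elt θ r l b (bb T.1 i u) (T.2 : ℕ) x)) =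
        (b : ℝ) ^ (r + l) * (((T.2 : ℕ).choose x : ℝ) * α ^ ((T.2 : ℕ) % r)) *
          aeval α (bb T.1 i u) := by
      intro T
      rw [elt_hom φ θ hr1 hbR (h.deg T.1 i u hu), hφ, hdiv]
    simp only [h2] at h1
    rw [Fintype.sum_prod_type] at h1
    have hne : (b : ℝ) ^ (r + l) * α ^ x ≠ 0 :=
      mul_ne_zero (pow_ne_zero _ hbR) (pow_ne_zero _ hα0)
    refine (mul_eq_zero.1 (?_ : (b : ℝ) ^ (r + l) * α ^ x * _ = 0)).resolve_left hne
    rw [← mul_zero ((a : ℝ) ^ J), ← h1, Finset.mul_sum, Finset.mul_sum]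
    refine Finset.sum_congr rfl fun k _ => ?_
    rw [Finset.sum_range, Finset.mul_sum, Finset.mul_sum]
    refine Finset.sum_congr rfl fun n _ => ?_
    simp only [dif_pos n.2, Fin.eta]
    have hnJ : (n : ℕ) / r ≤ J := by
      have := (Nat.div_lt_iff_lt_mul (by omega : 0 < r)).2
        (by rw [mul_comm]; exact n.2 : (n : ℕ) < (J + 1) * r)
      omega
    rcases Nat.lt_or_ge (n : ℕ) x with hnx | hnx
    · rw [Nat.choose_eq_zero_of_lt hnx]
      simp
    · have h3 : α ^ (n : ℕ) = α ^ x * α ^ ((n : ℕ) - x) := by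
        rw [← pow_add, Nat.add_sub_cancel' hnx]
      have h4 := w_pow (J := J) h.root hnJ
      rw [h3] at h4
      linear_combination ((b : ℝ) ^ (r + l) * (y0 (k, n) : ℝ) * ((n : ℕ).choose x : ℝ) *
        aeval α (bb k i u)) * h4
  · intro h0
    refine hb0 ?_
    have h1 := congrArg (fun x : ℤ => (x : ℂ)) h0
    simp only [Int.cast_sum, Int.cast_mul, Int.cast_natCast, Int.cast_pow, Int.cast_zero] at h1
    rw [Fintype.sum_prod_type]
    refine Eq.trans (Finset.sum_congr rfl fun k _ => ?_) h1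
    rw [Finset.sum_range]
    refine Finset.sum_congr rfl fun n _ => ?_
    simp only [dif_pos n.2, Fin.eta]
    ring

end Pool.Agent.H85.SB
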