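import Pool.Agent.H85.SB.Def

/-! # [H85 SB PRF] The profiles

`r` even: the roots are paired, `(k+1, 2t+1-k)`: sum `2t + 2`. `r` odd: the first three have `(k+1, 2t-2k+1, t+k+1)` (`k ≤ t`), `(k+1, 4t+2-2k, k-t)` (`k > t`), sum `3t+3`, the others are paired.
For every `j` the map `k ↦ prf r t k j` is a permutation of `1..2t+1`. -/

namespace Pool.Agent.H85.SB

theorem prf_le {r t k j : ℕ} (hk : k < 2 * t + 1) : prf r t k j ≤ 2 * t + 1 := by
  unfold prf
  split_ifs <;> omega

private theorem sum_pairs (g : ℕ → ℕ) (c s : ℕ) (h : ∀ i, g (c + 2 * i) + g (c + (2 * i + 1)) = s) (m : ℕ) :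
    ∑ j ∈ Finset.range (2 * m), g (c + j) = m * s := by
  induction m with
  | zero => simp
  | succ m ih =>
    rw [show 2 * (m + 1) = 2 * m + 1 + 1 by ring, Finset.sum_range_succ, Finset.sum_range_succ, ih, add_assoc, h m]
    ring

theorem prf_sum {r t k : ℕ} (hr : 2 ≤ r) (hk : k < 2 * t + 1) : ∑ j : Fin r, prf r t k j = r * (t + 1) := by
  rw [Fin.sum_univ_eq_sum_range (fun j => prf r t k j) r]
  rcases Nat.even_or_odd' r with ⟨m, hm | hm⟩
  · have h1 := sum_pairs (fun j => prf r t k j) 0 (2 * t + 2) (fun i => by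
      simp only [prf]
      split_ifs <;> omega) m
    simp only [zero_add] at h1
    rw [show Finset.range r = Finset.range (2 * m) by rw [hm], h1, hm]
    ring
  · obtain ⟨n, rfl⟩ : ∃ n, m = n + 1 := ⟨m - 1, by omega⟩
    have h1 := sum_pairs (fun j => prf r t k j) 3 (2 * t + 2) (fun i => by
      simp only [prf]
      split_ifs <;> omega) n
    rw [show Finset.range r = Finset.range (3 + 2 * n) by rw [hm]; congr 1; ring, Finset.sum_range_add, h1]
    have h2 : ∑ j ∈ Finset.range 3, prf r t k j = 3 * t + 3 := by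
      have e0 : prf r t k 0 = k + 1 := by
        unfold prf
        rw [if_pos ⟨by omega, by norm_num⟩, if_pos rfl]
      have e1 : prf r t k 1 = if k ≤ t then 2 * t - 2 * k + 1 else 4 * t + 2 - 2 * k := by
        unfold prf
        rw [if_pos ⟨by omega, by norm_num⟩, if_neg one_ne_zero, if_pos rfl]
      have e2 : prf r t k 2 = if k ≤ t then t + k + 1 else k - t := by
        unfold prf
        rw [if_pos ⟨by omega, by norm_num⟩, if_neg two_ne_zero, if_neg (by norm_num)]
      rw [Finset.sum_range_succ, Finset.sum_range_succ, Finset.sum_range_one, e0, e1, e2]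
      split_ifs <;> omega
    rw [h2, hm]
    ring

private theorem prf_surj {r t j v : ℕ} (h1 : 1 ≤ v) (h2 : v ≤ 2 * t + 1) : ∃ k < 2 * t + 1, prf r t k j = v := by
  unfold prf
  by_cases hA : r % 2 = 1 ∧ j < 3
  · simp only [if_pos hA]
    by_cases h0 : j = 0
    · simp only [if_pos h0]
      exact ⟨v - 1, by omega, by omega⟩
    · simp only [if_neg h0]
      by_cases h3 : j = 1
      · simp only [if_pos h3]
        by_cases hv : v % 2 = 1
        · refine ⟨(2 * t + 1 - v) / 2, by omega, ?_⟩
          rw [if_pos (by omega)]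
          omega
        · refine ⟨(4 * t + 2 - v) / 2, by omega, ?_⟩
          rw [if_neg (by omega)]
          omega
      · simp only [if_neg h3]
        by_cases hv : t + 1 ≤ v
        · refine ⟨v - t - 1, by omega, ?_⟩
          rw [if_pos (by omega)]
          omega
        · refine ⟨v + t, by omega, ?_⟩
          rw [if_neg (by omega)]
          omega
  · simp only [if_neg hA]
    by_cases hB : (j + r) % 2 = 0
    · simp only [if_pos hB]
      exact ⟨v - 1, by omega, by omega⟩
    · simp only [if_neg hB]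
      exact ⟨2 * t + 1 - v, by omega, by omega⟩

theorem prf_cnt {r t j u : ℕ} : 2 * t + 1 - u ≤ ((Finset.univ : Finset (Fin (2 * t + 1))).filter fun k : Fin (2 * t + 1) => u < prf r t (k : ℕ) j).card := by
  classical
  have h1 : Finset.Ioc u (2 * t + 1) ⊆ ((Finset.univ : Finset (Fin (2 * t + 1))).filter
      fun k : Fin (2 * t + 1) => u < prf r t (k : ℕ) j).image (fun k : Fin (2 * t + 1) => prf r t (k : ℕ) j) := by
    intro v hv
    rw [Finset.mem_Ioc] at hv
    obtain ⟨k, hk, e⟩ := prf_surj (r := r) (t := t) (j := j) (v := v) (by omega) hv.2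
    rw [Finset.mem_image]
    refine ⟨⟨k, hk⟩, ?_, e⟩
    rw [Finset.mem_filter]
    refine ⟨Finset.mem_univ _, ?_⟩
    show u < prf r t k j
    rw [e]
    exact hv.1
  calc 2 * t + 1 - u = (Finset.Ioc u (2 * t + 1)).card := (Nat.card_Ioc u (2 * t + 1)).symm
    _ ≤ _ := Finset.card_le_card h1
    _ ≤ _ := Finset.card_image_le

end Pool.Agent.H85.SB
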