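import Pool.Agent.H85.SB.Jel
import Pool.Agent.H85.SB.Prf
import Pool.Agent.H96.SA.C7

/-! # [H85 SB C7] The condition `JetsP` (as `jets_of`, `c7`, H96/SA/C7; `q` not monic) -/

set_option autoImplicit false

namespace Pool.Agent.H85.SB

open Pool.Agent.H98.AL Pool.Agent.H85.SA

section c7p

open Polynomial Pool.Agent.H96.SA

/-- `ℤ[T][X] → ℤ[t, y]`, `X ↦ t`, `T ↦ y` -/
private noncomputable def psi : ℤ[X][X] →+* P2 :=
  eval₂RingHom (aeval (MvPolynomial.X 1 : P2) : ℤ[X] →ₐ[ℤ] P2).toRingHom (MvPolynomial.X 0)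

private theorem psi_X : psi X = MvPolynomial.X 0 := by
  simp [psi]

private theorem psi_C (s : ℤ[X]) : psi (C s) = emT s := by
  simp [psi, emT]

private theorem psi_CC (a : ℤ) : psi (C (C a)) = MvPolynomial.C a := by
  rw [psi_C, emT, aeval_C, MvPolynomial.algebraMap_eq]

private theorem psi_em (q : ℤ[X]) : psi (q.map C) = Pool.Agent.H85.SA.em q := by
  rw [Pool.Agent.H85.SA.em, psi, coe_eval₂RingHom, eval₂_map, aeval_def]
  congr 1
  exact RingHom.ext_int _ _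

variable {K : Type} [Field K] [Algebra ℚ K]

omit [Algebra ℚ K] in
private theorem split_dvd {θ : K} {M : ℤ[X]} (hM : ∀ h : ℤ[X], aeval θ h = 0 → ∃ (κ : ℤ) (R : ℤ[X]), κ ≠ 0 ∧ C κ * h = M * R)
    (H : ℤ[X][X]) (hH : ∀ i, aeval θ (H.coeff i) = 0) :
    ∃ (ν : ℤ) (Q : ℤ[X][X]), ν ≠ 0 ∧ C (C ν) * H = C M * Q := by
  classical
  choose κ R hκ hR using fun i => hM _ (hH i)
  refine ⟨∏ i ∈ Finset.range (H.natDegree + 1), κ i, ∑ i ∈ Finset.range (H.natDegree + 1),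
    C (C (∏ j ∈ (Finset.range (H.natDegree + 1)).erase i, κ j) * R i) * X ^ i,
    Finset.prod_ne_zero_iff.2 fun i _ => hκ i, ?_⟩
  have hHs := H.as_sum_range_C_mul_X_pow
  obtain ⟨n, hn⟩ : ∃ n, n = H.natDegree + 1 := ⟨_, rfl⟩
  rw [← hn] at hHs ⊢
  rw [hHs, Finset.mul_sum, Finset.mul_sum]
  refine Finset.sum_congr rfl fun i hi => ?_
  rw [← mul_assoc, ← C_mul, ← mul_assoc, ← C_mul]
  congr 2
  rw [← Finset.mul_prod_erase _ _ hi, C_mul, mul_assoc, mul_left_comm, mul_left_comm M, ← hR i]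

omit [Algebra ℚ K] in
private theorem aeval_hmu {θ α : K} {μ : ℤ} {a : ℤ[X]} (ha : aeval θ a = (μ : K) * α) {b : ℤ[X]} {l : ℕ} (hl : b.natDegree ≤ l) :
    aeval θ (hmu b l a μ) = (μ : K) ^ l * aeval α b := by
  rw [hmu, map_sum, aeval_eq_sum_range' (Nat.lt_succ_of_le hl), Finset.mul_sum]
  refine Finset.sum_congr rfl fun h hh => ?_
  have h1 : h ≤ l := Nat.lt_succ_iff.1 (Finset.mem_range.1 hh)
  rw [map_mul, aeval_C, map_pow, ha, zsmul_eq_mul]
  simp only [algebraMap_int_eq, eq_intCast, Int.cast_mul, Int.cast_pow]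
  rw [mul_pow]
  calc (b.coeff h : K) * (μ : K) ^ (l - h) * ((μ : K) ^ h * α ^ h)
      = (b.coeff h : K) * ((μ : K) ^ (l - h) * (μ : K) ^ h) * α ^ h := by ring
    _ = (μ : K) ^ l * ((b.coeff h : K) * α ^ h) := by rw [← pow_add, Nat.sub_add_cancel h1]; ring

/-- an injective enumeration of the roots -/
private theorem enum {P : ℚ[X]} (hi : Irreducible P) [IsAlgClosed K] :
    ∃ al : Fin P.natDegree → K, Function.Injective al ∧ (∀ j, aeval (al j) P = 0) ∧
      C (algebraMap ℚ K P.leadingCoeff) * ∏ j, (X - C (al j)) = P.map (algebraMap ℚ K) := by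
  classical
  have hsep : P.Separable := hi.separable
  have hsplit : (P.map (algebraMap ℚ K)).Splits := IsAlgClosed.splits _
  have hcard : Multiset.card (P.map (algebraMap ℚ K)).roots = P.natDegree := by
    rw [← hsplit.natDegree_eq_card_roots, natDegree_map]
  have hP0 : P.map (algebraMap ℚ K) ≠ 0 := Polynomial.map_ne_zero hi.ne_zero
  have hnd : (P.map (algebraMap ℚ K)).roots.Nodup := nodup_roots hsep.map
  have hc2 : ((P.map (algebraMap ℚ K)).roots.toFinset).card = P.natDegree := by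
    rw [Multiset.toFinset_card_of_nodup hnd, hcard]
  let e := Finset.equivFinOfCardEq hc2
  refine ⟨fun j => (e.symm j : K), fun a b hab => e.symm.injective (Subtype.ext hab), fun j => ?_, ?_⟩
  · have h1 := (e.symm j).2
    rw [Multiset.mem_toFinset, mem_roots hP0, IsRoot.def, eval_map_algebraMap] at h1
    exact h1
  · have h1 : ∏ j : Fin P.natDegree, (X - C ((e.symm j : K))) =
        ∏ a : (P.map (algebraMap ℚ K)).roots.toFinset, (X - C (a : K)) :=
      Equiv.prod_comp e.symm (fun a : (P.map (algebraMap ℚ K)).roots.toFinset => (X - C (a : K)))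
    rw [h1, Finset.prod_coe_sort ((P.map (algebraMap ℚ K)).roots.toFinset) (fun a : K => X - C a)]
    have h2 := C_leadingCoeff_mul_prod_multiset_X_sub_C (p := P.map (algebraMap ℚ K)) (by
      rw [hcard, natDegree_map])
    conv_rhs => rw [← h2]
    rw [Finset.prod_eq_multiset_prod, Multiset.toFinset_val, hnd.dedup, leadingCoeff_map]

private theorem c7p [IsAlgClosed K] [Algebra.IsAlgebraic ℚ K] {q : ℤ[X]} (hi : Irreducible (q.map (Int.castRingHom ℚ)))
    (hr2 : 2 ≤ q.natDegree) {s m t cap : ℕ} (hcap : s * (q.natDegree * (t + 1)) ≤ cap) (b : Fin m → Fin s → Fin (2 * t + 1) → ℤ[X])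
    (hS : SjP (q.map (Int.castRingHom ℚ)) cap (fun k i u => (b k i u).map (Int.castRingHom ℚ)) K)
    (d : Dt) (hs : d.s = s) (hmm : d.m = m)
    (hb : ∀ (k : Fin m) (i : Fin s) (u : Fin (2 * t + 1)), d.b k i u = b k i u)
    (hl : ∀ (k : Fin m) (i : Fin s) (u : Fin (2 * t + 1)), (b k i u).natDegree ≤ d.l) : JetsP q t d := by
  classical
  subst hs hmm
  obtain ⟨P, hP⟩ : ∃ P, P = q.map (Int.castRingHom ℚ) := ⟨_, rfl⟩
  have hPi : Irreducible P := by rw [hP]; exact hi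
  have hr : P.natDegree = q.natDegree := by
    rw [hP]
    exact natDegree_map_eq_of_injective (RingHom.injective_int (Int.castRingHom ℚ)) q
  have hlc : algebraMap ℚ K P.leadingCoeff = (q.leadingCoeff : K) := by
    rw [hP, leadingCoeff_map_of_injective (RingHom.injective_int (Int.castRingHom ℚ))]
    simp
  obtain ⟨al, hali, hal0, halp⟩ := enum (K := K) hPi
  rw [hlc] at halp
  rw [← hP] at hS
  -- the solutions
  have hw : ∀ (a : Fin (2 * t + 1)) (j₀ : Fin P.natDegree) (i₁ : Fin d.s) (u₁ : Fin (2 * t + 1)), ∃ w : Fin d.m → K,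
      ∀ (j : Fin P.natDegree) (i : Fin d.s) (u : Fin (2 * t + 1)), (u : ℕ) < prf P.natDegree t a j →
        ∑ l, w l * aeval (al j) (b l i u) = if j = j₀ ∧ i = i₁ ∧ u = u₁ then 1 else 0 := by
    intro a j₀ i₁ u₁
    obtain ⟨w, hw⟩ := hS al hali hal0 (fun j => prf P.natDegree t a j) (fun j => prf_le a.2) (by
      rw [prf_sum (by rw [hr]; exact hr2) a.2, hr]
      exact hcap) (fun j i u => if j = j₀ ∧ i = i₁ ∧ u = u₁ then 1 else 0)
    refine ⟨w, fun j i u hu => ?_⟩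
    rw [← hw j i u hu]
    refine Finset.sum_congr rfl fun l _ => ?_
    rw [aeval_map_int]
  choose w hw using hw
  obtain ⟨θ, μ, f, hμ, hf⟩ := prim (K := K)
    (ι := Fin P.natDegree ⊕ (Fin (2 * t + 1) × Fin P.natDegree × Fin d.s × Fin (2 * t + 1) × Fin d.m))
    (Sum.elim al fun t => w t.1 t.2.1 t.2.2.1 t.2.2.2.1 t.2.2.2.2)
  have hθ : IsIntegral ℚ θ := Algebra.IsIntegral.isIntegral θ
  obtain ⟨M, hM1, hM⟩ := vanish_dvd hθ
  obtain ⟨ro, hro⟩ : ∃ ro : ℕ → ℤ[X], ∀ j : Fin P.natDegree, ro j = f (Sum.inl j) :=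
    ⟨fun j => if h : j < P.natDegree then f (Sum.inl ⟨j, h⟩) else 0, fun j => by simp⟩
  have hroθ : ∀ j : Fin P.natDegree, aeval θ (ro j) = (μ : K) * al j := fun j => by
    rw [hro j, hf]
    rfl
  -- the product
  have hprod : ∀ i, aeval θ ((C (C q.leadingCoeff) * ∏ j ∈ Finset.range q.natDegree, (C (C μ) * X - C (ro j)) -
      C (C (μ ^ q.natDegree)) * q.map C).coeff i) = 0 := by
    intro i
    obtain ⟨H, hH⟩ : ∃ H : ℤ[X][X], H = C (C q.leadingCoeff) * ∏ j ∈ Finset.range q.natDegree, (C (C μ) * X - C (ro j)) -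
      C (C (μ ^ q.natDegree)) * q.map C := ⟨_, rfl⟩
    have h1 : H.map (aeval θ : ℤ[X] →ₐ[ℤ] K).toRingHom = 0 := by
      have hC : ∀ z : ℤ, (aeval θ : ℤ[X] →ₐ[ℤ] K).toRingHom (C z) = (z : K) := fun z => by
        show aeval θ (C z) = _
        rw [aeval_C]
        simp
      have hqm : (q.map C).map (aeval θ : ℤ[X] →ₐ[ℤ] K).toRingHom =
          P.map (algebraMap ℚ (K)) := by
        rw [hP, Polynomial.map_map, Polynomial.map_map]
        congr 1
        exact RingHom.ext_int _ _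
      rw [hH, Polynomial.map_sub, Polynomial.map_mul, Polynomial.map_mul, hqm, map_C, map_C, hC, hC, ← halp, ← hr]
      rw [Polynomial.map_prod, Finset.prod_range]
      have h2 : ∀ j : Fin P.natDegree, (C (C μ) * X - C (ro j)).map (aeval θ : ℤ[X] →ₐ[ℤ] K).toRingHom =
          C (μ : K) * (X - C (al j)) := by
        intro j
        rw [Polynomial.map_sub, Polynomial.map_mul, map_C, hC, map_X, map_C]
        have h3 : (aeval θ : ℤ[X] →ₐ[ℤ] K).toRingHom (ro j) = (μ : K) * al j := hroθ j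
        rw [h3, C_mul, mul_sub]
      rw [Finset.prod_congr rfl fun j _ => h2 j, Finset.prod_mul_distrib, Finset.prod_const, Finset.card_univ, Fintype.card_fin,
        Int.cast_pow, C_pow]
      ring
    rw [← hH]
    have h4 := congrArg (fun p => p.coeff i) h1
    rw [coeff_map, coeff_zero] at h4
    exact h4
  obtain ⟨ν, Q, hν, hQ⟩ := split_dvd hM _ hprod
  refine ⟨M, μ, ν, ro, psi Q, hM1, hμ, hν, ?_, ?_⟩
  · have h1 := congrArg psi hQ
    rw [map_mul, map_mul, map_sub, map_mul, map_mul, map_prod, psi_CC, psi_CC, psi_CC, psi_em, psi_C] at h1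
    rw [← h1]
    congr 3
    refine Finset.prod_congr rfl fun j _ => ?_
    rw [map_sub, map_mul, psi_CC, psi_X, psi_C]
  · intro k hk j₀ hj₀ i₁ hi₁ u₁ hu₁
    rw [← hr] at hj₀ hu₁ ⊢
    have hu2 : u₁ < 2 * t + 1 := lt_of_lt_of_le hu₁ (prf_le hk)
    refine ⟨fun k' => if h : k' < d.m then f (Sum.inr (⟨k, hk⟩, ⟨j₀, hj₀⟩, ⟨i₁, hi₁⟩, ⟨u₁, hu2⟩, ⟨k', h⟩)) else 0,
      μ ^ (d.l + 1), pow_ne_zero _ hμ, ?_⟩
    intro j hj i hi' u hu
    have hu3 : u < 2 * t + 1 := lt_of_lt_of_le hu (prf_le hk)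
    apply hM
    have hsum : aeval θ (∑ k' ∈ Finset.range d.m, (if h : k' < d.m then
        f (Sum.inr (⟨k, hk⟩, ⟨j₀, hj₀⟩, ⟨i₁, hi₁⟩, ⟨u₁, hu2⟩, ⟨k', h⟩)) else 0) * hmu (d.b k' i u) d.l (ro j) μ) =
        ((μ ^ (d.l + 1) : ℤ) : K) * if j = j₀ ∧ i = i₁ ∧ u = u₁ then 1 else 0 := by
      rw [map_sum, Finset.sum_range]
      have h5 := hw ⟨k, hk⟩ ⟨j₀, hj₀⟩ ⟨i₁, hi₁⟩ ⟨u₁, hu2⟩ ⟨j, hj⟩ ⟨i, hi'⟩ ⟨u, hu3⟩ hu
      simp only [Fin.mk.injEq] at h5
      rw [← h5, Finset.mul_sum]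
      refine Finset.sum_congr rfl fun l _ => ?_
      have h7 : d.b l i u = b l ⟨i, hi'⟩ ⟨u, hu3⟩ := hb l ⟨i, hi'⟩ ⟨u, hu3⟩
      have h8 := hl l ⟨i, hi'⟩ ⟨u, hu3⟩
      rw [← h7] at h8
      rw [map_mul, dif_pos l.2, hf, aeval_hmu (hroθ ⟨j, hj⟩) h8, ← h7]
      simp only [Sum.elim_inr, Fin.eta, Int.cast_pow]
      ring
    rw [map_sub, hsum]
    split_ifs with hc
    · rw [aeval_C]
      simp
    · simp

end c7p

theorem jets_ofP {q : Polynomial ℤ} (hi : Irreducible (q.map (Int.castRingHom ℚ))) (hr : 2 ≤ q.natDegree)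
    {s m t cap : ℕ} (hcap : s * (q.natDegree * (t + 1)) ≤ cap) (b : Fin m → Fin s → Fin (2 * t + 1) → Polynomial ℤ)
    (hS : SjP (q.map (Int.castRingHom ℚ)) cap (fun k i u => (b k i u).map (Int.castRingHom ℚ)) (AlgebraicClosure ℚ))
    (d : Dt) (hds : d.s = s) (hdm : d.m = m)
    (hb : ∀ (k : Fin m) (i : Fin s) (u : Fin (2 * t + 1)), d.b k i u = b k i u)
    (hl : ∀ (k : Fin m) (i : Fin s) (u : Fin (2 * t + 1)), (b k i u).natDegree ≤ d.l) : JetsP q t d := by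
  have halg : Algebra.IsAlgebraic ℚ (AlgebraicClosure ℚ) := AlgebraicClosure.isAlgebraic ℚ
  exact c7p (K := AlgebraicClosure ℚ) hi hr hcap b hS d hds hdm hb hl

end Pool.Agent.H85.SB
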