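import Pool.Agent.H85.SB.Jel
import Pool.Agent.H46.SF2.Jex

/-! # [H85 SB JEX] Integral coefficients and the function `N` (copy of `jex`, H46/SF2/Jex) -/

set_option autoImplicit false

namespace Pool.Agent.H85.SB

open Pool.Agent.H85.SF Pool.Agent.H90.SF Pool.Agent.H82.NS Pool.Agent.H12.ON Pool.Agent.H12.OG IntermediateField

private theorem aev_int {L : Type} [Field L] [CharZero L] (g : L) (b : Polynomial ℤ) :
    Polynomial.aeval g (b.map (Int.castRingHom ℚ)) = Polynomial.aeval g b := by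
  rw [← algebraMap_int_eq, Polynomial.aeval_map_algebraMap]

theorem jexP {L : Type} [Field L] [CharZero L] {t : L} {O : ValuationSubring L} {q : Polynomial ℤ} {g π : L}
    {s γ : ℕ} {z : Fin s → L} (h : Pt ℚ t O (q.map (Int.castRingHom ℚ)) g π s γ z)
    (hr : 1 ≤ (q.map (Int.castRingHom ℚ)).natDegree) {M U cap : ℕ}
    (hm0 : 2 * γ / ((q.map (Int.castRingHom ℚ)).natDegree * s) + 1 ≤ M)
    (hcap : cap + γ ≤ (q.map (Int.castRingHom ℚ)).natDegree * s *
      (M - (2 * γ / ((q.map (Int.castRingHom ℚ)).natDegree * s) + 1))) :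
    ∃ (m : ℕ) (N : ℤ) (φ : Fin (m + 1) → L) (g' : L) (b : Fin (m + 1) → Fin s → Fin U → Polynomial ℤ),
      N ≠ 0 ∧ (∀ k, IsInt ℚ t (φ k)) ∧ φ (Fin.last m) = (N : L) ∧ g' ∈ O ∧
      Polynomial.aeval g' (q.map (Int.castRingHom ℚ)) / π ^ U ∈ O ∧
      (∀ k, (π ^ M * φ k - ∑ i, ∑ u : Fin U, Polynomial.aeval g' (b k i u) * z i * π ^ (u : ℕ)) /
        π ^ U ∈ O) ∧
      SjP (q.map (Int.castRingHom ℚ)) cap (fun k i u => (b k i u).map (Int.castRingHom ℚ)) (AlgebraicClosure ℚ) := by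
  obtain ⟨m, φ, g', b, hb, hS⟩ := jetsP h hr (M := M) (U := U) (cap := cap) hm0 hcap
  have hbase : ∀ c : ℚ, algebraMap ℚ L c ∈ O := h.inf.base
  have hg : g ∈ O := Pool.Agent.H12.GN.gO hbase h.irr h.Pg
  have hπ : π ∈ O := O.nonunits_subset h.πm
  have hsp := Pool.Agent.H12.GN.spc hbase h.zO hg hb.gO hb.gm h.zs
  obtain ⟨B1, r1, hr1, hB1⟩ := Pool.Agent.H12.GN.exd h.π0 h.unf hsp U
    (a := π ^ M * 1) (O.mul_mem _ _ (O.toSubring.pow_mem hπ _) O.one_mem)
  obtain ⟨φ', hφ'⟩ : ∃ φ' : Fin (m + 1) → L, φ' = Fin.snoc (α := fun _ => L) φ 1 := ⟨_, rfl⟩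
  obtain ⟨b', hb'⟩ : ∃ b' : Fin (m + 1) → Fin s → Fin U → Polynomial ℚ,
      b' = Fin.snoc (α := fun _ => Fin s → Fin U → Polynomial ℚ) b (fun i u => B1 i u) := ⟨_, rfl⟩
  obtain ⟨N, c, hN, hc⟩ := Pool.Agent.H46.SF2.clear_fin (fun v : Fin (m + 1) × Fin s × Fin U => b' v.1 v.2.1 v.2.2)
  have hint : ∀ k, IsInt ℚ t (φ' k) := by
    intro k
    refine Fin.lastCases ?_ (fun k => ?_) k
    · rw [hφ', Fin.snoc_last]
      exact isIntegral_one
    · rw [hφ', Fin.snoc_castSucc]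
      exact hb.int k
  have hexp : ∀ k, (π ^ M * φ' k - ∑ i, ∑ u : Fin U, Polynomial.aeval g' (b' k i u) * z i * π ^ (u : ℕ)) /
        π ^ U ∈ O := by
    intro k
    refine Fin.lastCases ?_ (fun k => ?_) k
    · rw [hφ', Fin.snoc_last, hb', Fin.snoc_last]
      have h1 : ∑ i, ∑ u : Fin U, Polynomial.aeval g' (B1 i u) * z i * π ^ (u : ℕ) =
          ∑ i, ∑ u ∈ Finset.range U, Polynomial.aeval g' (B1 i u) * z i * π ^ u :=
        Finset.sum_congr rfl fun i _ =>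
          (Finset.sum_range fun u => Polynomial.aeval g' (B1 i u) * z i * π ^ u).symm
      rw [h1, hB1, add_sub_cancel_left, mul_div_cancel_right₀ _ (pow_ne_zero _ h.π0)]
      exact hr1
    · rw [hφ', Fin.snoc_castSucc, hb', Fin.snoc_castSucc]
      exact hb.exp k
  have hNO : (N : L) ∈ O := by
    have h1 := hbase (N : ℚ)
    rwa [map_intCast] at h1
  have hbc : ∀ k i u, (c (k, i, u)).map (Int.castRingHom ℚ) = Polynomial.C (N : ℚ) * b' k i u :=
    fun k i u => hc (k, i, u)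
  have hN0 : (N : ℚ) ≠ 0 := by exact_mod_cast hN
  refine ⟨m, N, fun k => N * φ' k, g', fun k i u => c (k, i, u), hN, fun k => ?_, ?_, hb.gO, hb.Pg, fun k => ?_, ?_⟩
  · have h1 : IsInt ℚ t ((N : ℤ) : L) := by
      have h2 : ((N : ℤ) : L) = algebraMap (Algebra.adjoin ℚ {t}) L (N : Algebra.adjoin ℚ {t}) := by simp
      show IsIntegral (Algebra.adjoin ℚ {t}) ((N : ℤ) : L)
      rw [h2]
      exact isIntegral_algebraMap
    exact IsIntegral.mul h1 (hint k)
  · show (N : L) * φ' (Fin.last m) = N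
    rw [hφ', Fin.snoc_last, mul_one]
  · have h1 : (π ^ M * (N * φ' k) - ∑ i, ∑ u : Fin U, Polynomial.aeval g' (c (k, i, u)) * z i * π ^ (u : ℕ)) /
        π ^ U = N * ((π ^ M * φ' k - ∑ i, ∑ u : Fin U,
          Polynomial.aeval g' (b' k i u) * z i * π ^ (u : ℕ)) / π ^ U) := by
      have h2 : ∀ i (u : Fin U), Polynomial.aeval g' (c (k, i, u)) * z i * π ^ (u : ℕ) =
          N * (Polynomial.aeval g' (b' k i u) * z i * π ^ (u : ℕ)) := by
        intro i u
        rw [← aev_int, hbc, map_mul, Polynomial.aeval_C, map_intCast]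
        ring
      simp only [h2]
      simp only [← Finset.mul_sum]
      ring
    rw [h1]
    exact O.mul_mem _ _ hNO (hexp k)
  · intro al hal hroot p hpU hp d
    have halg : Algebra.IsAlgebraic ℚ (AlgebraicClosure ℚ) := AlgebraicClosure.isAlgebraic ℚ
    obtain ⟨w, hw⟩ := hS (AlgebraicClosure ℚ) al hal hroot p hpU hp d
    have hNa : algebraMap ℚ (AlgebraicClosure ℚ) (N : ℚ) ≠ 0 := by
      rw [Ne, map_eq_zero]
      exact hN0
    refine ⟨Fin.snoc (α := fun _ => AlgebraicClosure ℚ) (fun l => (algebraMap ℚ (AlgebraicClosure ℚ) (N : ℚ))⁻¹ * w l) 0,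
      fun j i u hu => ?_⟩
    rw [Fin.sum_univ_castSucc, Fin.snoc_last, zero_mul, add_zero, ← hw j i u hu]
    refine Finset.sum_congr rfl fun l _ => ?_
    show _ * Polynomial.aeval (al j) ((c (l.castSucc, i, u)).map (Int.castRingHom ℚ)) = _
    rw [Fin.snoc_castSucc, hbc, hb', Fin.snoc_castSucc, map_mul, Polynomial.aeval_C]
    field_simp

end Pool.Agent.H85.SB
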