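import Pool.Agent.H85.SB.C7
import Pool.Agent.H85.SB.Jex
import Pool.Agent.H46.SF2.Cex

/-! # [H85 SB CEX] The certificate `CerP` exists (copy of `cer_ex`, H46/SF2/Cex) -/

set_option autoImplicit false

namespace Pool.Agent.H85.SB

open Pool.Agent.H98.AL Pool.Agent.H46.SF Pool.Agent.H46.SF2 Pool.Agent.H85.SA Pool.Agent.H85.SF Pool.Agent.H90.SF Pool.Agent.H82.NS
  Pool.Agent.H12.ON Pool.Agent.H12.OG Pool.Agent.H12.SF2 IntermediateField Filter

private theorem vl_fs {L : Type} [Field L] {ι : Type} (s : Finset ι) (f : ι → P2) (t y : L) :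
    vl (∑ i ∈ s, f i) t y = ∑ i ∈ s, vl (f i) t y := by
  classical
  induction s using Finset.induction_on with
  | empty => rw [Finset.sum_empty, Finset.sum_empty, vl_zero]
  | insert a s ha ih => rw [Finset.sum_insert ha, Finset.sum_insert ha, vl_add, ih]

theorem cer_exP {F : P2} {q : Polynomial ℤ} {c : ℕ}
    (hlc : MvPolynomial.coeff (Finsupp.single 1 (shf c F).totalDegree) (shf c F) ≠ 0)
    {L : Type} [Field L] [CharZero L] {x y : L} (hF : Fld (shf c F) x y) {O : ValuationSubring L} {g π : L}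
    {e s γ : ℕ} {z : Fin s → L} (h0 : Pt0 ℚ x O (q.map (Int.castRingHom ℚ)) g π e s z)
    (h : Pt ℚ x O (q.map (Int.castRingHom ℚ)) g π s γ z) (hr : 2 ≤ q.natDegree) {M t : ℕ} (hMt : M ≤ 2 * t + 1)
    (hm0 : 2 * γ / (q.natDegree * s) + 1 ≤ M)
    (hcap : s * (q.natDegree * (t + 1)) + γ ≤ q.natDegree * s * (M - (2 * γ / (q.natDegree * s) + 1))) (N : ℕ) :
    ∃ (Z : ℕ) (d : Dt), N ≤ Z ∧ d.s = s ∧ CerP F q M t Z d := by
  classical
  have hdq : (q.map (Int.castRingHom ℚ)).natDegree = q.natDegree :=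
    Polynomial.natDegree_map_eq_of_injective Int.cast_injective q
  obtain ⟨m, N1, φ, g', b, hN, hφ, hφl, hg', hPg, hexp, hS⟩ := jexP h (by rw [hdq]; omega) (M := M) (U := 2 * t + 1)
    (cap := s * (q.natDegree * (t + 1))) (by rw [hdq]; exact hm0) (by rw [hdq]; exact hcap)
  obtain ⟨U, V, N0, hN0, hUV⟩ := bez h0.irr
  -- the functions
  have hπO : π ∈ O := O.nonunits_subset h.πm
  have ht0 : x ≠ 0 := by
    intro h1
    exact h0.inf.pole (by rw [h1]; exact O.zero_mem)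
  obtain ⟨ρ, hρ⟩ : ∃ ρ : Fin (m + 1) → L, ∀ k, ρ k = (π ^ M * φ k -
    ∑ i, ∑ u : Fin (2 * t + 1), Polynomial.aeval g' (b k i u) * z i * π ^ (u : ℕ)) / π ^ (2 * t + 1) := ⟨_, fun _ => rfl⟩
  obtain ⟨v, hv⟩ : ∃ v : L, v = x⁻¹ / π ^ e := ⟨_, rfl⟩
  obtain ⟨η, hη⟩ : ∃ η : L, η = Polynomial.aeval g' (q.map (Int.castRingHom ℚ)) / π ^ (2 * t + 1) := ⟨_, rfl⟩
  obtain ⟨D, A, hD, hA⟩ := den_ex hF (ι := Fin 4 ⊕ Fin s ⊕ Fin (m + 1) ⊕ Fin (m + 1))
    (Sum.elim ![π, v, g', η] (Sum.elim z (Sum.elim φ ρ)))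
  have hAπ : Polynomial.aeval x D * π = vl (A (Sum.inl 0)) x y := hA (Sum.inl 0)
  have hAv : Polynomial.aeval x D * v = vl (A (Sum.inl 1)) x y := hA (Sum.inl 1)
  have hAg : Polynomial.aeval x D * g' = vl (A (Sum.inl 2)) x y := hA (Sum.inl 2)
  have hAη : Polynomial.aeval x D * η = vl (A (Sum.inl 3)) x y := hA (Sum.inl 3)
  have hAz : ∀ i, Polynomial.aeval x D * z i = vl (A (Sum.inr (Sum.inl i))) x y := fun i => hA (Sum.inr (Sum.inl i))
  have hAφ : ∀ k, Polynomial.aeval x D * φ k = vl (A (Sum.inr (Sum.inr (Sum.inl k)))) x y :=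
    fun k => hA (Sum.inr (Sum.inr (Sum.inl k)))
  have hAρ : ∀ k, Polynomial.aeval x D * ρ k = vl (A (Sum.inr (Sum.inr (Sum.inr k)))) x y :=
    fun k => hA (Sum.inr (Sum.inr (Sum.inr k)))
  obtain ⟨DD, hDD⟩ : ∃ DD : L, DD = Polynomial.aeval x D := ⟨_, rfl⟩
  rw [← hDD] at hAπ hAv hAg hAη
  simp only [← hDD] at hAz hAφ hAρ
  have hem : vl (H85.SA.em D) x y = DD := by rw [vl_em, hDD]
  -- the degree bound
  obtain ⟨l, hl⟩ : ∃ l : ℕ, ∀ (k : Fin (m + 1)) (i : Fin s) (u : Fin (2 * t + 1)), (b k i u).natDegree ≤ l :=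
    ⟨∑ k, ∑ i, ∑ u, (b k i u).natDegree, fun k i u =>
      (Finset.single_le_sum (f := fun u => (b k i u).natDegree) (fun _ _ => Nat.zero_le _) (Finset.mem_univ u)).trans
        ((Finset.single_le_sum (f := fun i => ∑ u, (b k i u).natDegree) (fun _ _ => Nat.zero_le _) (Finset.mem_univ i)).trans
          (Finset.single_le_sum (f := fun k => ∑ i, ∑ u, (b k i u).natDegree) (fun _ _ => Nat.zero_le _)
            (Finset.mem_univ k)))⟩
  obtain ⟨bN, hbN⟩ : ∃ bN : ℕ → ℕ → ℕ → Polynomial ℤ, ∀ (k : Fin (m + 1)) (i : Fin s) (u : Fin (2 * t + 1)),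
      bN k i u = b k i u :=
    ⟨fun k i u => if hk : k < m + 1 then if hi : i < s then if hu : u < 2 * t + 1 then b ⟨k, hk⟩ ⟨i, hi⟩ ⟨u, hu⟩
      else 0 else 0 else 0, fun k i u => by dsimp only; rw [dif_pos k.2, dif_pos i.2, dif_pos u.2]⟩
  obtain ⟨zN, hzN⟩ : ∃ zN : ℕ → P2, ∀ i : Fin s, zN i = A (Sum.inr (Sum.inl i)) :=
    ⟨fun i => if hi : i < s then A (Sum.inr (Sum.inl ⟨i, hi⟩)) else 0, fun i => by dsimp only; rw [dif_pos i.2]⟩
  obtain ⟨φN, hφN⟩ : ∃ φN : ℕ → P2, ∀ k : Fin (m + 1), φN k = A (Sum.inr (Sum.inr (Sum.inl k))) :=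
    ⟨fun k => if hk : k < m + 1 then A (Sum.inr (Sum.inr (Sum.inl ⟨k, hk⟩))) else 0, fun k => by dsimp only; rw [dif_pos k.2]⟩
  obtain ⟨ρN, hρN⟩ : ∃ ρN : ℕ → P2, ∀ k : Fin (m + 1), ρN k = A (Sum.inr (Sum.inr (Sum.inr k))) :=
    ⟨fun k => if hk : k < m + 1 then A (Sum.inr (Sum.inr (Sum.inr ⟨k, hk⟩))) else 0, fun k => by dsimp only; rw [dif_pos k.2]⟩
  obtain ⟨d, hd⟩ : ∃ d : Dt, d = Dt.mk c e s (2 * t + 1) (m + 1) l D (A (Sum.inl 0)) (A (Sum.inl 1)) (A (Sum.inl 2))
    (A (Sum.inl 3)) zN φN ρN bN (fun k => if k = m then 1 else 0) N1 U V N0 := ⟨_, rfl⟩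
  have hjets : JetsP q t d := by
    refine jets_ofP (cap := s * (q.natDegree * (t + 1))) h0.irr hr le_rfl b hS d ?_ ?_ ?_ ?_
    · rw [hd]
    · rw [hd]
    · intro k i u
      rw [hd]
      exact hbN k i u
    · intro k i u
      rw [hd]
      exact hl k i u
  -- regular functions
  have reg : ∀ {w : L} {D' B : P2}, w ∈ O → vl D' x y * w = vl B x y → ∀ᶠ Z : ℕ in atTop, Bd (shf c F) Z D' B :=
    fun hw hB => bd_of hF hB (bd_int h0.ff h0.uni hw)
  have hvO : v ∈ O := by rw [hv]; exact h0.x1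
  have hηO : η ∈ O := by rw [hη]; exact hPg
  have hρO : ∀ k, ρ k ∈ O := fun k => by rw [hρ]; exact hexp k
  have e1 := reg hπO (D' := H85.SA.em D) (B := A (Sum.inl 0)) (by rw [hem, hAπ])
  have e2 := reg hvO (D' := H85.SA.em D) (B := A (Sum.inl 1)) (by rw [hem, hAv])
  have e3 := reg h0.x2 (D' := H85.SA.em D ^ e) (B := MvPolynomial.X 0 * A (Sum.inl 0) ^ e) (by
    rw [vl_pow, hem, vl_mul, vl_X0, vl_pow, ← hAπ]
    ring)
  have e4 := reg hg' (D' := H85.SA.em D) (B := A (Sum.inl 2)) (by rw [hem, hAg])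
  have e5 := reg hηO (D' := H85.SA.em D) (B := A (Sum.inl 3)) (by rw [hem, hAη])
  have e6 : ∀ᶠ Z : ℕ in atTop, ∀ i : Fin s, Bd (shf c F) Z (H85.SA.em D) (zN i) :=
    eventually_all.2 fun i => reg (h.zO i) (by rw [hem, hAz, hzN])
  have e7 : ∀ᶠ Z : ℕ in atTop, ∀ k : Fin (m + 1), Bd (shf c F) Z (H85.SA.em D) (ρN k) :=
    eventually_all.2 fun k => reg (hρO k) (by rw [hem, hAρ, hρN])
  have e8 : ∀ᶠ Z : ℕ in atTop, ∀ k : Fin (m + 1), Ig (shf c F) Z (H85.SA.em D) (φN k) :=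
    eventually_all.2 fun k => ig_of hF (by rw [hem, hAφ, hφN]) (ig_int (hφ k))
  have e9 : ∀ᶠ Z : ℕ in atTop, ∀ (k : Fin (m + 1)) (i : Fin s) (u : Fin (2 * t + 1)), Sz Z (b k i u) :=
    eventually_all.2 fun k => eventually_all.2 fun i => eventually_all.2 fun u => sz_ev _
  have e10 := sz_ev D
  have e11 := sz_ev q
  have e12 := sz_ev U
  have e13 := sz_ev V
  have e14 : ∀ᶠ Z : ℕ in atTop, ∀ w, |MvPolynomial.coeff w (shf c F)| ≤ (Z : ℤ) := by
    filter_upwards [eventually_ge_atTop (∑ w ∈ (shf c F).support, (MvPolynomial.coeff w (shf c F)).natAbs)] with Z hZ w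
    by_cases hw : w ∈ (shf c F).support
    · have h1 := Finset.single_le_sum (f := fun w => (MvPolynomial.coeff w (shf c F)).natAbs)
        (fun _ _ => Nat.zero_le _) hw
      have h2 : (MvPolynomial.coeff w (shf c F)).natAbs ≤ Z := h1.trans hZ
      rw [Int.abs_eq_natAbs]
      exact_mod_cast h2
    · rw [MvPolynomial.notMem_support_iff.1 hw, abs_zero]
      positivity
  have e15 := eventually_ge_atTop (2 + c + (shf c F).totalDegree + e + s + (2 * t + 1) + (m + 1) + l + N)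
  obtain ⟨Z, z1, z2, z3, z4, z5, z6, z7, z8, z9, z10, z11, z12, z13, z14, z15⟩ :=
    (e1.and (e2.and (e3.and (e4.and (e5.and (e6.and (e7.and (e8.and (e9.and (e10.and (e11.and (e12.and (e13.and
      (e14.and e15)))))))))))))).exists
  have hz0 : ∀ n : ℕ, π ^ n ≠ 0 := fun n => pow_ne_zero _ h0.π0
  have hvt : x * π ^ e * v = 1 := by
    rw [hv]
    field_simp [hz0 e]
  have hηq : Polynomial.aeval g' q = η * π ^ (2 * t + 1) := by
    rw [hη, div_mul_cancel₀ _ (hz0 _), ← algebraMap_int_eq, Polynomial.aeval_map_algebraMap]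
  have hρk : ∀ k, π ^ M * φ k = (∑ i, ∑ u : Fin (2 * t + 1), Polynomial.aeval g' (b k i u) * z i * π ^ (u : ℕ)) +
      ρ k * π ^ (2 * t + 1) := by
    intro k
    rw [hρ, div_mul_cancel₀ _ (hz0 _)]
    ring
  refine ⟨Z, d, by omega, by rw [hd], ?_⟩
  exact
    { Z2 := by omega
      cZ := by rw [hd]; show c ≤ Z; omega
      lc := by rw [hd]; exact hlc
      dZ := by rw [hd]; show (shf c F).totalDegree ≤ Z; omega
      FZ := by rw [hd]; exact z14
      e1 := by rw [hd]; exact h0.e1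
      eZ := by rw [hd]; show e ≤ Z; omega
      s1 := by rw [hd]; exact h0.s1
      sZ := by rw [hd]; show s ≤ Z; omega
      MU := hMt
      UW := by rw [hd]
      WZ := by rw [hd]; show 2 * t + 1 ≤ Z; omega
      mZ := by rw [hd]; show m + 1 ≤ Z; omega
      lZ := by rw [hd]; show l ≤ Z; omega
      D0 := by rw [hd]; exact hD
      DZ := by rw [hd]; exact z10
      qZ := z11
      eq1 := by
        rw [hd]
        refine eqv_of hF ?_
        show vl (MvPolynomial.X 0 * A (Sum.inl 0) ^ e * A (Sum.inl 1)) x y = vl (H85.SA.em D ^ (e + 1)) x y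
        rw [vl_mul, vl_mul, vl_pow, vl_pow, vl_X0, hem, ← hAπ, ← hAv, mul_pow, pow_succ]
        linear_combination (DD ^ e * DD) * hvt
      bpi := by rw [hd]; exact z1
      bv := by rw [hd]; exact z2
      bt := by rw [hd]; exact z3
      bg := by rw [hd]; exact z4
      beta := by rw [hd]; exact z5
      eq2 := by
        rw [hd]
        refine eqv_of hF ?_
        show vl (hm q q.natDegree (A (Sum.inl 2)) (H85.SA.em D) * H85.SA.em D ^ (2 * t + 1 + 1)) x y =
          vl (A (Sum.inl 3) * A (Sum.inl 0) ^ (2 * t + 1) * H85.SA.em D ^ q.natDegree) x y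
        rw [vl_mul, vl_hm' q le_rfl _ _ hAg.symm hem, vl_mul, vl_mul, vl_pow, vl_pow, vl_pow, hem, ← hAη, ← hAπ, hηq,
          mul_pow, pow_succ]
        ring
      bz := by
        rw [hd]
        intro i hi
        exact z6 ⟨i, hi⟩
      brho := by
        rw [hd]
        intro k hk
        exact z7 ⟨k, hk⟩
      blb := by
        rw [hd]
        intro k hk i hi u hu
        have h1 := hbN ⟨k, hk⟩ ⟨i, hi⟩ ⟨u, hu⟩
        show (bN k i u).natDegree ≤ l ∧ Sz Z (bN k i u)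
        rw [h1]
        exact ⟨hl _ _ _, z9 _ _ _⟩
      eq4 := by
        rw [hd]
        intro k hk
        refine eqv_of hF ?_
        show vl (A (Sum.inl 0) ^ M * φN k * H85.SA.em D ^ (l + (2 * t + 1) - M)) x y =
          vl ((∑ i ∈ Finset.range s, ∑ u ∈ Finset.range (2 * t + 1),
            hm (bN k i u) l (A (Sum.inl 2)) (H85.SA.em D) * zN i * A (Sum.inl 0) ^ u * H85.SA.em D ^ (2 * t + 1 - u)) +
            ρN k * A (Sum.inl 0) ^ (2 * t + 1) * H85.SA.em D ^ l) x y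
        rw [vl_add, vl_fs, vl_mul, vl_mul, vl_pow, vl_pow, hem, ← hAπ, vl_mul, vl_mul, vl_pow, vl_pow, hem, ← hAπ]
        have h1 : vl (φN k) x y = DD * φ ⟨k, hk⟩ := by rw [hAφ]; exact congrArg (fun w => vl w x y) (hφN ⟨k, hk⟩)
        have h2 : vl (ρN k) x y = DD * ρ ⟨k, hk⟩ := by rw [hAρ]; exact congrArg (fun w => vl w x y) (hρN ⟨k, hk⟩)
        have h3 : ∀ i ∈ Finset.range s, vl (∑ u ∈ Finset.range (2 * t + 1),
            hm (bN k i u) l (A (Sum.inl 2)) (H85.SA.em D) * zN i * A (Sum.inl 0) ^ u * H85.SA.em D ^ (2 * t + 1 - u)) x y =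
            if hi : i < s then DD ^ (l + (2 * t + 1) + 1) * ∑ u : Fin (2 * t + 1), Polynomial.aeval g' (b ⟨k, hk⟩ ⟨i, hi⟩ u) *
              z ⟨i, hi⟩ * π ^ (u : ℕ) else 0 := by
          intro i hi
          have hi' := Finset.mem_range.1 hi
          rw [dif_pos hi', vl_fs, Finset.sum_range, Finset.mul_sum]
          refine Finset.sum_congr rfl fun u _ => ?_
          have h4 : bN k i u = b ⟨k, hk⟩ ⟨i, hi'⟩ u := hbN ⟨k, hk⟩ ⟨i, hi'⟩ u
          have h5 : vl (zN i) x y = DD * z ⟨i, hi'⟩ := by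
            rw [hAz]; exact congrArg (fun w => vl w x y) (hzN ⟨i, hi'⟩)
          have h6 : DD ^ (2 * t + 1) = DD ^ (u : ℕ) * DD ^ (2 * t + 1 - u) := by
            rw [← pow_add]
            congr 1
            have := u.2
            omega
          rw [h4, vl_mul, vl_mul, vl_mul, vl_hm' _ (hl _ _ _) _ _ hAg.symm hem, h5, vl_pow, vl_pow, hem, ← hAπ,
            pow_add, pow_add, h6]
          ring
        rw [Finset.sum_congr rfl h3, h1, h2]
        have h7 : ∑ i ∈ Finset.range s, (if hi : i < s then DD ^ (l + (2 * t + 1) + 1) * ∑ u : Fin (2 * t + 1),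
            Polynomial.aeval g' (b ⟨k, hk⟩ ⟨i, hi⟩ u) * z ⟨i, hi⟩ * π ^ (u : ℕ) else 0) =
            DD ^ (l + (2 * t + 1) + 1) * ∑ i, ∑ u : Fin (2 * t + 1), Polynomial.aeval g' (b ⟨k, hk⟩ i u) * z i * π ^ (u : ℕ) := by
          rw [Finset.sum_range, Finset.mul_sum]
          refine Finset.sum_congr rfl fun i _ => ?_
          rw [dif_pos i.2]
        rw [h7]
        have h8 := hρk ⟨k, hk⟩
        have h9 : DD ^ (l + (2 * t + 1) + 1) = DD ^ M * DD * DD ^ (l + (2 * t + 1) - M) := by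
          rw [← pow_succ, ← pow_add]
          congr 1
          omega
        have h10 : DD ^ (l + (2 * t + 1) + 1) = DD * DD ^ (2 * t + 1) * DD ^ l := by
          rw [← pow_succ', ← pow_add]
          congr 1
          omega
        have h11 : DD * ρ ⟨k, hk⟩ * (DD * π) ^ (2 * t + 1) * DD ^ l = DD ^ (l + (2 * t + 1) + 1) * (ρ ⟨k, hk⟩ * π ^ (2 * t + 1)) := by
          rw [h10, mul_pow]
          ring
        rw [h11, ← mul_add, ← h8, h9, mul_pow]
        ring
      ig := by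
        rw [hd]
        intro k hk
        exact z8 ⟨k, hk⟩
      l0 := by rw [hd]; exact hN
      eq5 := by
        rw [hd]
        refine eqv_of hF ?_
        show vl (∑ k ∈ Finset.range (m + 1), MvPolynomial.C (if k = m then (1 : ℤ) else 0) * φN k) x y =
          vl (MvPolynomial.C N1 * H85.SA.em D) x y
        rw [vl_fs, vl_mul, vl_C, hem, Finset.sum_range_succ, if_pos rfl, Finset.sum_eq_zero, zero_add, vl_mul, vl_C]
        · have h1 : vl (φN m) x y = DD * φ (Fin.last m) := by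
            rw [hAφ]; exact congrArg (fun w => vl w x y) (hφN (Fin.last m))
          rw [h1, hφl]
          push_cast
          ring
        · intro k hk
          have := Finset.mem_range.1 hk
          rw [if_neg (by omega), vl_mul, vl_C]
          push_cast
          ring
      n0 := by rw [hd]; exact hN0
      UZ := by rw [hd]; exact z12
      VZ := by rw [hd]; exact z13
      eq6 := by rw [hd]; exact hUV
      jets := hjets    }


end Pool.Agent.H85.SB
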