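import Pool.Agent.H85.SB.Def
import Pool.Agent.H85.SA.Stg

/-! # [H85 SB STG] The final form of the algorithm clause, with radicals

`AlgH`: one partial recursive function of `F`; every value bounds all integer zeros of `F`; defined for every absolutely irreducible `F` of degree `n` which has two places at infinity over `ℚ`, or genus at most `g` and all real places at infinity
carry a zero of a polynomial special for `300 (n+g)`, or genus at most `g` (or `(n-1)(n-2) ≤ 2 g`) and all real places at infinity carry an `r`-th root of `a/b`, `a ≠ b` coprime, `|a-b| ≤ b^(1-(2+τ)/r)`, `0 < τ ≤ 1`,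
`log b ≥ 10^6 r n (g+2)/τ^3`. -/

namespace Pool.Agent.H85.SB

open Pool.Agent.H98.AL Pool.Agent.H8.Siegel Pool.Agent.H69.AL Pool.Agent.H65.RG Pool.Agent.H85.SA

/-- the class of the special polynomials -/
def ClS (F : P2) : Prop :=
  ∃ (q : Polynomial ℤ) (B g : ℕ), Pool.Agent.H85.SF.Special q B (300 * (F.totalDegree + g)) ∧
    Pool.Agent.H85.SF.AtInf q F ∧ Pool.Agent.H85.SF.GenusLE F g

/-- the class of the radicals -/
def ClR (F : P2) : Prop :=
  ∃ (r a b g : ℕ) (τ : ℝ), Nat.Coprime a b ∧ a ≠ b ∧ 1 ≤ r ∧ 1 ≤ a ∧ 1 ≤ b ∧ 0 < τ ∧ τ ≤ 1 ∧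
    |(a : ℝ) - b| ^ r * (b : ℝ) ^ (2 + τ) ≤ (b : ℝ) ^ r ∧
    10 ^ 6 * (r * F.totalDegree * (g + 2) : ℕ) ≤ τ ^ 3 * Real.log b ∧
    Pool.Agent.H85.SF.AtInf (rd r a b) F ∧
    (Pool.Agent.H85.SF.GenusLE F g ∨ (F.totalDegree - 1) * (F.totalDegree - 2) ≤ 2 * g)

def AlgH : Prop :=
  ∃ A : Code →. ℕ, Partrec A ∧ ∀ c : Code,
    (∀ b ∈ A c, ∀ x y : ℤ, MvPolynomial.eval ![x, y] (toPoly c) = 0 → max |x| |y| ≤ (b : ℤ)) ∧
    (Irreducible (MvPolynomial.map (Int.castRingHom (AlgebraicClosure ℚ)) (toPoly c)) →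
      (¬ OnePlace (toPoly c) ∨ ClS (toPoly c) ∨ ClR (toPoly c)) → (A c).Dom)

/-- the four types of certificates, of size `Z` -/
def CerH (F : P2) (Z : ℕ) : Prop := CerG F Z ∨ CerS F Z

end Pool.Agent.H85.SB
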