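import Pool.Agent.H85.SB.Cmp
import Pool.Agent.H85.SB.Stg

/-! # [H85 SB CMH] COMPLETENESS, all four types of certificates -/

set_option autoImplicit false

namespace Pool.Agent.H85.SB

open Pool.Agent.H98.AL Pool.Agent.H85.SA Pool.Agent.H65.RG

theorem completeH {F : P2} (hF : Irreducible (MvPolynomial.map (Int.castRingHom (AlgebraicClosure ℚ)) F))
    (h : ¬ OnePlace F ∨ ClS F ∨ ClR F) : ∃ Z, CerH F Z := by
  rcases h with h | h | h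
  · obtain ⟨Z, hZ⟩ := Pool.Agent.H46.SF2.completeG hF (Or.inl h)
    exact ⟨Z, Or.inl hZ⟩
  · obtain ⟨Z, hZ⟩ := Pool.Agent.H46.SF2.completeG hF (Or.inr h)
    exact ⟨Z, Or.inl hZ⟩
  · obtain ⟨r, a, b, g, τ, hc, hab, hr, ha, hb, h0, h1, hcl, hlog, hA, hg⟩ := h
    rcases completeS hF h0 h1 hr hb ha hc hab hcl hlog hA hg with ⟨Z, hZ⟩ | ⟨Z, d, hZ⟩ | ⟨Z, hZ⟩
    · exact ⟨Z, Or.inl (Or.inl hZ)⟩
    · exact ⟨Z, Or.inl (Or.inr (Or.inl ⟨d, hZ⟩))⟩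
    · exact ⟨Z, Or.inr hZ⟩

end Pool.Agent.H85.SB
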