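import Pool.Agent.H85.SB.Prf
import Pool.Agent.H85.SA.Jev

/-! # [H85 SB JEVP] The jets at the complex roots, radicals (as `jets_sound` in H85/SA/Jev)

`rd r a b = b X^r - a` has degree `r` and leading coefficient `b`; the identity gives `b ∏ (x - β_j) = b x^r - a`; `X^r - a b^(r-1)` irreducible: the roots `b β_j` of this polynomial are simple. -/

namespace Pool.Agent.H85.SB

open Pool.Agent.H98.AL Pool.Agent.H85.SA

/-- values of `hmu` -/
private theorem hmu_val {b : Polynomial ℤ} {l : ℕ} (hb : b.natDegree ≤ l) (a : Polynomial ℤ) {μ : ℤ} (hμ : μ ≠ 0)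
    (τ : ℂ) : Polynomial.aeval τ (hmu b l a μ) =
      Polynomial.aeval (Polynomial.aeval τ a / (μ : ℂ)) b * (μ : ℂ) ^ l := by
  have hμ' : (μ : ℂ) ≠ 0 := Int.cast_ne_zero.2 hμ
  unfold hmu
  rw [Polynomial.aeval_eq_sum_range' (Nat.lt_succ_of_le hb), Finset.sum_mul, map_sum]
  refine Finset.sum_congr rfl fun h hh => ?_
  have h1 : h ≤ l := by
    have := Finset.mem_range.1 hh
    omega
  have h2 : (μ : ℂ) ^ l = (μ : ℂ) ^ h * (μ : ℂ) ^ (l - h) := by
    rw [← pow_add]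
    congr 1
    omega
  have h3 : (algebraMap ℤ ℂ) (b.coeff h * μ ^ (l - h)) = (b.coeff h : ℂ) * (μ : ℂ) ^ (l - h) := by
    rw [map_mul, map_pow]
    rfl
  rw [map_mul, map_pow, Polynomial.aeval_C, h3, zsmul_eq_mul, div_pow, h2]
  have h4 : (μ : ℂ) ^ h ≠ 0 := pow_ne_zero _ hμ'
  field_simp

private theorem vl_prod {ι : Type*} {S : Type*} [CommRing S] (s : Finset ι) (f : ι → P2) (x y : S) :
    vl (∏ j ∈ s, f j) x y = ∏ j ∈ s, vl (f j) x y :=
  map_prod (MvPolynomial.eval₂Hom (Int.castRingHom S) ![x, y]) f s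

theorem rd_deg {r a b : ℕ} (hr : 1 ≤ r) (hb : 1 ≤ b) :
    (rd r a b).natDegree = r ∧ (rd r a b).leadingCoeff = b := by
  have hb0 : (b : ℤ) ≠ 0 := by exact_mod_cast (show b ≠ 0 by omega)
  have h1 : (Polynomial.C (b : ℤ) * Polynomial.X ^ r).natDegree = r := Polynomial.natDegree_C_mul_X_pow r _ hb0
  have h2 : (Polynomial.C (a : ℤ)).natDegree < (Polynomial.C (b : ℤ) * Polynomial.X ^ r).natDegree := by
    rw [h1, Polynomial.natDegree_C]
    omega
  refine ⟨?_, ?_⟩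
  · unfold rd
    rw [Polynomial.natDegree_sub_eq_left_of_natDegree_lt h2, h1]
  · unfold rd
    rw [Polynomial.leadingCoeff_sub_of_degree_lt (Polynomial.degree_lt_degree h2), Polynomial.leadingCoeff_C_mul_X_pow]

theorem rd_aeval {S : Type*} [CommRing S] (r a b : ℕ) (x : S) : Polynomial.aeval x (rd r a b) = (b : S) * x ^ r - a := by
  unfold rd
  simp

theorem jets_soundP {r a b t : ℕ} (hr : 2 ≤ r) (hb : 1 ≤ b)
    (hi : Irreducible (Polynomial.X ^ r - Polynomial.C ((a * b ^ (r - 1) : ℕ) : ℤ))) {d : Dt}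
    (h : JetsP (rd r a b) t d)
    (hl : ∀ k < d.m, ∀ i < d.s, ∀ u < 2 * t + 1, (d.b k i u).natDegree ≤ d.l) :
    ∃ β : Fin r → ℂ, Function.Injective β ∧ (∀ j, (b : ℂ) * β j ^ r = a) ∧
      ∀ k < 2 * t + 1, ∀ τ : Fin r → Fin d.s → ℕ → ℂ, ∃ v : Fin d.m → ℂ,
        ∀ j : Fin r, ∀ i : Fin d.s, ∀ u < prf r t k j,
          ∑ k' : Fin d.m, v k' * Polynomial.aeval (β j) (d.b k' i u) = τ j i u := by
  classical
  obtain ⟨hdeg, hlc⟩ := rd_deg (r := r) (a := a) (b := b) (by omega) hb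
  obtain ⟨M, μ, ν, ro, Q, hM, hμ, hν, hprod, hj⟩ := h
  rw [hdeg, hlc] at hprod
  rw [hdeg] at hj
  have hμ' : (μ : ℂ) ≠ 0 := Int.cast_ne_zero.2 hμ
  have hν' : (ν : ℂ) ≠ 0 := Int.cast_ne_zero.2 hν
  have hb' : (b : ℂ) ≠ 0 := Nat.cast_ne_zero.2 (by omega)
  -- a zero of `M`
  obtain ⟨τ, hτ⟩ : ∃ τ : ℂ, Polynomial.aeval τ M = 0 := by
    refine IsAlgClosed.exists_aeval_eq_zero ℂ M ?_
    intro h0
    have := Polynomial.natDegree_eq_zero_iff_degree_le_zero.2 h0.le
    omega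
  -- the factorization
  have hfac : ∀ x : ℂ, (b : ℂ) * x ^ r - a =
      b * ∏ j ∈ Finset.range r, (x - Polynomial.aeval τ (ro j) / (μ : ℂ)) := by
    intro x
    have h1 := congrArg (fun F : P2 => vl F x τ) hprod
    simp only [vl_mul, vl_sub, vl_C, vl_prod, vl_X0, vl_emT, vl_em, hτ, zero_mul] at h1
    have h2 := sub_eq_zero.1 ((mul_eq_zero.1 h1).resolve_left hν')
    have h3 : ∏ j ∈ Finset.range r, ((μ : ℂ) * x - Polynomial.aeval τ (ro j)) =
        (μ : ℂ) ^ r *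
          ∏ j ∈ Finset.range r, (x - Polynomial.aeval τ (ro j) / (μ : ℂ)) := by
      rw [← Finset.card_range r, ← Finset.prod_const, Finset.card_range, ← Finset.prod_mul_distrib]
      refine Finset.prod_congr rfl fun j _ => ?_
      field_simp
    rw [h3, rd_aeval] at h2
    have h4 : ((μ ^ r : ℤ) : ℂ) = (μ : ℂ) ^ r := by push_cast; rfl
    have h5 : (((b : ℤ) : ℂ)) = (b : ℂ) := by push_cast; rfl
    rw [h4, h5] at h2
    have h6 : (μ : ℂ) ^ r * ((b : ℂ) * ∏ j ∈ Finset.range r, (x - Polynomial.aeval τ (ro j) / (μ : ℂ))) =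
        (μ : ℂ) ^ r * ((b : ℂ) * x ^ r - a) := by
      rw [← h2]
      ring
    exact (mul_left_cancel₀ (pow_ne_zero _ hμ') h6).symm
  have hpol : (Polynomial.X ^ r - Polynomial.C ((a * b ^ (r - 1) : ℕ) : ℤ)).map (algebraMap ℤ ℂ) =
      ∏ j ∈ Finset.range r,
        (Polynomial.X - Polynomial.C ((b : ℂ) * (Polynomial.aeval τ (ro j) / (μ : ℂ)))) := by
    refine Polynomial.funext fun y => ?_
    rw [Polynomial.eval_prod, Polynomial.map_sub, Polynomial.map_pow, Polynomial.map_X, Polynomial.map_C,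
      Polynomial.eval_sub, Polynomial.eval_pow, Polynomial.eval_X, Polynomial.eval_C]
    have h1 := hfac (y / b)
    have h2 : (algebraMap ℤ ℂ) ((a * b ^ (r - 1) : ℕ) : ℤ) = (a : ℂ) * (b : ℂ) ^ (r - 1) := by
      rw [eq_intCast]
      push_cast
      rfl
    have h3 : (b : ℂ) ^ r = (b : ℂ) ^ (r - 1) * b := by
      rw [← pow_succ]
      congr 1
      omega
    have h4 : y ^ r - (a : ℂ) * (b : ℂ) ^ (r - 1) = (b : ℂ) ^ (r - 1) * ((b : ℂ) * (y / b) ^ r - a) := by
      rw [div_pow, h3]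
      have h5 : (b : ℂ) ^ (r - 1) ≠ 0 := pow_ne_zero _ hb'
      field_simp
    rw [h2, h4, h1]
    have h6 : ∏ j ∈ Finset.range r,
        Polynomial.eval y (Polynomial.X - Polynomial.C ((b : ℂ) * (Polynomial.aeval τ (ro j) / (μ : ℂ)))) =
        (b : ℂ) ^ r * ∏ j ∈ Finset.range r, (y / b - Polynomial.aeval τ (ro j) / (μ : ℂ)) := by
      rw [← Finset.card_range r, ← Finset.prod_const, Finset.card_range, ← Finset.prod_mul_distrib]
      refine Finset.prod_congr rfl fun j _ => ?_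
      rw [Polynomial.eval_sub, Polynomial.eval_X, Polynomial.eval_C]
      field_simp
    rw [h6, h3]
    ring
  have hsep : ((Polynomial.X ^ r - Polynomial.C ((a * b ^ (r - 1) : ℕ) : ℤ)).map (algebraMap ℤ ℂ)).Separable := by
    have hm : (Polynomial.X ^ r - Polynomial.C ((a * b ^ (r - 1) : ℕ) : ℤ)).Monic :=
      Polynomial.monic_X_pow_sub_C _ (by omega)
    have h1 : Irreducible ((Polynomial.X ^ r - Polynomial.C ((a * b ^ (r - 1) : ℕ) : ℤ)).map (algebraMap ℤ ℚ)) :=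
      (hm.irreducible_iff_irreducible_map_fraction_map (K := ℚ)).1 hi
    have h2 := h1.separable
    have h3 : (Polynomial.X ^ r - Polynomial.C ((a * b ^ (r - 1) : ℕ) : ℤ)).map (algebraMap ℤ ℂ) =
        ((Polynomial.X ^ r - Polynomial.C ((a * b ^ (r - 1) : ℕ) : ℤ)).map (algebraMap ℤ ℚ)).map (algebraMap ℚ ℂ) := by
      rw [Polynomial.map_map, ← IsScalarTower.algebraMap_eq]
    rw [h3]
    exact h2.map
  rw [hpol, Polynomial.separable_prod_X_sub_C_iff'] at hsep
  refine ⟨fun j => Polynomial.aeval τ (ro j) / (μ : ℂ), ?_, ?_, ?_⟩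
  · intro j j' hjj
    refine Fin.ext (hsep j (Finset.mem_range.2 j.2) j' (Finset.mem_range.2 j'.2) ?_)
    exact congrArg (fun z : ℂ => (b : ℂ) * z) hjj
  · intro j
    have h1 := hfac (Polynomial.aeval τ (ro j) / (μ : ℂ))
    rw [Finset.prod_eq_zero (Finset.mem_range.2 j.2) (sub_self _), mul_zero] at h1
    exact sub_eq_zero.1 h1
  · intro k hk tt
    -- the unit targets
    have unit : ∀ p : Fin r × Fin d.s × ℕ, ∃ v : Fin d.m → ℂ,
        p.2.2 < prf r t k p.1 →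
        ∀ j : Fin r, ∀ i : Fin d.s, ∀ u < prf r t k j,
          ∑ k' : Fin d.m, v k' * Polynomial.aeval (Polynomial.aeval τ (ro j) / (μ : ℂ)) (d.b k' i u) =
            if p = (j, i, u) then 1 else 0 := by
      rintro ⟨j₀, i₁, u₁⟩
      by_cases hu1 : u₁ < prf r t k j₀
      swap
      · exact ⟨0, fun h => absurd h hu1⟩
      obtain ⟨w, ν', hν0, hw⟩ := hj k hk j₀ j₀.2 i₁ i₁.2 u₁ hu1
      have hν0' : (ν' : ℂ) ≠ 0 := Int.cast_ne_zero.2 hν0
      refine ⟨fun k' => Polynomial.aeval τ (w k') * (μ : ℂ) ^ d.l / (ν' : ℂ), fun _ j i u hu => ?_⟩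
      obtain ⟨κ, R, hκ, hR⟩ := hw j j.2 i i.2 u hu
      have hκ' : (κ : ℂ) ≠ 0 := Int.cast_ne_zero.2 hκ
      have h1 := congrArg (fun F : Polynomial ℤ => Polynomial.aeval τ F) hR
      simp only [map_mul, map_sub, map_sum, hτ, zero_mul, Polynomial.aeval_C] at h1
      have hκ2 : (algebraMap ℤ ℂ) κ ≠ 0 := by
        rw [eq_intCast]
        exact hκ'
      have h2 := sub_eq_zero.1 ((mul_eq_zero.1 h1).resolve_left hκ2)
      have h3 : (∑ k' ∈ Finset.range d.m, Polynomial.aeval τ (w k') *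
            Polynomial.aeval τ (hmu (d.b k' i u) d.l (ro j) μ)) =
          ∑ k' : Fin d.m, Polynomial.aeval τ (w k') *
            (Polynomial.aeval (Polynomial.aeval τ (ro j) / (μ : ℂ)) (d.b k' i u) * (μ : ℂ) ^ d.l) := by
        rw [Finset.sum_range]
        refine Finset.sum_congr rfl fun k' _ => ?_
        rw [hmu_val (hl k' k'.2 i i.2 u (lt_of_lt_of_le hu (prf_le hk))) (ro j) hμ τ]
      rw [h3] at h2
      have h4 : ∑ k' : Fin d.m, Polynomial.aeval τ (w k') * (μ : ℂ) ^ d.l / (ν' : ℂ) *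
            Polynomial.aeval (Polynomial.aeval τ (ro j) / (μ : ℂ)) (d.b k' i u) =
          (∑ k' : Fin d.m, Polynomial.aeval τ (w k') *
            (Polynomial.aeval (Polynomial.aeval τ (ro j) / (μ : ℂ)) (d.b k' i u) * (μ : ℂ) ^ d.l)) /
              (ν' : ℂ) := by
        rw [Finset.sum_div]
        refine Finset.sum_congr rfl fun k' _ => ?_
        ring
      rw [h4, h2]
      by_cases hc : (j₀, i₁, u₁) = (j, i, u)
      · obtain ⟨h5, h6, h7⟩ : j₀ = j ∧ i₁ = i ∧ u₁ = u := by simpa using hc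
        have hc' : (j : ℕ) = (j₀ : ℕ) ∧ (i : ℕ) = (i₁ : ℕ) ∧ u = u₁ := ⟨by rw [h5], by rw [h6], h7.symm⟩
        rw [if_pos hc, if_pos hc', Polynomial.aeval_C, eq_intCast, div_self hν0']
      · have hc' : ¬ ((j : ℕ) = (j₀ : ℕ) ∧ (i : ℕ) = (i₁ : ℕ) ∧ u = u₁) := by
          rintro ⟨h5, h6, h7⟩
          exact hc (by rw [Fin.ext h5, Fin.ext h6, h7])
        rw [if_neg hc, if_neg hc', map_zero, zero_div]
    choose V hV using unit
    obtain ⟨P, hP⟩ : ∃ P : Finset (Fin r × Fin d.s × ℕ),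
        P = ((Finset.univ : Finset (Fin r)) ×ˢ
          ((Finset.univ : Finset (Fin d.s)) ×ˢ Finset.range (2 * t + 1))).filter
            (fun p => p.2.2 < prf r t k p.1) := ⟨_, rfl⟩
    have hPm : ∀ p, p ∈ P ↔ p.2.2 < prf r t k p.1 := by
      intro p
      rw [hP, Finset.mem_filter, Finset.mem_product, Finset.mem_product, Finset.mem_range]
      constructor
      · exact fun h => h.2
      · exact fun h => ⟨⟨Finset.mem_univ _, Finset.mem_univ _, lt_of_lt_of_le h (prf_le hk)⟩, h⟩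
    refine ⟨fun k' => ∑ p ∈ P, tt p.1 p.2.1 p.2.2 * V p k', fun j i u hu => ?_⟩
    calc ∑ k' : Fin d.m, (∑ p ∈ P, tt p.1 p.2.1 p.2.2 * V p k') *
          Polynomial.aeval (Polynomial.aeval τ (ro j) / (μ : ℂ)) (d.b k' i u)
        = ∑ p ∈ P, tt p.1 p.2.1 p.2.2 * ∑ k' : Fin d.m, V p k' *
          Polynomial.aeval (Polynomial.aeval τ (ro j) / (μ : ℂ)) (d.b k' i u) := by
          simp only [Finset.sum_mul, Finset.mul_sum]
          rw [Finset.sum_comm]
          refine Finset.sum_congr rfl fun p _ => Finset.sum_congr rfl fun k' _ => ?_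
          ring
      _ = ∑ p ∈ P, tt p.1 p.2.1 p.2.2 * (if p = (j, i, u) then 1 else 0) := by
          refine Finset.sum_congr rfl fun p hp => ?_
          rw [hV p ((hPm p).1 hp) j i u hu]
      _ = tt j i u := by
          simp only [mul_ite, mul_one, mul_zero]
          rw [Finset.sum_ite_eq' P (j, i, u) (fun p => tt p.1 p.2.1 p.2.2),
            if_pos ((hPm (j, i, u)).2 hu)]

end Pool.Agent.H85.SB
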