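import Pool.Agent.H85.SB.Def

/-! # [H85 SB PAR] The parameters

`|a-b|^r b^(2+τ) ≤ b^r`, `0 < τ ≤ 1`, `10^6 r n (g+2) ≤ τ³ log b`. With `L = log b`, `Λ = log (b/|a-b|)`: `r Λ ≥ (2 + τ) L`; `η = τ/8`; `M₁ = ⌈8 (3g+4)/η⌉`, `t = M₁ - 1`, `M = M₁ + 3g + 1`, `w = ⌈η M₁/8⌉`, `kp = ⌈s (2t+1)(2t+2)/(2w)⌉ ≤ 400 s (g+2)/η²`,
`2t+1-w-M-1 = M₁ - w - 3g - 3 ≥ (1 - η/4) M₁` (check), `2t+1+w ≤ (2 + η/4) M₁`, `log max(a,b) ≤ L + log 2`. `num` is `(2t+1-w-M-1) r Λ ≥ (2t+1+w) (log max(a,b) + (3r + kp r²) log 2)`. If the constant `10^6` is too small, change it (here and in Cmp). -/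

namespace Pool.Agent.H85.SB

private theorem kp_bd {s g T w τ kp : ℝ} (h0 : 0 < τ) (h1 : τ ≤ 1) (hs : 1 ≤ s) (hg : 0 ≤ g) (hT0 : 1 ≤ T)
    (hT : T ≤ 64 * (3 * g + 4) / τ + 1) (hw : τ * T / 64 ≤ w) (hw0 : 0 < w)
    (hk : kp ≤ (s * (2 * T - 1) * (2 * T)) / (2 * w) + 1) : kp ≤ 24964 * s * (g + 2) / τ ^ 2 := by
  have hT' : T ≤ 65 * (3 * g + 4) / τ := by
    have : 1 ≤ (3 * g + 4) / τ := by
      rw [le_div_iff₀ h0]
      linarith
    have e : 65 * (3 * g + 4) / τ = 64 * (3 * g + 4) / τ + (3 * g + 4) / τ := by ring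
    linarith
  have h3 : (s * (2 * T - 1) * (2 * T)) / (2 * w) ≤ 128 * s * T / τ := by
    rw [div_le_div_iff₀ (by linarith) h0]
    have a2 : T * τ ≤ 64 * w := by linarith
    calc s * (2 * T - 1) * (2 * T) * τ = (s * (2 * T - 1) * 2) * (T * τ) := by ring
      _ ≤ (s * (2 * T) * 2) * (64 * w) := by
          apply mul_le_mul _ a2 (by positivity) (by positivity)
          nlinarith
      _ = 128 * s * T * (2 * w) := by ring
  have h4 : 128 * s * T / τ ≤ 24960 * s * (g + 2) / τ ^ 2 := by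
    have a1 : 128 * s * T / τ ≤ 128 * s * (65 * (3 * g + 4) / τ) / τ := by
      gcongr
    have a2 : 128 * s * (65 * (3 * g + 4) / τ) / τ = 8320 * s * (3 * g + 4) / τ ^ 2 := by
      field_simp
      ring
    have a3 : 8320 * s * (3 * g + 4) / τ ^ 2 ≤ 24960 * s * (g + 2) / τ ^ 2 := by
      apply div_le_div_of_nonneg_right _ (by positivity)
      nlinarith
    linarith
  have h5 : (1 : ℝ) ≤ 4 * s * (g + 2) / τ ^ 2 := by
    rw [le_div_iff₀ (by positivity)]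
    have : τ ^ 2 ≤ 1 := pow_le_one₀ h0.le h1
    nlinarith
  have e : 24964 * s * (g + 2) / τ ^ 2 = 24960 * s * (g + 2) / τ ^ 2 + 4 * s * (g + 2) / τ ^ 2 := by ring
  linarith

private theorem kp_bd2 {s g r n τ kp P L : ℝ} (h0 : 0 < τ) (h1 : τ ≤ 1) (hr : 1 ≤ r) (hg : 0 ≤ g)
    (hrs : r * s ≤ n) (hP : P = r * n * (g + 2)) (hP2 : 2 ≤ P) (hPr : 2 * r ≤ P) (hL : 10 ^ 6 * P ≤ τ ^ 3 * L)
    (hk : kp ≤ 24964 * s * (g + 2) / τ ^ 2) : 2 * (1 + 3 * r + kp * r ^ 2) ≤ τ * L := by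
  have ht2 : 0 < τ ^ 2 := by positivity
  have ht1 : τ ^ 2 ≤ 1 := pow_le_one₀ h0.le h1
  have a1 : kp * r ^ 2 ≤ 24964 * P / τ ^ 2 := by
    have b1 : kp * r ^ 2 ≤ 24964 * s * (g + 2) / τ ^ 2 * r ^ 2 :=
      mul_le_mul_of_nonneg_right hk (by positivity)
    have b2 : 24964 * s * (g + 2) / τ ^ 2 * r ^ 2 = 24964 * (r * s * (r * (g + 2))) / τ ^ 2 := by ring
    have b3 : 24964 * (r * s * (r * (g + 2))) / τ ^ 2 ≤ 24964 * P / τ ^ 2 := by
      apply div_le_div_of_nonneg_right _ ht2.le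
      have b4 : r * s * (r * (g + 2)) ≤ n * (r * (g + 2)) :=
        mul_le_mul_of_nonneg_right hrs (by positivity)
      have b5 : n * (r * (g + 2)) = P := by
        rw [hP]
        ring
      linarith
    linarith
  have a2 : 1 + 3 * r ≤ 2 * P / τ ^ 2 := by
    rw [le_div_iff₀ ht2]
    have : (1 + 3 * r) * τ ^ 2 ≤ (1 + 3 * r) * 1 := mul_le_mul_of_nonneg_left ht1 (by linarith)
    linarith
  have a3 : 2 * (24966 * P / τ ^ 2) ≤ τ * L := by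
    rw [← mul_div_assoc, div_le_iff₀ ht2]
    have e : τ * L * τ ^ 2 = τ ^ 3 * L := by ring
    linarith
  have e : 24964 * P / τ ^ 2 + 2 * P / τ ^ 2 = 24966 * P / τ ^ 2 := by ring
  linarith

/-- the main estimate; `l = log 2`, `m = log max(a, b)` -/
private theorem key_bd {r E T w τ L D S l m : ℝ} (h0 : 0 < τ) (h1 : τ ≤ 1) (hL0 : 0 < L)
    (hT0 : 1 ≤ T) (hE0 : 0 ≤ E) (hE1 : (1 - τ / 32) * T ≤ E) (hw2 : w ≤ τ * T / 64 + 1)
    (hmain : (2 + τ) * L ≤ r * (L - D)) (hl : l ≤ 0.6932) (hl0 : 0 ≤ l) (hm0 : 0 ≤ m) (hm : m ≤ L + l)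
    (hS0 : 1 ≤ S) (hS : 2 * S ≤ τ * L) :
    r * E * D + (2 * T - 1 + w) * (m + (S - 1) * l) ≤ r * E * L := by
  have e1 : m + (S - 1) * l ≤ L + S * l := by linarith
  have e2 : L + S * l ≤ (1 + 3472 / 10000 * τ) * L := by
    have : S * l ≤ S * 0.6932 := mul_le_mul_of_nonneg_left hl (by linarith)
    linarith
  have e3 : 2 * T - 1 + w ≤ (2 + τ / 64) * T := by linarith
  have e4 : (2 * T - 1 + w) * (m + (S - 1) * l) ≤ ((2 + τ / 64) * T) * ((1 + 3472 / 10000 * τ) * L) := by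
    apply mul_le_mul e3 (e1.trans e2) _ (by positivity)
    have : 0 ≤ (S - 1) * l := mul_nonneg (by linarith) hl0
    linarith
  have e5 : ((1 - τ / 32) * T) * ((2 + τ) * L) ≤ E * (r * (L - D)) :=
    mul_le_mul hE1 hmain (by positivity) hE0
  have e6 : ((2 + τ / 64) * T) * ((1 + 3472 / 10000 * τ) * L) ≤ ((1 - τ / 32) * T) * ((2 + τ) * L) := by
    have h8 : (2 + τ / 64) * (1 + 3472 / 10000 * τ) ≤ (1 - τ / 32) * (2 + τ) := by nlinarith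
    have h9 : 0 ≤ T * L := by positivity
    calc ((2 + τ / 64) * T) * ((1 + 3472 / 10000 * τ) * L) = ((2 + τ / 64) * (1 + 3472 / 10000 * τ)) * (T * L) := by ring
      _ ≤ ((1 - τ / 32) * (2 + τ)) * (T * L) := mul_le_mul_of_nonneg_right h8 h9
      _ = _ := by ring
  have e7 : E * (r * (L - D)) = r * E * L - r * E * D := by ring
  linarith

theorem par {r a b s n g : ℕ} {τ : ℝ} (h0 : 0 < τ) (h1 : τ ≤ 1) (hs : 1 ≤ s) (hr : 1 ≤ r) (hrs : r * s ≤ n) (hb : 1 ≤ b)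
    (hab : a ≠ b) (hcl : |(a : ℝ) - b| ^ r * (b : ℝ) ^ (2 + τ) ≤ (b : ℝ) ^ r)
    (hlog : 10 ^ 6 * (r * n * (g + 2) : ℕ) ≤ τ ^ 3 * Real.log b) :
    ∃ M t w kp : ℕ, NumR a b r s M t w kp ∧ M ≤ 2 * t + 1 ∧ 2 * g / (r * s) + 1 ≤ M ∧
      s * (r * (t + 1)) + g ≤ r * s * (M - (2 * g / (r * s) + 1)) := by
  have hrs1 : 1 ≤ r * s := Nat.mul_pos hr hs
  have hn : 1 ≤ n := hrs1.trans hrs
  have hb0 : (0 : ℝ) < b := by exact_mod_cast hb
  obtain ⟨δ, hδ⟩ : ∃ δ : ℝ, δ = |(a : ℝ) - b| := ⟨_, rfl⟩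
  have hδ1 : 1 ≤ δ := by
    have h2 : (1 : ℤ) ≤ |(a : ℤ) - b| := Int.one_le_abs (sub_ne_zero.2 (by exact_mod_cast hab))
    rw [hδ]
    exact_mod_cast h2
  have hδ0 : 0 < δ := by linarith
  obtain ⟨L, hL⟩ : ∃ L : ℝ, L = Real.log b := ⟨_, rfl⟩
  obtain ⟨D, hD⟩ : ∃ D : ℝ, D = Real.log δ := ⟨_, rfl⟩
  rw [← hδ] at hcl
  rw [← hL] at hlog
  have hD0 : 0 ≤ D := by
    rw [hD]
    exact Real.log_nonneg hδ1
  have hrR : (1 : ℝ) ≤ r := by exact_mod_cast hr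
  have hsR : (1 : ℝ) ≤ s := by exact_mod_cast hs
  have hnR : (1 : ℝ) ≤ n := by exact_mod_cast hn
  have hgR : (0 : ℝ) ≤ g := Nat.cast_nonneg g
  have hrsR : (r : ℝ) * s ≤ n := by exact_mod_cast hrs
  obtain ⟨P, hP⟩ : ∃ P : ℝ, P = r * n * (g + 2) := ⟨_, rfl⟩
  have hlog2 : 10 ^ 6 * P ≤ τ ^ 3 * L := by
    rw [hP]
    exact_mod_cast hlog
  have hP2 : 2 ≤ P := by
    rw [hP]
    have h2 : 1 ≤ (r : ℝ) * n := by nlinarith
    nlinarith
  have hPr : (2 : ℝ) * r ≤ P := by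
    rw [hP]
    have h2 : (r : ℝ) ≤ r * n := by nlinarith
    nlinarith
  have ht3 : τ ^ 3 ≤ 1 := pow_le_one₀ h0.le h1
  have ht30 : 0 < τ ^ 3 := by positivity
  have hL0 : 0 < L := by
    have : 0 < τ ^ 3 * L := by linarith
    exact (mul_pos_iff_of_pos_left ht30).1 this
  have hLP : 10 ^ 6 * P ≤ L := hlog2.trans (by nlinarith)
  have hmain : (2 + τ) * L ≤ r * (L - D) := by
    have h2 := Real.log_le_log (by positivity) hcl
    rw [Real.log_mul (by positivity) (by positivity), Real.log_pow, Real.log_pow, Real.log_rpow hb0, ← hL, ← hD] at h2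
    linarith
  clear hcl hlog
  obtain ⟨M₁, hM₁⟩ : ∃ M₁ : ℕ, M₁ = ⌈64 * (3 * g + 4) / τ⌉₊ := ⟨_, rfl⟩
  have hM1 : 64 * (3 * g + 4) / τ ≤ M₁ := by
    rw [hM₁]
    exact Nat.le_ceil _
  have hM2 : (M₁ : ℝ) ≤ 64 * (3 * g + 4) / τ + 1 := by
    rw [hM₁]
    exact (Nat.ceil_lt_add_one (by positivity)).le
  clear hM₁
  have hM3 : 64 * (3 * g + 4) ≤ τ * M₁ := by
    rw [div_le_iff₀ h0] at hM1
    linarith
  have hMR : (1 : ℝ) ≤ M₁ := by nlinarith [Nat.cast_nonneg (α := ℝ) M₁]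
  obtain ⟨w, hw⟩ : ∃ w : ℕ, w = ⌈τ * M₁ / 64⌉₊ := ⟨_, rfl⟩
  have hw1 : τ * M₁ / 64 ≤ w := by
    rw [hw]
    exact Nat.le_ceil _
  have hw2 : (w : ℝ) ≤ τ * M₁ / 64 + 1 := by
    rw [hw]
    exact (Nat.ceil_lt_add_one (by positivity)).le
  clear hw
  have hw3 : (4 : ℝ) ≤ w := by nlinarith
  have hw4 : 4 ≤ w := by exact_mod_cast hw3
  have hM4 : 1 ≤ M₁ := by exact_mod_cast hMR
  have hwE : w + 3 * g + 3 ≤ M₁ := by
    have : (w : ℝ) + 3 * g + 3 ≤ M₁ := by nlinarith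
    exact_mod_cast this
  obtain ⟨t, rfl⟩ : ∃ t : ℕ, M₁ = t + 1 := ⟨M₁ - 1, by omega⟩
  obtain ⟨E, hE⟩ : ∃ E : ℕ, E + (w + 3 * g + 3) = t + 1 := ⟨t + 1 - (w + 3 * g + 3), by omega⟩
  have hEe : 2 * t + 1 - w - (t + 3 * g + 2) - 1 = E := by omega
  obtain ⟨T, hT⟩ : ∃ T : ℝ, T = ((t + 1 : ℕ) : ℝ) := ⟨_, rfl⟩
  rw [← hT] at hM1 hM2 hM3 hMR hw1 hw2
  have hT2 : T = t + 1 := by
    rw [hT]
    push_cast
    rfl
  have hER : (E : ℝ) + (w + 3 * g + 3) = T := by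
    rw [hT]
    exact_mod_cast hE
  have hE1 : (1 - τ / 32) * T ≤ E := by linarith
  obtain ⟨kp, hkp⟩ : ∃ kp : ℕ, kp = s * (2 * t + 1) * (2 * t + 2) / (2 * w) + 1 := ⟨_, rfl⟩
  have hkw : s * (2 * t + 1) * (2 * t + 2) ≤ 2 * w * kp := by
    rw [hkp]
    have := Nat.lt_mul_div_succ (s * (2 * t + 1) * (2 * t + 2)) (show 0 < 2 * w by omega)
    exact this.le
  have hk1 : (kp : ℝ) ≤ 24964 * s * (g + 2) / τ ^ 2 := by
    refine kp_bd h0 h1 hsR hgR hMR hM2 hw1 (by linarith) ?_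
    have h3 := Nat.cast_div_le (α := ℝ) (m := s * (2 * t + 1) * (2 * t + 2)) (n := 2 * w)
    have h4 : ((s * (2 * t + 1) * (2 * t + 2) : ℕ) : ℝ) = s * (2 * T - 1) * (2 * T) := by
      rw [hT2]
      push_cast
      ring
    have h5 : ((2 * w : ℕ) : ℝ) = 2 * w := by push_cast; rfl
    rw [h4, h5] at h3
    have h6 : (kp : ℝ) = ((s * (2 * t + 1) * (2 * t + 2) / (2 * w) : ℕ) : ℝ) + 1 := by
      rw [hkp]
      push_cast
      rfl
    rw [h6]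
    linarith
  have hk2 := kp_bd2 h0 h1 hrR hgR hrsR hP hP2 hPr hlog2 hk1
  clear hkp hk1
  have hl2 : Real.log 2 ≤ 0.6932 := by
    have := Real.log_two_lt_d9
    linarith
  have hl20 : 0 ≤ Real.log 2 := (Real.log_pos (by norm_num)).le
  have hr0 : (0 : ℝ) < r := by linarith
  have hD1 : D + Real.log 2 ≤ L := by
    have h5 : 2 * 10 ^ 6 * (r : ℝ) ≤ L := by linarith
    have h6 : (r : ℝ) * 1 ≤ r * (L - D) := by nlinarith
    have h7 : 1 ≤ L - D := le_of_mul_le_mul_left h6 hr0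
    linarith
  have hδb : δ * 2 ≤ b := by
    rw [← Real.log_le_log_iff (by positivity) hb0, Real.log_mul hδ0.ne' (by norm_num), ← hD, ← hL]
    exact hD1
  refine ⟨t + 3 * g + 2, t, w, kp, ⟨hab, ?_, by omega, hkw, by omega, ?_⟩, by omega, ?_, ?_⟩
  · have h3 : 2 * |(a : ℝ) - b| ≤ b := by
      rw [← hδ]
      linarith
    exact_mod_cast h3
  · rw [hEe]
    have hmax : ((max a b : ℕ) : ℝ) ≤ 2 * b := by
      rw [Nat.cast_max]
      apply max_le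
      · have := le_abs_self ((a : ℝ) - b)
        rw [← hδ] at this
        linarith
      · linarith
    have hmax1 : (1 : ℝ) ≤ (max a b : ℕ) := by
      have : 1 ≤ max a b := le_trans hb (le_max_right a b)
      exact_mod_cast this
    have hmax0 : (0 : ℝ) < (max a b : ℕ) := by linarith
    have hlm : Real.log (max a b : ℕ) ≤ L + Real.log 2 := by
      have := Real.log_le_log hmax0 hmax
      rw [Real.log_mul (by norm_num) hb0.ne', ← hL] at this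
      linarith
    have hlm0 : 0 ≤ Real.log (max a b : ℕ) := Real.log_nonneg hmax1
    obtain ⟨m, hm⟩ : ∃ m : ℝ, m = Real.log (max a b : ℕ) := ⟨_, rfl⟩
    obtain ⟨l, hl⟩ : ∃ l : ℝ, l = Real.log 2 := ⟨_, rfl⟩
    obtain ⟨S, hS⟩ : ∃ S : ℝ, S = 1 + 3 * r + kp * r ^ 2 := ⟨_, rfl⟩
    have hS1 : 1 ≤ S := by
      have a1 : (0 : ℝ) ≤ kp * (r : ℝ) ^ 2 := by positivity
      rw [hS]
      linarith
    rw [← hm, ← hl] at hlm
    rw [← hm] at hlm0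
    rw [← hl] at hl2 hl20
    rw [← hS] at hk2
    have hE0 : (0 : ℝ) ≤ E := Nat.cast_nonneg E
    have key := key_bd h0 h1 hL0 hMR hE0 hE1 hw2 hmain hl2 hl20 hlm0 hlm hS1 hk2
    have hfin : δ ^ (r * E) * ((max a b : ℕ) * 2 ^ (3 * r + kp * r ^ 2)) ^ (2 * t + 1 + w) ≤ (b : ℝ) ^ (r * E) := by
      have p1 : 0 < δ ^ (r * E) := pow_pos hδ0 _
      have p2 : (0 : ℝ) < (b : ℝ) ^ (r * E) := pow_pos hb0 _
      have p3 : (0 : ℝ) < 2 ^ (3 * r + kp * r ^ 2) := pow_pos (by norm_num) _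
      have p4 : (0 : ℝ) < (max a b : ℕ) * 2 ^ (3 * r + kp * r ^ 2) := mul_pos hmax0 p3
      have p5 : (0 : ℝ) < ((max a b : ℕ) * 2 ^ (3 * r + kp * r ^ 2)) ^ (2 * t + 1 + w) := pow_pos p4 _
      rw [← Real.log_le_log_iff (mul_pos p1 p5) p2, Real.log_mul p1.ne' p5.ne',
        Real.log_pow, Real.log_pow, Real.log_pow, Real.log_mul hmax0.ne' p3.ne', Real.log_pow, ← hD, ← hL, ← hm, ← hl]
      have c1 : ((r * E : ℕ) : ℝ) = r * E := Nat.cast_mul _ _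
      have c2 : ((2 * t + 1 + w : ℕ) : ℝ) = 2 * T - 1 + w := by
        rw [hT2]
        push_cast
        ring
      have c3 : ((3 * r + kp * r ^ 2 : ℕ) : ℝ) = S - 1 := by
        rw [hS]
        push_cast
        ring
      rw [c1, c2, c3]
      exact key
    rw [hδ] at hfin
    exact_mod_cast hfin
  · have : 2 * g / (r * s) ≤ 2 * g := Nat.div_le_self _ _
    omega
  · have h2 : 2 * g / (r * s) ≤ 2 * g := Nat.div_le_self _ _
    have h3 : t + 1 + g ≤ t + 3 * g + 2 - (2 * g / (r * s) + 1) := by omega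
    calc s * (r * (t + 1)) + g ≤ r * s * (t + 1) + r * s * g := by
          have : g ≤ r * s * g := Nat.le_mul_of_pos_left g hrs1
          have e : s * (r * (t + 1)) = r * s * (t + 1) := by ring
          omega
      _ = r * s * (t + 1 + g) := by ring
      _ ≤ _ := Nat.mul_le_mul_left _ h3

end Pool.Agent.H85.SB
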