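import Pool.Agent.H85.SB.Def
import Pool.Agent.H85.SF.Def

/-! # [H85 SB RED] Reduction to irreducible radicals

`ξ = (a/b)^(1/r) > 0`, `f` its minimal polynomial over `ℚ`, of degree `r₀`: all zeros of `f` have absolute value `ξ`, so `ξ^(r₀) = ± f(0) ∈ ℚ`, `f = X^(r₀) - c₀`, `c₀ = a₀/b₀ = ξ^(r₀)` in lowest terms. `r₀ ∣ r` (`ξ^(gcd) ∈ ℚ`), `r = r₀ m`, `a = a₀^m`, `b = b₀^m`.
`1 ≤ m ≤ r`; `|a - b| ≥ b₀^(m-1) |a₀ - b₀| ` (`a₀^m - b₀^m = (a₀ - b₀) ∑ ..`, one of the summands is `b₀^(m-1)`), so `|a₀-b₀|^r₀ b₀^(2+τ) ≤ b₀^r₀` follows from the same for `(r, a, b)`: `(b₀^(m-1) |a₀-b₀|)^(r₀ m) b₀^(m(2+τ)) ≤ b₀^(m r₀ m)`: `m`-th root. `n ≥ 1`, so `b₀ ≥ 2` and `r₀ = 1` is impossible.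
`log b = m log b₀ ≤ (r / r₀) log b₀`, and `10^6 r n (g+2) ≤ τ³ log b` gives `10^6 r₀ n (g+2) ≤ τ³ log b₀`.
`AtInf`: a number field `L` with a real embedding `σ` and `z ∈ L`, `b z^r = a`: `σ(z) = ± ξ`, `σ(z)^(r₀) = ± c₀`, so `z^(r₀) = ± c₀`; if `r₀` is even it is `c₀` (a positive real square), otherwise `z` or `-z` is a zero of `rd r₀ a₀ b₀`. -/

namespace Pool.Agent.H85.SB

/-- a positive real number with a rational power: its minimal polynomial is `X^d - c` -/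
private theorem red_min {ξ : ℝ} (hξ : 0 < ξ) {r : ℕ} (hr : 1 ≤ r) {q : ℚ} (hq : ξ ^ r = q) :
    ∃ (d : ℕ) (c : ℚ), 1 ≤ d ∧ d ∣ r ∧ 0 < c ∧ ξ ^ d = c ∧
      Irreducible (Polynomial.X ^ d - Polynomial.C c : Polynomial ℚ) := by
  have hmon : (Polynomial.X ^ r - Polynomial.C q : Polynomial ℚ).Monic :=
    Polynomial.monic_X_pow_sub_C q (by omega)
  have hz : Polynomial.aeval ξ (Polynomial.X ^ r - Polynomial.C q : Polynomial ℚ) = 0 := by
    simp [hq]
  have hint : IsIntegral ℚ ξ := ⟨_, hmon, by rwa [← Polynomial.aeval_def]⟩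
  obtain ⟨f, hf⟩ : ∃ f, f = minpoly ℚ ξ := ⟨_, rfl⟩
  have hfm : f.Monic := hf ▸ minpoly.monic hint
  have hfi : Irreducible f := hf ▸ minpoly.irreducible hint
  have hfz : Polynomial.aeval ξ f = 0 := hf ▸ minpoly.aeval ℚ ξ
  have hfd : ∀ p : Polynomial ℚ, Polynomial.aeval ξ p = 0 → f ∣ p := fun p hp => hf ▸ minpoly.dvd ℚ ξ hp
  have hd1 : 1 ≤ f.natDegree := hfi.natDegree_pos
  -- the roots
  have hroot : ∀ z ∈ (f.map (algebraMap ℚ ℂ)).roots, ‖z‖ = ξ := by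
    intro z hzr
    have h1 : (f.map (algebraMap ℚ ℂ)).eval z = 0 := (Polynomial.mem_roots'.mp hzr).2
    obtain ⟨p, hp⟩ := hfd _ hz
    have h2 : ((Polynomial.X ^ r - Polynomial.C q : Polynomial ℚ).map (algebraMap ℚ ℂ)).eval z = 0 := by
      rw [hp, Polynomial.map_mul, Polynomial.eval_mul, h1, zero_mul]
    have h3 : z ^ r = (q : ℂ) := by
      have : z ^ r - (q : ℂ) = 0 := by simpa using h2
      exact sub_eq_zero.mp this
    have h4 : ‖z‖ ^ r = ξ ^ r := by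
      rw [← norm_pow, h3, hq]
      have h5 : 0 < (q : ℝ) := by
        rw [← hq]
        positivity
      have h6 : ((q : ℚ) : ℂ) = (((q : ℚ) : ℝ) : ℂ) := by push_cast; rfl
      rw [h6, Complex.norm_real, Real.norm_of_nonneg h5.le]
    exact (pow_left_inj₀ (norm_nonneg _) hξ.le (by omega)).mp h4
  have hc0 : ‖(f.map (algebraMap ℚ ℂ)).coeff 0‖ = ξ ^ f.natDegree := by
    have hs : (f.map (algebraMap ℚ ℂ)).Splits := IsAlgClosed.splits _
    rw [hs.coeff_zero_eq_prod_roots_of_monic (hfm.map _), norm_mul, norm_pow, norm_neg, norm_one, one_pow, one_mul]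
    have h1 : ‖(f.map (algebraMap ℚ ℂ)).roots.prod‖ = ((f.map (algebraMap ℚ ℂ)).roots.map (fun z => ‖z‖)).prod := by
      exact map_multiset_prod (normHom : ℂ →*₀ ℝ) _
    have h2 : (f.map (algebraMap ℚ ℂ)).roots.map (fun z => ‖z‖) =
        Multiset.replicate (f.map (algebraMap ℚ ℂ)).roots.card ξ := by
      rw [Multiset.eq_replicate]
      refine ⟨by simp, ?_⟩
      intro b hb
      obtain ⟨z, hz1, rfl⟩ := Multiset.mem_map.mp hb
      exact hroot z hz1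
    rw [h1, h2, Multiset.prod_replicate, ← hs.natDegree_eq_card_roots, Polynomial.natDegree_map]
  have hc1 : ξ ^ f.natDegree = (|f.coeff 0| : ℚ) := by
    rw [← hc0, Polynomial.coeff_map]
    have h6 : algebraMap ℚ ℂ (f.coeff 0) = (((f.coeff 0 : ℚ) : ℝ) : ℂ) := by
      rw [eq_ratCast]
      push_cast
      rfl
    rw [h6, Complex.norm_real, Real.norm_eq_abs]
    push_cast
    rfl
  have hcpos : 0 < |f.coeff 0| := by
    have h1 : 0 < ξ ^ f.natDegree := by positivity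
    rw [hc1] at h1
    exact_mod_cast h1
  have hfe : f = Polynomial.X ^ f.natDegree - Polynomial.C |f.coeff 0| := by
    have h1 : f ∣ Polynomial.X ^ f.natDegree - Polynomial.C |f.coeff 0| := hfd _ (by
      simp only [map_sub, map_pow, Polynomial.aeval_X, Polynomial.aeval_C, hc1, eq_ratCast, sub_self])
    exact (Polynomial.eq_of_monic_of_dvd_of_natDegree_le hfm (Polynomial.monic_X_pow_sub_C _ (by omega)) h1
      (by rw [Polynomial.natDegree_X_pow_sub_C])).symm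
  refine ⟨f.natDegree, |f.coeff 0|, hd1, ?_, hcpos, hc1, hfe ▸ hfi⟩
  -- divisibility
  rw [Nat.dvd_iff_mod_eq_zero]
  by_contra hne
  have hlt : r % f.natDegree < f.natDegree := Nat.mod_lt _ hd1
  have h1 : ξ ^ (r % f.natDegree) = ((q / |f.coeff 0| ^ (r / f.natDegree) : ℚ) : ℝ) := by
    push_cast
    rw [eq_div_iff (by
      have : (0 : ℝ) < |(f.coeff 0 : ℝ)| := by exact_mod_cast hcpos
      positivity), ← hq]
    have h2 : |(f.coeff 0 : ℝ)| = ξ ^ f.natDegree := by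
      rw [hc1]
      push_cast
      rfl
    rw [h2, ← pow_mul, ← pow_add, Nat.mod_add_div]
  have h2 := hfd (Polynomial.X ^ (r % f.natDegree) - Polynomial.C (q / |f.coeff 0| ^ (r / f.natDegree))) (by
    simp only [map_sub, map_pow, Polynomial.aeval_X, Polynomial.aeval_C, h1, eq_ratCast, sub_self])
  have h3 := Polynomial.natDegree_le_of_dvd h2 (Polynomial.monic_X_pow_sub_C _ hne).ne_zero
  rw [Polynomial.natDegree_X_pow_sub_C] at h3
  omega

theorem red {F : MvPolynomial (Fin 2) ℤ} {r a b n g : ℕ} {τ : ℝ} (h0 : 0 < τ) (hr : 1 ≤ r) (hb : 1 ≤ b) (ha : 1 ≤ a)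
    (hc : Nat.Coprime a b) (hab : a ≠ b) (hn : 1 ≤ n) (hcl : |(a : ℝ) - b| ^ r * (b : ℝ) ^ (2 + τ) ≤ (b : ℝ) ^ r)
    (hlog : 10 ^ 6 * (r * n * (g + 2) : ℕ) ≤ τ ^ 3 * Real.log b)
    (hF : Pool.Agent.H85.SF.AtInf (rd r a b) F) :
    ∃ r₀ a₀ b₀ : ℕ, 2 ≤ r₀ ∧ 1 ≤ a₀ ∧ 1 ≤ b₀ ∧ a₀ ≠ b₀ ∧
      Irreducible (Polynomial.X ^ r₀ - Polynomial.C ((a₀ * b₀ ^ (r₀ - 1) : ℕ) : ℤ)) ∧
      Irreducible ((rd r₀ a₀ b₀).map (Int.castRingHom ℚ)) ∧
      |(a₀ : ℝ) - b₀| ^ r₀ * (b₀ : ℝ) ^ (2 + τ) ≤ (b₀ : ℝ) ^ r₀ ∧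
      10 ^ 6 * (r₀ * n * (g + 2) : ℕ) ≤ τ ^ 3 * Real.log b₀ ∧
      Pool.Agent.H85.SF.AtInf (rd r₀ a₀ b₀) F := by
  classical
  have haR : (1 : ℝ) ≤ a := by exact_mod_cast ha
  have hbR : (1 : ℝ) ≤ b := by exact_mod_cast hb
  have hq0 : (0 : ℝ) < (a : ℝ) / b := by positivity
  have hrR : (r : ℝ) ≠ 0 := by
    have : r ≠ 0 := by omega
    exact_mod_cast this
  obtain ⟨ξ, hξ⟩ : ∃ ξ : ℝ, ξ = ((a : ℝ) / b) ^ ((1 : ℝ) / r) := ⟨_, rfl⟩
  have hξ0 : 0 < ξ := by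
    rw [hξ]
    exact Real.rpow_pos_of_pos hq0 _
  have hξr : ξ ^ r = (a : ℝ) / b := by
    rw [hξ, ← Real.rpow_natCast, ← Real.rpow_mul hq0.le, one_div_mul_cancel hrR, Real.rpow_one]
  obtain ⟨d, c, hd1, ⟨m, hm⟩, hc0, hcξ, hirr⟩ := red_min (q := (a : ℚ) / b) hξ0 hr (by
    rw [hξr]
    push_cast
    rfl)
  have hm1 : 1 ≤ m := by
    rcases Nat.eq_zero_or_pos m with h | h
    · rw [h, mul_zero] at hm
      omega
    · exact h
  -- numerator and denominator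
  obtain ⟨a₀, ha₀⟩ : ∃ a₀ : ℕ, a₀ = c.num.natAbs := ⟨_, rfl⟩
  obtain ⟨b₀, hb₀⟩ : ∃ b₀ : ℕ, b₀ = c.den := ⟨_, rfl⟩
  have hcop : Nat.Coprime a₀ b₀ := by
    rw [ha₀, hb₀]
    exact c.reduced
  have hb1 : 1 ≤ b₀ := by
    rw [hb₀]
    exact c.den_pos
  have hnum : (a₀ : ℤ) = c.num := by
    rw [ha₀]
    exact Int.natAbs_of_nonneg (Rat.num_nonneg.mpr hc0.le)
  have ha1 : 1 ≤ a₀ := by
    have : (0 : ℤ) < a₀ := by
      rw [hnum]
      exact Rat.num_pos.mpr hc0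
    omega
  have hcab : c = (a₀ : ℚ) / b₀ := by
    have h1 : ((a₀ : ℤ) : ℚ) = (c.num : ℚ) := by rw [hnum]
    have h2 : ((a₀ : ℕ) : ℚ) = (c.num : ℚ) := by exact_mod_cast h1
    rw [h2, hb₀]
    exact (Rat.num_div_den c).symm
  have hbQ : (b₀ : ℚ) ≠ 0 := by
    have : b₀ ≠ 0 := by omega
    exact_mod_cast this
  have hbR0 : (0 : ℝ) < b₀ := by
    have : 0 < b₀ := by omega
    exact_mod_cast this
  have hcR : ξ ^ d = (a₀ : ℝ) / b₀ := by
    rw [hcξ, hcab]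
    push_cast
    rfl
  have hpow : (a₀ : ℝ) ^ m / (b₀ : ℝ) ^ m = (a : ℝ) / b := by
    rw [← div_pow, ← hcR, ← pow_mul, ← hm, hξr]
  have hcross : a₀ ^ m * b = a * b₀ ^ m := by
    have h1 : (a₀ : ℝ) ^ m * b = a * (b₀ : ℝ) ^ m := by
      rw [div_eq_div_iff (by positivity) (by positivity)] at hpow
      exact hpow
    exact_mod_cast h1
  have hcopm : Nat.Coprime (a₀ ^ m) (b₀ ^ m) := Nat.Coprime.pow m m hcop
  have hba : b = b₀ ^ m := by
    apply Nat.dvd_antisymm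
    · have h1 : b ∣ a * b₀ ^ m := ⟨a₀ ^ m, by rw [← hcross]; ring⟩
      exact hc.symm.dvd_of_dvd_mul_left h1
    · have h1 : b₀ ^ m ∣ a₀ ^ m * b := ⟨a, by rw [hcross]; ring⟩
      exact hcopm.symm.dvd_of_dvd_mul_left h1
  have haa : a = a₀ ^ m := by
    have h1 : a₀ ^ m * b = a * b := by rw [hcross, ← hba]
    exact (Nat.eq_of_mul_eq_mul_right (by omega) h1).symm
  have hne : a₀ ≠ b₀ := by
    intro h
    apply hab
    rw [haa, hba, h]
  -- closeness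
  have hcl0 : |(a₀ : ℝ) - b₀| ^ d * (b₀ : ℝ) ^ (2 + τ) ≤ (b₀ : ℝ) ^ d := by
    have h1 : (b₀ : ℝ) ^ (m - 1) * |(a₀ : ℝ) - b₀| ≤ |(a : ℝ) - b| := by
      have e1 : (a : ℝ) - b = ((a₀ : ℝ) - b₀) * ∑ i ∈ Finset.range m, (a₀ : ℝ) ^ i * (b₀ : ℝ) ^ (m - 1 - i) := by
        rw [haa, hba]
        push_cast
        rw [mul_comm]
        exact (Commute.geom_sum₂_mul (Commute.all _ _) m).symm
      rw [e1, abs_mul, mul_comm]
      have h2 : (b₀ : ℝ) ^ (m - 1) ≤ ∑ i ∈ Finset.range m, (a₀ : ℝ) ^ i * (b₀ : ℝ) ^ (m - 1 - i) := by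
        have h3 := Finset.single_le_sum (f := fun i => (a₀ : ℝ) ^ i * (b₀ : ℝ) ^ (m - 1 - i)) (s := Finset.range m)
          (fun i _ => by positivity) (Finset.mem_range.mpr (by omega : 0 < m))
        simpa using h3
      exact mul_le_mul_of_nonneg_left (h2.trans (le_abs_self _)) (abs_nonneg _)
    have h2 : ((b₀ : ℝ) ^ (m - 1) * |(a₀ : ℝ) - b₀|) ^ r * (b : ℝ) ^ (2 + τ) ≤ (b : ℝ) ^ r :=
      (mul_le_mul_of_nonneg_right (pow_le_pow_left₀ (by positivity) h1 r) (by positivity)).trans hcl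
    have h3 : (((b₀ : ℝ) ^ (m - 1) * |(a₀ : ℝ) - b₀|) ^ d * (b₀ : ℝ) ^ (2 + τ)) ^ m ≤ ((b₀ : ℝ) ^ (m * d)) ^ m := by
      have e1 : (b : ℝ) ^ (2 + τ) = ((b₀ : ℝ) ^ (2 + τ)) ^ m := by
        rw [hba]
        push_cast
        rw [← Real.rpow_natCast, ← Real.rpow_mul hbR0.le, ← Real.rpow_natCast, ← Real.rpow_mul hbR0.le, mul_comm]
      have e2 : (b : ℝ) ^ r = ((b₀ : ℝ) ^ (m * d)) ^ m := by
        rw [hba, hm]
        push_cast
        rw [← pow_mul, ← pow_mul]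
        congr 1
        ring
      rw [mul_pow, ← pow_mul, ← hm, ← e1, ← e2]
      exact h2
    have h4 := (pow_le_pow_iff_left₀ (by positivity) (by positivity) (by omega)).mp h3
    have e3 : (b₀ : ℝ) ^ (m * d) = ((b₀ : ℝ) ^ (m - 1)) ^ d * (b₀ : ℝ) ^ d := by
      rw [← pow_mul, ← pow_add]
      congr 1
      obtain ⟨m', rfl⟩ : ∃ m', m = m' + 1 := ⟨m - 1, by omega⟩
      rw [Nat.add_sub_cancel]
      ring
    rw [e3, mul_pow, mul_assoc] at h4
    exact le_of_mul_le_mul_left h4 (by positivity)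
  -- the logarithm
  have hlog0 : (10 ^ 6 * (d * n * (g + 2) : ℕ) : ℝ) ≤ τ ^ 3 * Real.log b₀ := by
    have e1 : Real.log b = m * Real.log b₀ := by
      rw [hba]
      push_cast
      exact Real.log_pow _ _
    rw [e1] at hlog
    have e2 : (10 ^ 6 * (r * n * (g + 2) : ℕ) : ℝ) = m * (10 ^ 6 * (d * n * (g + 2) : ℕ)) := by
      rw [hm]
      push_cast
      ring
    rw [e2] at hlog
    have hmR : (0 : ℝ) < m := by
      have : 0 < m := by omega
      exact_mod_cast this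
    have h1 : (m : ℝ) * (10 ^ 6 * (d * n * (g + 2) : ℕ)) ≤ m * (τ ^ 3 * Real.log b₀) := by
      calc (m : ℝ) * (10 ^ 6 * (d * n * (g + 2) : ℕ)) ≤ τ ^ 3 * (m * Real.log b₀) := hlog
        _ = m * (τ ^ 3 * Real.log b₀) := by ring
    exact le_of_mul_le_mul_left h1 hmR
  have hd2 : 2 ≤ d := by
    by_contra hlt
    have hd : d = 1 := by omega
    rw [hd, pow_one, pow_one] at hcl0
    have h1 : (1 : ℝ) ≤ |(a₀ : ℝ) - b₀| := by
      have h2 : (1 : ℤ) ≤ |(a₀ : ℤ) - b₀| := Int.one_le_abs (sub_ne_zero.mpr (by exact_mod_cast hne))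
      exact_mod_cast h2
    have hb1R : (1 : ℝ) ≤ b₀ := by exact_mod_cast hb1
    have h2 : (b₀ : ℝ) ^ (2 + τ) ≤ b₀ := by
      refine le_trans ?_ hcl0
      have : (0 : ℝ) ≤ (b₀ : ℝ) ^ (2 + τ) := by positivity
      nlinarith
    have h3 : b₀ = 1 := by
      by_contra hb2
      have hb3 : (1 : ℝ) < b₀ := by
        have : 1 < b₀ := by omega
        exact_mod_cast this
      have h4 : (b₀ : ℝ) ^ (1 : ℝ) < (b₀ : ℝ) ^ (2 + τ) := Real.rpow_lt_rpow_of_exponent_lt hb3 (by linarith)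
      rw [Real.rpow_one] at h4
      linarith
    rw [h3, Nat.cast_one, Real.log_one, mul_zero] at hlog0
    have h5 : (0 : ℝ) < 10 ^ 6 * (d * n * (g + 2) : ℕ) := by
      have : 0 < d * n * (g + 2) := by positivity
      have : (0 : ℝ) < (d * n * (g + 2) : ℕ) := by exact_mod_cast this
      positivity
    linarith
  refine ⟨d, a₀, b₀, hd2, ha1, hb1, hne, ?_, ?_, hcl0, hlog0, ?_⟩
  · -- the monic polynomial
    apply (Polynomial.monic_X_pow_sub_C _ (by omega)).irreducible_of_irreducible_map (Int.castRingHom ℚ)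
    let _ : Invertible ((b₀ : ℚ)⁻¹) := invertibleOfNonzero (inv_ne_zero hbQ)
    have e1 : (Polynomial.X ^ d - Polynomial.C ((a₀ * b₀ ^ (d - 1) : ℕ) : ℤ)).map (Int.castRingHom ℚ) =
        Polynomial.C ((b₀ : ℚ) ^ d) * Polynomial.algEquivCMulXAddC (b₀ : ℚ)⁻¹ 0 (Polynomial.X ^ d - Polynomial.C c) := by
      have e2 : Polynomial.algEquivCMulXAddC (b₀ : ℚ)⁻¹ 0 (Polynomial.X ^ d - Polynomial.C c) =
          Polynomial.C ((b₀ : ℚ)⁻¹ ^ d) * Polynomial.X ^ d - Polynomial.C c := by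
        rw [map_sub, map_pow]
        simp only [Polynomial.algEquivCMulXAddC_apply, Polynomial.aeval_X, Polynomial.aeval_C, map_zero, add_zero, mul_pow,
          Polynomial.C_pow, Polynomial.algebraMap_eq]
      rw [e2, mul_sub, ← mul_assoc, ← Polynomial.C_mul, ← Polynomial.C_mul, ← mul_pow, mul_inv_cancel₀ hbQ, one_pow,
        Polynomial.C_1, one_mul]
      simp only [Polynomial.map_sub, Polynomial.map_pow, Polynomial.map_C, Polynomial.map_X]
      congr 2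
      rw [hcab]
      obtain ⟨d', rfl⟩ : ∃ d', d = d' + 1 := ⟨d - 1, by omega⟩
      rw [Nat.add_sub_cancel]
      have e3 : (Int.castRingHom ℚ) ((a₀ * b₀ ^ d' : ℕ) : ℤ) = (a₀ : ℚ) * (b₀ : ℚ) ^ d' := by
        rw [eq_intCast]
        push_cast
        rfl
      rw [e3]
      field_simp
      ring
    rw [e1]
    refine (irreducible_isUnit_mul (Polynomial.isUnit_C.mpr (isUnit_iff_ne_zero.mpr (pow_ne_zero _ hbQ)))).mpr ?_
    exact (MulEquiv.irreducible_iff (Polynomial.algEquivCMulXAddC (b₀ : ℚ)⁻¹ 0)).mpr hirr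
  · have e1 : (rd d a₀ b₀).map (Int.castRingHom ℚ) = Polynomial.C (b₀ : ℚ) * (Polynomial.X ^ d - Polynomial.C c) := by
      rw [rd, hcab]
      simp only [Polynomial.map_sub, Polynomial.map_mul, Polynomial.map_pow, Polynomial.map_C, Polynomial.map_X,
        mul_sub, ← Polynomial.C_mul]
      rw [mul_div_cancel₀ _ hbQ]
      simp
    rw [e1]
    exact (irreducible_isUnit_mul (Polynomial.isUnit_C.mpr (isUnit_iff_ne_zero.mpr hbQ))).mpr hirr
  · intro L _ _ hne X Y hXY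
    rcases hF L hne X Y hXY with h | ⟨z, hz⟩
    · exact Or.inl h
    · right
      obtain ⟨σ⟩ := hne
      have hz1 : (b : L) * z ^ r = a := by
        have h1 : (b : L) * z ^ r - a = 0 := by
          simpa [rd] using hz
        exact sub_eq_zero.mp h1
      have hz2 : (σ z) ^ r = ξ ^ r := by
        have h1 := congrArg σ hz1
        rw [map_mul, map_pow, map_natCast, map_natCast] at h1
        rw [hξr, eq_div_iff (by positivity), mul_comm]
        exact h1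
      have hz3 : |σ z| = ξ := by
        have h1 : |σ z| ^ r = ξ ^ r := by
          rw [← abs_pow, hz2, abs_of_nonneg (by positivity)]
        exact (pow_left_inj₀ (abs_nonneg _) hξ0.le (by omega)).mp h1
      obtain ⟨z', hz'⟩ : ∃ z' : L, σ z' = ξ := by
        rcases abs_choice (σ z) with h | h
        · exact ⟨z, by rw [← h, hz3]⟩
        · exact ⟨-z, by rw [map_neg, ← h, hz3]⟩
      refine ⟨z', ?_⟩
      have h1 : (b₀ : L) * z' ^ d - a₀ = 0 := by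
        apply σ.injective
        rw [map_sub, map_mul, map_pow, map_natCast, map_natCast, map_zero, hz', hcR, mul_div_cancel₀ _ hbR0.ne', sub_self]
      simpa [rd] using h1

end Pool.Agent.H85.SB
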