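import Pool.Agent.H12.SF2.Pla
import Pool.Agent.H46.SF.Dif

/-! # [H85 SB RIP] Riemann's inequality for a plane curve of degree `d`: `(d-1)(d-2) ≤ 2 g` is enough

The functions `t^i y^j`, `j < d`, `i + j ≤ M`, are linearly independent and have weight at most `M`. -/

set_option autoImplicit false

namespace Pool.Agent.H85.SB

open Pool.Agent.H12.ON Pool.Agent.H12.OG Pool.Agent.H82.NS Pool.Agent.H46.SF Pool.Agent.H12.SF2 IntermediateField

private theorem rip_cnt {d : ℕ} (hd : 1 ≤ d) (M : ℕ) : d * M + 1 ≤ ∑ j ∈ Finset.range d, (M + 1 - j) + (d - 1) * (d - 2) / 2 := by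
  have h : ∀ d : ℕ, 2 * (d * M + 1) ≤ 2 * ∑ j ∈ Finset.range d, (M + 1 - j) + (d - 1) * (d - 2) ∨ d = 0 := by
    intro d
    induction d with
    | zero => exact Or.inr rfl
    | succ d ih =>
      left
      rw [Finset.sum_range_succ]
      rcases ih with ih | rfl
      · rcases Nat.lt_or_ge d 2 with h2 | h2
        · interval_cases d
          · simp at ih
          · simp
            omega
        · obtain ⟨e, rfl⟩ : ∃ e, d = e + 2 := ⟨d - 2, by omega⟩
          have h3 : (e + 2 + 1 - 1) * (e + 2 + 1 - 2) = (e + 2 - 1) * (e + 2 - 2) + 2 * (e + 1) := by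
            have e1 : e + 2 + 1 - 1 = e + 2 := by omega
            have e2 : e + 2 + 1 - 2 = e + 1 := by omega
            have e3 : e + 2 - 1 = e + 1 := by omega
            have e4 : e + 2 - 2 = e := by omega
            rw [e1, e2, e3, e4]
            ring
          rw [h3]
          have h4 : (e + 2 + 1) * M = (e + 2) * M + M := by ring
          rw [h4]
          have h5 : M ≤ (M + 1 - (e + 2)) + (e + 1) := by omega
          omega
      · simp
  rcases h d with h | rfl
  · have h1 : (d - 1) * (d - 2) / 2 * 2 = (d - 1) * (d - 2) := by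
      apply Nat.div_mul_cancel
      rcases Nat.even_or_odd d with ⟨e, he⟩ | ⟨e, he⟩
      · rcases Nat.eq_zero_or_pos e with h0 | h0
        · subst he; subst h0; simp
        · exact Dvd.dvd.mul_left ⟨e - 1, by omega⟩ _
      · exact Dvd.dvd.mul_right ⟨e, by omega⟩ _
    omega
  · omega

theorem ri_plane {k L : Type} [Field k] [CharZero k] [Field L] [Algebra k L] {t y : L} {d : ℕ} {f : Polynomial (Polynomial k)}
    (h : Mod k t y d f) {g : ℕ} (hg : (d - 1) * (d - 2) ≤ 2 * g) : Ri k t d g := by
  classical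
  intro M
  obtain ⟨S, hS⟩ : ∃ S : Finset (Σ _ : ℕ, ℕ), S = (Finset.range d).sigma (fun j => Finset.range (M + 1 - j)) := ⟨_, rfl⟩
  have hmem : ∀ p : S, p.1.1 < d ∧ p.1.2 + p.1.1 ≤ M := by
    intro p
    have h1 : p.1 ∈ (Finset.range d).sigma (fun j => Finset.range (M + 1 - j)) := hS ▸ p.2
    rw [Finset.mem_sigma, Finset.mem_range, Finset.mem_range] at h1
    omega
  have hcard : d * M + 1 - g ≤ Fintype.card S := by
    have h1 : Fintype.card S = ∑ j ∈ Finset.range d, (M + 1 - j) := by
      rw [Fintype.card_coe, hS, Finset.card_sigma]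
      exact Finset.sum_congr rfl fun j _ => Finset.card_range _
    rw [h1]
    have h2 := rip_cnt h.d1 M
    have h3 : (d - 1) * (d - 2) / 2 ≤ g := by omega
    omega
  have hli : LinearIndependent k (fun p : S => t ^ p.1.2 * y ^ p.1.1) := by
    rw [Fintype.linearIndependent_iff]
    intro c hc p
    obtain ⟨R, hR⟩ : ∃ R : Polynomial (Polynomial k), R = ∑ p : S,
      Polynomial.C (Polynomial.C (c p) * Polynomial.X ^ p.1.2) * Polynomial.X ^ p.1.1 := ⟨_, rfl⟩
    have h0 : evp t y R = 0 := by
      rw [hR, map_sum, ← hc]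
      refine Finset.sum_congr rfl fun p _ => ?_
      rw [map_mul, map_pow, evp_C, evp_X, map_mul, map_pow, Polynomial.aeval_C, Polynomial.aeval_X,
        Algebra.smul_def, mul_assoc]
    have hd : R.natDegree < d := by
      have h1 : R.natDegree ≤ d - 1 := by
        rw [hR]
        refine Polynomial.natDegree_sum_le_of_forall_le _ _ fun p _ => ?_
        refine (Polynomial.natDegree_C_mul_X_pow_le _ _).trans ?_
        have := (hmem p).1
        omega
      have := h.d1
      omega
    have h1 := mod_zero h hd h0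
    have h2 : (R.coeff p.1.1).coeff p.1.2 = c p := by
      rw [hR, Polynomial.finsetSum_coeff, Polynomial.finsetSum_coeff, Finset.sum_eq_single p]
      · rw [Polynomial.coeff_C_mul_X_pow, if_pos rfl, Polynomial.coeff_C_mul_X_pow, if_pos rfl]
      · intro p' _ hne
        rw [Polynomial.coeff_C_mul_X_pow]
        split_ifs with h3
        · rw [Polynomial.coeff_C_mul_X_pow]
          split_ifs with h4
          · exfalso
            apply hne
            apply Subtype.ext
            exact Sigma.ext h3.symm (heq_of_eq h4.symm)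
          · rfl
        · simp
      · intro h3
        exact absurd (Finset.mem_univ _) h3
    rw [← h2, h1, Polynomial.coeff_zero, Polynomial.coeff_zero]
  have hy := mod_wi h
  have ht0 : t ≠ 0 := by
    intro h0
    apply h.tr
    rw [h0]
    exact isAlgebraic_zero
  have hti : IsInt k t t := by
    show IsIntegral _ _
    exact isIntegral_algebraMap (R := Algebra.adjoin k {t}) (x := ⟨t, Algebra.subset_adjoin rfl⟩)
  have hti' : IsInt k t⁻¹ t⁻¹ := by
    show IsIntegral _ _
    exact isIntegral_algebraMap (R := Algebra.adjoin k {t⁻¹}) (x := ⟨t⁻¹, Algebra.subset_adjoin rfl⟩)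
  have hwi : ∀ p : S, Wi k t M (t ^ p.1.2 * y ^ p.1.1) := by
    intro p
    obtain ⟨h1, h2⟩ := hmem p
    constructor
    · exact IsIntegral.mul (IsIntegral.pow hti _) (IsIntegral.pow hy.1 _)
    · have h3 : t ^ p.1.2 * y ^ p.1.1 / t ^ M = t⁻¹ ^ (M - p.1.2 - p.1.1) * (y / t ^ 1) ^ p.1.1 := by
        obtain ⟨e, he⟩ : ∃ e, M = e + p.1.2 + p.1.1 := ⟨M - p.1.2 - p.1.1, by omega⟩
        have h4 : M - p.1.2 - p.1.1 = e := by omega
        rw [h4, he, pow_add, pow_add, pow_one, div_pow, inv_pow]
        field_simp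
      rw [h3]
      exact IsIntegral.mul (IsIntegral.pow hti' _) (IsIntegral.pow hy.2 _)
  obtain ⟨e⟩ : Nonempty (Fin (Fintype.card S) ≃ S) := ⟨(Fintype.equivFin S).symm⟩
  exact ⟨fun i => (fun p : S => t ^ p.1.2 * y ^ p.1.1) (e (Fin.castLE hcard i)),
    (hli.comp _ e.injective).comp _ (Fin.castLE_injective hcard), fun i => hwi _⟩

/-- Riemann's inequality from `GenusLE` or from the degree -/
theorem ri_gen {F : MvPolynomial (Fin 2) ℤ} {L : Type} [Field L] [CharZero L] {x y : L} {d c : ℕ}
    {f : Polynomial (Polynomial ℚ)} (w : Wq F x y d c f) {g : ℕ}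
    (hg : Pool.Agent.H85.SF.GenusLE F g ∨ (F.totalDegree - 1) * (F.totalDegree - 2) ≤ 2 * g) :
    Ri ℚ (x + c * y) d g := by
  rcases hg with hg | hg
  · exact ri_w w hg
  · rw [w.gd] at hg
    exact ri_plane w.md hg

end Pool.Agent.H85.SB
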