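import Pool.Agent.H85.SB.Cex
import Pool.Agent.H85.SB.Par
import Pool.Agent.H85.SB.Red
import Pool.Agent.H85.SB.JevP
import Pool.Agent.H85.SB.Rip
import Pool.Agent.H46.SF2.Cmg

/-! # [H85 SB CMP] COMPLETENESS, radicals (as `complete_w`, `completeG` in H46/SF2/Cmp, Cmg)

`red`, then the world of `F` over `ℚ`; one place at infinity (otherwise `Cer2`), real residue field (otherwise `Cer0`): `ginf`, `pt0_ex`, `gen_of`, `q = rd r₀ a₀ b₀`, `r₀ s ≤ n`, `par`, `cer_exP` with `N = r + a + b + t + kp`. -/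

set_option autoImplicit false

namespace Pool.Agent.H85.SB

open Pool.Agent.H98.AL Pool.Agent.H46.SF Pool.Agent.H46.SF2 Pool.Agent.H85.SA Pool.Agent.H85.SF Pool.Agent.H90.SF
  Pool.Agent.H82.NS Pool.Agent.H12.ON Pool.Agent.H12.OG Pool.Agent.H12.SF2 Pool.Agent.H90.SF2 IntermediateField Filter
  Pool.Agent.H65.RG

private theorem complete_wS {F : P2} {L : Type} [Field L] [CharZero L] {x y : L} {d c : ℕ} {f : Polynomial (Polynomial ℚ)}
    (w : Wq F x y d c f) {O : ValuationSubring L} (hinf : Inf ℚ (x + c * y) O)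
    (huni : ∀ V : ValuationSubring L, Inf ℚ (x + c * y) V → V = O) {r a b g : ℕ} {τ : ℝ}
    (h0 : 0 < τ) (h1 : τ ≤ 1) (hr : 2 ≤ r) (hb : 1 ≤ b) (hab : a ≠ b)
    (hi : Irreducible (Polynomial.X ^ r - Polynomial.C ((a * b ^ (r - 1) : ℕ) : ℤ)))
    (hqi : Irreducible ((rd r a b).map (Int.castRingHom ℚ)))
    (hcl : |(a : ℝ) - b| ^ r * (b : ℝ) ^ (2 + τ) ≤ (b : ℝ) ^ r)
    (hlog : 10 ^ 6 * (r * F.totalDegree * (g + 2) : ℕ) ≤ τ ^ 3 * Real.log b)
    (ha : AtInf (rd r a b) F) (hg : Ri ℚ (x + c * y) d g) :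
    (∃ Z, Cer0 F Z) ∨ ∃ Z, CerS F Z := by
  have hdr : (rd r a b).natDegree = r := (rd_deg (by omega) hb).1
  by_cases hre : Nonempty (IsLocalRing.ResidueField O →+* ℝ)
  · right
    obtain ⟨⟨g0, hg0O, hg0⟩, α, hα⟩ := ginf w.ff hinf w.z' ((inf_iff w).1 hinf).2 ha hre
    have hdq : ((rd r a b).map (Int.castRingHom ℚ)).natDegree = r := by
      rw [Polynomial.natDegree_map_eq_of_injective Int.cast_injective, hdr]
    obtain ⟨π, e, s, z, hp⟩ := pt0_ex w.ff w.rc hinf huni hqi hg0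
    have hgen := gen_of hg w.ff hinf w.fin.le hp.π0 hp.πm hp.unf hp.e1 hp.x1 hp.x2 hqi hg0O hg0 hp.zO
      hp.zi hp.zs
    have hpt := hp.pt hgen
    have hrs : r * s ≤ F.totalDegree := by
      have h2 := hp.es
      rw [hdq] at h2
      calc r * s = 1 * (r * s) := (one_mul _).symm
        _ ≤ e * (r * s) := Nat.mul_le_mul_right _ hp.e1
        _ ≤ _ := h2
        _ = d := w.fin
        _ = F.totalDegree := w.gd.symm
    obtain ⟨M, t, w', kp, hnum, hM1, hM2, hM3⟩ := par h0 h1 hp.s1 (by omega) hrs hb hab hcl hlog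
    have hle : (MvPolynomial.map (Int.castRingHom ℚ) F).totalDegree ≤ d := by
      rw [← w.gd]
      exact Finset.sup_mono (MvPolynomial.support_map_subset (Int.castRingHom ℚ) F)
    obtain ⟨Z, D, hZ, hs, hc⟩ := cer_exP (lc_of hle w.ct).2 (fld_w w) hp hpt (by rw [hdr]; exact hr) hM1
      (by rw [hdr]; exact hM2) (by rw [hdr]; exact hM3) (r + a + b + t + kp)
    subst hs
    exact ⟨Z, r, a, b, M, t, w', kp, D, hr, by omega, by omega, by omega, by omega, by omega, hi, hnum, hc⟩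
  · left
    refine cer0_of w fun V hV => ?_
    rw [huni V hV]
    exact not_nonempty_iff.1 hre

theorem completeS {F : P2} {r a b g : ℕ} {τ : ℝ}
    (hF : Irreducible (MvPolynomial.map (Int.castRingHom (AlgebraicClosure ℚ)) F))
    (h0 : 0 < τ) (h1 : τ ≤ 1) (hr : 1 ≤ r) (hb : 1 ≤ b) (ha : 1 ≤ a) (hc : Nat.Coprime a b) (hab : a ≠ b)
    (hcl : |(a : ℝ) - b| ^ r * (b : ℝ) ^ (2 + τ) ≤ (b : ℝ) ^ r)
    (hlog : 10 ^ 6 * (r * F.totalDegree * (g + 2) : ℕ) ≤ τ ^ 3 * Real.log b)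
    (hA : Pool.Agent.H85.SF.AtInf (rd r a b) F)
    (hg : Pool.Agent.H85.SF.GenusLE F g ∨ (F.totalDegree - 1) * (F.totalDegree - 2) ≤ 2 * g) :
    (∃ Z, Cer0 F Z) ∨ (∃ (Z : ℕ) (d : Dr), Cer2 F Z d) ∨ ∃ Z, CerS F Z := by
  by_cases hone : OnePlace F
  · obtain ⟨L, i1, i2, x, y, d, c, f, w⟩ := wq_ex hF
    obtain ⟨O, hinf, huni⟩ := one_inf w hone
    have hn : 1 ≤ F.totalDegree := by rw [w.gd]; exact w.d1
    obtain ⟨r₀, a₀, b₀, hr₀, -, hb₀, hab₀, hi, hqi, hcl₀, hlog₀, hA₀⟩ :=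
      red h0 hr hb ha hc hab hn hcl hlog hA
    rcases complete_wS w hinf huni h0 h1 hr₀ hb₀ hab₀ hi hqi hcl₀ hlog₀ hA₀ (ri_gen w hg) with h | h
    · exact Or.inl h
    · exact Or.inr (Or.inr h)
  · exact Or.inr (Or.inl (two_places hF hone))

end Pool.Agent.H85.SB
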