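import Pool.Agent.H85.SB.Prf

/-! # [H85 SB DAT] The numerical data of one bad point, radicals

`α` a real zero of `b X^r - a`, close to `c = ±1`; pole order `M`, jets of order `2t+1`. As `Dat2` (H77/SA/Dt2). `l` bounds the degrees of the `bb`. -/

namespace Pool.Agent.H85.SB

open Finset Polynomial

structure Dat3 (r s m M t l : ℕ) (A : ℝ) (a b : ℕ) (α : ℝ) (c : ℤ) (π : ℝ) (z : Fin s → ℝ)
    (bb : Fin m → Fin s → ℕ → ℤ[X]) (e : ℤ) (Yv : Fin m → ℤ) : Prop where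
  r2 : 2 ≤ r
  s1 : 1 ≤ s
  A2 : 2 ≤ A
  a1 : 1 ≤ a
  b1 : 1 ≤ b
  aA : (a : ℝ) ≤ A
  bA' : (b : ℝ) ≤ A
  a2 : a ≤ 2 * b
  irr : Irreducible (X ^ r - C ((a * b ^ (r - 1) : ℕ) : ℤ) : ℤ[X])
  root : (b : ℝ) * α ^ r = a
  cc : c = 1 ∨ c = -1
  near : |α - c| ≤ 1 / 2
  π0 : 0 < |π|
  zA : ∀ i, |z i| ≤ A
  deg : ∀ k i, ∀ u < 2 * t + 1, (bb k i u).natDegree ≤ l
  bA : ∀ k i u, u < 2 * t + 1 → ∀ β : ℂ, (b : ℂ) * β ^ r = a → (b : ℝ) ^ (r + l) * 2 ^ r * ‖aeval β (bb k i u)‖ ≤ A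
  e1 : 1 ≤ e
  eA : (e : ℝ) ≤ A
  Y0 : ∃ k, Yv k ≠ 0
  app : ∀ k, |π ^ M * ((Yv k : ℝ) / e) -
    ∑ i, ∑ u ∈ range (2 * t + 1), aeval α (bb k i u) * z i * π ^ u| ≤ A * |π| ^ (2 * t + 1)
  sur : ∃ β : Fin r → ℂ, Function.Injective β ∧ (∀ j, (b : ℂ) * β j ^ r = a) ∧
    ∀ k < 2 * t + 1, ∀ τ : Fin r → Fin s → ℕ → ℂ, ∃ v : Fin m → ℂ,
      ∀ j : Fin r, ∀ i, ∀ u < prf r t k j, ∑ k', v k' * aeval (β j) (bb k' i u) = τ j i u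

end Pool.Agent.H85.SB
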