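import Pool.Agent.H85.SB.Stg

/-! # [H85 SB EXA] The class `F = b x^n - a y^n + (terms of degree < n)` -/

set_option autoImplicit false

namespace Pool.Agent.H85.SB

open Pool.Agent.H98.AL

private noncomputable abbrev ofP (L : Type) [Field L] : PowerSeries L →+* LaurentSeries L :=
  HahnSeries.ofPowerSeries ℤ L

private theorem exa_rng {L : Type} [Field L] (X : LaurentSeries L) :
    ∃ (k : ℕ) (A : PowerSeries L), ofP L A = ofP L PowerSeries.X ^ k * X := by
  rcases le_or_gt 0 X.order with h | h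
  · refine ⟨0, PowerSeries.X ^ X.order.toNat * X.powerSeriesPart, ?_⟩
    rw [pow_zero, one_mul]
    exact LaurentSeries.X_order_mul_powerSeriesPart (Int.toNat_of_nonneg h)
  · refine ⟨(-X.order).toNat, X.powerSeriesPart, ?_⟩
    rw [← map_pow]
    have h1 := LaurentSeries.ofPowerSeries_powerSeriesPart X
    have h2 : ((-X.order).toNat : ℤ) = -X.order := Int.toNat_of_nonneg (by omega)
    show HahnSeries.ofPowerSeries ℤ L X.powerSeriesPart = HahnSeries.ofPowerSeries ℤ L (PowerSeries.X ^ _) * X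
    rw [h1, HahnSeries.ofPowerSeries_X_pow, h2]

private theorem exa_deg {R : P2} {m : Fin 2 →₀ ℕ} (hm : m ∈ R.support) : m 0 + m 1 ≤ R.totalDegree := by
  refine le_of_eq_of_le ?_ (MvPolynomial.le_totalDegree hm)
  rw [Finsupp.sum_fintype _ _ (fun _ => rfl), Fin.sum_univ_two]

private theorem exa_key {L : Type} [Field L] {n a b : ℕ} {R : P2} (hR : R.totalDegree < n)
    {X Y : LaurentSeries L}
    (h0 : MvPolynomial.eval₂ (Int.castRingHom (LaurentSeries L)) ![X, Y]
      (MvPolynomial.C (b : ℤ) * MvPolynomial.X 0 ^ n - MvPolynomial.C (a : ℤ) * MvPolynomial.X 1 ^ n + R) = 0)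
    {k : ℕ} (hk : 1 ≤ k) {A B : PowerSeries L} (hA : ofP L A = ofP L PowerSeries.X ^ k * X)
    (hB : ofP L B = ofP L PowerSeries.X ^ k * Y) :
    (b : L) * (PowerSeries.constantCoeff A) ^ n = a * (PowerSeries.constantCoeff B) ^ n := by
  have h1 : (b : PowerSeries L) * A ^ n - a * B ^ n + ∑ m ∈ R.support, ((MvPolynomial.coeff m R : ℤ) : PowerSeries L) *
      (PowerSeries.X ^ (k * (n - (m 0 + m 1))) * A ^ m 0 * B ^ m 1) = 0 := by
    apply HahnSeries.ofPowerSeries_injective (Γ := ℤ)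
    show ofP L _ = ofP L 0
    rw [map_zero, map_add, map_sub, map_mul, map_mul, map_natCast, map_natCast, map_pow, map_pow, hA, hB, map_sum]
    rw [MvPolynomial.eval₂_add, MvPolynomial.eval₂_sub, MvPolynomial.eval₂_mul, MvPolynomial.eval₂_mul,
      MvPolynomial.eval₂_C, MvPolynomial.eval₂_C, MvPolynomial.eval₂_pow, MvPolynomial.eval₂_pow, MvPolynomial.eval₂_X,
      MvPolynomial.eval₂_X] at h0
    have h2 : ofP L PowerSeries.X ^ (k * n) * ((b : LaurentSeries L) * X ^ n - a * Y ^ n +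
        MvPolynomial.eval₂ (Int.castRingHom (LaurentSeries L)) ![X, Y] R) = 0 := by
      have h3 : (b : LaurentSeries L) * X ^ n - a * Y ^ n +
          MvPolynomial.eval₂ (Int.castRingHom (LaurentSeries L)) ![X, Y] R = 0 := by
        rw [← h0]
        simp
      rw [h3, mul_zero]
    rw [← h2, MvPolynomial.eval₂_eq', mul_add, Finset.mul_sum]
    congr 1
    · rw [mul_pow, mul_pow, ← pow_mul]
      ring
    · refine Finset.sum_congr rfl fun m hm => ?_
      have hm1 : m 0 + m 1 ≤ n := (exa_deg hm).trans hR.le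
      rw [Fin.prod_univ_two, map_mul, map_intCast, map_mul, map_mul, map_pow, map_pow, map_pow, hA, hB, mul_pow, mul_pow,
        ← pow_mul, ← pow_mul]
      have h6 : k * n = k * (n - (m 0 + m 1)) + k * m 0 + k * m 1 := by
        rw [← mul_add, ← mul_add]
        congr 1
        omega
      rw [h6, pow_add, pow_add]
      simp only [eq_intCast, Matrix.cons_val_zero, Matrix.cons_val_one]
      ring
  have h2 := congrArg (PowerSeries.constantCoeff (R := L)) h1
  rw [map_zero, map_add, map_sub, map_mul, map_mul, map_natCast, map_natCast, map_pow, map_pow, map_sum,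
    Finset.sum_eq_zero, add_zero, sub_eq_zero] at h2
  · exact h2
  · intro m hm
    have hm1 : m 0 + m 1 < n := (exa_deg hm).trans_lt hR
    rw [map_mul, map_mul, map_mul, map_pow, PowerSeries.constantCoeff_X, zero_pow, zero_mul, zero_mul, mul_zero]
    exact Nat.mul_ne_zero (by omega) (by omega)

theorem atInf_lead {n a b : ℕ} {R : P2} (ha : 1 ≤ a) (hb : 1 ≤ b) (hR : R.totalDegree < n) :
    Pool.Agent.H85.SF.AtInf (rd n a b)
      (MvPolynomial.C (b : ℤ) * MvPolynomial.X 0 ^ n - MvPolynomial.C (a : ℤ) * MvPolynomial.X 1 ^ n + R) := by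
  classical
  intro L _ _ _ X Y h0
  have hchar : CharZero L := inferInstance
  -- a common power
  have hex : ∃ k : ℕ, (∃ A, ofP L A = ofP L PowerSeries.X ^ k * X) ∧ ∃ B, ofP L B = ofP L PowerSeries.X ^ k * Y := by
    obtain ⟨k, A, hA⟩ := exa_rng X
    obtain ⟨l, B, hB⟩ := exa_rng Y
    refine ⟨k + l, ⟨PowerSeries.X ^ l * A, ?_⟩, ⟨PowerSeries.X ^ k * B, ?_⟩⟩
    · rw [map_mul, map_pow, hA, pow_add]
      ring
    · rw [map_mul, map_pow, hB, pow_add]
      ring
  obtain ⟨⟨A, hA⟩, B, hB⟩ := Nat.find_spec hex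
  rcases Nat.eq_zero_or_pos (Nat.find hex) with hk | hk
  · left
    rw [hk, pow_zero, one_mul] at hA hB
    exact ⟨⟨A, hA⟩, ⟨B, hB⟩⟩
  · right
    have h1 := exa_key hR h0 hk hA hB
    have hn : n ≠ 0 := by omega
    have hb0 : (b : L) ≠ 0 := Nat.cast_ne_zero.2 (by omega)
    have ha0 : (a : L) ≠ 0 := Nat.cast_ne_zero.2 (by omega)
    have h2 : PowerSeries.constantCoeff B ≠ 0 := by
      intro hB0
      have hA0 : PowerSeries.constantCoeff A = 0 := by
        rw [hB0, zero_pow hn, mul_zero] at h1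
        exact pow_eq_zero_iff hn |>.1 ((mul_eq_zero.1 h1).resolve_left hb0)
      obtain ⟨A', hA'⟩ := PowerSeries.X_dvd_iff.2 hA0
      obtain ⟨B', hB'⟩ := PowerSeries.X_dvd_iff.2 hB0
      obtain ⟨k', hk'⟩ : ∃ k', Nat.find hex = k' + 1 := ⟨Nat.find hex - 1, by omega⟩
      have hX : ofP L PowerSeries.X ≠ 0 := by
        intro h
        have h3 : ofP L PowerSeries.X = ofP L 0 := by rw [h, map_zero]
        exact PowerSeries.X_ne_zero (HahnSeries.ofPowerSeries_injective (Γ := ℤ) h3)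
      refine Nat.find_min hex (m := k') (by omega) ⟨⟨A', ?_⟩, ⟨B', ?_⟩⟩
      · apply mul_left_cancel₀ hX
        rw [← map_mul, ← hA', hA, hk', pow_succ]
        ring
      · apply mul_left_cancel₀ hX
        rw [← map_mul, ← hB', hB, hk', pow_succ]
        ring
    refine ⟨PowerSeries.constantCoeff A / PowerSeries.constantCoeff B, ?_⟩
    unfold rd
    rw [map_sub, map_mul, map_pow, Polynomial.aeval_X, Polynomial.aeval_C, Polynomial.aeval_C, div_pow, ← mul_div_assoc]
    simp only [map_natCast, algebraMap_int_eq]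
    rw [h1, mul_div_assoc, div_self (pow_ne_zero _ h2), mul_one, sub_self]

/-- the polynomials `b x^n - a y^n + R`, `deg R < n`, `a/b` very close to `1` -/
theorem exa {n a b : ℕ} {τ : ℝ} {R : P2} (hc : Nat.Coprime a b) (hab : a ≠ b) (ha : 1 ≤ a) (hb : 1 ≤ b)
    (h0 : 0 < τ) (h1 : τ ≤ 1) (hR : R.totalDegree < n) (hcl : |(a : ℝ) - b| ^ n * (b : ℝ) ^ (2 + τ) ≤ (b : ℝ) ^ n)
    (hlog : 10 ^ 6 * (n : ℝ) ^ 4 ≤ τ ^ 3 * Real.log b) :
    ClR (MvPolynomial.C (b : ℤ) * MvPolynomial.X 0 ^ n - MvPolynomial.C (a : ℤ) * MvPolynomial.X 1 ^ n + R) := by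
  have hb2 : 2 ≤ b := by
    by_contra h
    have h2 : b = 1 := by omega
    rw [h2, Nat.cast_one, Real.log_one, mul_zero] at hlog
    have h3 : (1 : ℝ) ≤ n := by exact_mod_cast (show 1 ≤ n by omega)
    have h4 : (1 : ℝ) ≤ (n : ℝ) ^ 4 := one_le_pow₀ h3
    linarith
  have hn : 3 ≤ n := by
    by_contra h
    have hb1 : (1 : ℝ) < b := by exact_mod_cast hb2
    have h2 : (b : ℝ) ^ n ≤ (b : ℝ) ^ 2 := pow_le_pow_right₀ hb1.le (by omega)
    have h3 : (b : ℝ) ^ 2 < (b : ℝ) ^ (2 + τ) := by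
      rw [← Real.rpow_natCast]
      exact Real.rpow_lt_rpow_of_exponent_lt hb1 (by push_cast; linarith)
    have h4 : (1 : ℝ) ≤ |(a : ℝ) - b| := by
      have h5 : (1 : ℤ) ≤ |(a : ℤ) - b| := Int.one_le_abs (by omega)
      exact_mod_cast h5
    have h5 : (1 : ℝ) ≤ |(a : ℝ) - b| ^ n := one_le_pow₀ h4
    have h6 : (b : ℝ) ^ (2 + τ) ≤ |(a : ℝ) - b| ^ n * (b : ℝ) ^ (2 + τ) :=
      le_mul_of_one_le_left (Real.rpow_nonneg (by linarith) _) h5
    linarith
  have hd : (MvPolynomial.C (b : ℤ) * MvPolynomial.X 0 ^ n - MvPolynomial.C (a : ℤ) * MvPolynomial.X 1 ^ n + R :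
      P2).totalDegree ≤ n := by
    refine (MvPolynomial.totalDegree_add _ _).trans (max_le ((MvPolynomial.totalDegree_sub _ _).trans (max_le ?_ ?_)) hR.le)
    · refine (MvPolynomial.totalDegree_mul _ _).trans ?_
      rw [MvPolynomial.totalDegree_C, zero_add, MvPolynomial.totalDegree_X_pow]
    · refine (MvPolynomial.totalDegree_mul _ _).trans ?_
      rw [MvPolynomial.totalDegree_C, zero_add, MvPolynomial.totalDegree_X_pow]
  refine ⟨n, a, b, n ^ 2 - 2, τ, hc, hab, by omega, ha, hb, h0, h1, hcl, ?_, atInf_lead ha hb hR, Or.inr ?_⟩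
  · refine le_trans ?_ hlog
    have h2 : n * (MvPolynomial.C (b : ℤ) * MvPolynomial.X 0 ^ n - MvPolynomial.C (a : ℤ) * MvPolynomial.X 1 ^ n + R :
      P2).totalDegree * (n ^ 2 - 2 + 2) ≤ n ^ 4 := by
      have h3 : n ^ 2 - 2 + 2 = n ^ 2 := by
        have h4 : 2 ≤ n ^ 2 := by nlinarith
        omega
      rw [h3]
      calc _ ≤ n * n * n ^ 2 := by gcongr
        _ = n ^ 4 := by ring
    have h3 : ((n * (MvPolynomial.C (b : ℤ) * MvPolynomial.X 0 ^ n - MvPolynomial.C (a : ℤ) * MvPolynomial.X 1 ^ n + R :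
      P2).totalDegree * (n ^ 2 - 2 + 2) : ℕ) : ℝ) ≤ (n : ℝ) ^ 4 := by exact_mod_cast h2
    linarith
  · have h2 : 9 ≤ n ^ 2 := by nlinarith
    calc _ ≤ n * n := Nat.mul_le_mul (by omega) (by omega)
      _ = n ^ 2 := (sq n).symm
      _ ≤ 2 * (n ^ 2 - 2) := by omega

end Pool.Agent.H85.SB
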