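import Pool.Agent.H85.SF.Jel
import Pool.Agent.H90.SF.Esx
import Pool.Agent.H90.SF.Lbp

/-! # [H85 SB JEL] Jets with profiles (as H85/SF/Gej, Jel)

Pole order `M`, jets of order `U`, a profile `p j ≤ U` with `s ∑ p j + γ ≤ r s (M - m₀)`, `m₀ = 2γ/(r s) + 1 ≤ M`. In `gej` the numbers `U` for `q ∈ T` become `u q` (`∑ u q + γ ≤ ρ (N - m₀)`, the conclusion for all `q` with `N - u q`); in `jel_sj` one takes
`u q = p (jj q)` (at most `s` geometric points over every root). -/

namespace Pool.Agent.H85.SB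

open Pool.Agent.H85.SF Pool.Agent.H90.SF Pool.Agent.H82.NS Pool.Agent.H8.OA Pool.Agent.H12.ON Pool.Agent.H12.OG IntermediateField

/-- the expansions of a basis of the functions of pole order at most `M`, jets of order `U` -/
structure BasP (k : Type) {L : Type} [Field k] [Field L] [Algebra k L] (x : L) (O : ValuationSubring L)
    (P : Polynomial k) (g π : L) (s : ℕ) (z : Fin s → L) (M U m : ℕ) (φ : Fin m → L) (g' : L)
    (b : Fin m → Fin s → Fin U → Polynomial k) : Prop where
  m1 : 0 < m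
  li : LinearIndependent k φ
  int : ∀ i, IsInt k x (φ i)
  pol : ∀ i, π ^ M * φ i ∈ O
  gO : g' ∈ O
  gm : g' - g ∈ O.nonunits
  Pg : Polynomial.aeval g' P / π ^ U ∈ O
  exp : ∀ j, (π ^ M * φ j - ∑ i, ∑ u : Fin U, Polynomial.aeval g' (b j i u) * z i * π ^ (u : ℕ)) / π ^ U ∈ O

/-- surjectivity onto the jets, for all profiles within the capacity `cap` -/
def SjP {k : Type} [Field k] (P : Polynomial k) {s U m : ℕ} (cap : ℕ) (b : Fin m → Fin s → Fin U → Polynomial k)
    (F : Type) [Field F] [Algebra k F] : Prop :=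
  ∀ (al : Fin P.natDegree → F), Function.Injective al → (∀ j, Polynomial.aeval (al j) P = 0) →
    ∀ p : Fin P.natDegree → ℕ, (∀ j, p j ≤ U) → s * ∑ j, p j ≤ cap →
      ∀ c : Fin P.natDegree → Fin s → Fin U → F, ∃ w : Fin m → F, ∀ j, ∀ i, ∀ u : Fin U,
        (u : ℕ) < p j → ∑ l, w l * Polynomial.aeval (al j) (b l i u) = c j i u

private theorem gejp_mono {F : Type} [Field F] {f : LaurentSeries F} {n m : ℤ} (h : Pole f n)
    (hnm : n ≤ m) : Pole f m := fun i hi => h i (by omega)

private theorem gejp_sub {F : Type} [Field F] {f g : LaurentSeries F} {n : ℤ} (hf : Pole f n)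
    (hg : Pole g n) : Pole (f - g) n := by
  intro i hi
  rw [HahnSeries.coeff_sub, hf i hi, hg i hi, sub_zero]

private theorem gejp_mul {F : Type} [Field F] {f g : LaurentSeries F} {n m : ℤ} (hf : Pole f n)
    (hg : Pole g m) : Pole (f * g) (n + m) := by
  intro i hi
  rw [HahnSeries.coeff_mul]
  refine Finset.sum_eq_zero fun p hp => ?_
  rw [Finset.mem_antidiagonal] at hp
  obtain ⟨-, -, h3⟩ := hp
  rcases lt_or_ge p.1 (-n) with h4 | h4
  · rw [hf _ h4, zero_mul]
  · rw [hg p.2 (by omega), mul_zero]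

private theorem gejp_ex {F : Type} [Field F] (f : LaurentSeries F) : ∃ N : ℕ, Pole f N := by
  refine ⟨(-f.order).toNat, fun i hi => ?_⟩
  have h1 := Int.self_le_toNat (-f.order)
  exact HahnSeries.coeff_eq_zero_of_lt_order (by omega)

theorem gejP {k L F : Type} [Field k] [CharZero k] [Field L] [Algebra k L] [Field F] [Algebra k F] [IsAlgClosed F]
    [Algebra.IsAlgebraic k F] {x : L} {O : ValuationSubring L} {P : Polynomial k} {g π : L} {s γ : ℕ} {z : Fin s → L}
    (h : Pt k x O P g π s γ z) (hρ0 : 0 < P.natDegree * s) {N : ℕ}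
    (hm0 : 2 * γ / (P.natDegree * s) + 1 ≤ N)
    {e : Fin (P.natDegree * s) → (L →ₐ[k] LaurentSeries F)} (he : Es k O π e)
    {U : Fin (P.natDegree * s) → ℕ}
    (hT : ∑ q, U q + γ ≤ P.natDegree * s * (N - (2 * γ / (P.natDegree * s) + 1)))
    {τ : Fin (P.natDegree * s) → LaurentSeries F} (hτ : ∀ q, Pole (τ q) (N : ℤ)) :
    ∃ φ ∈ Lb k x O π e N, ∀ q, Pole (τ q - φ q) ((N : ℤ) - U q) := by
  classical
  obtain ⟨m, v, hv, hvL, -, hdim⟩ := ls_fin h (N - (2 * γ / (P.natDegree * s) + 1))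
  have hlt : ∑ q, U q < m := by omega
  have hli := lb_dim (F := F) (e := e) h hρ0 hv
  have hmem : ∀ c : Fin m → F, (∑ i, c i • fun q => e q (v i)) ∈
      Lb k x O π e (N - (2 * γ / (P.natDegree * s) + 1)) := fun c =>
    Submodule.sum_mem _ fun i _ => Submodule.smul_mem _ _ (Submodule.subset_span ⟨v i, hvL i, rfl⟩)
  set n : ℕ := N - (2 * γ / (P.natDegree * s) + 1) with hn
  set m0 : ℕ := 2 * γ / (P.natDegree * s) + 1 with hm0'
  -- the conditions
  let A : (Fin m → F) →ₗ[F] ((Σ q : Fin (P.natDegree * s), Fin (U q)) → F) :=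
    { toFun := fun c p => ∑ i, c i * (e p.1 (v i)).coeff (-(n : ℤ) + (p.2 : ℕ))
      map_add' := fun c d => by
        funext p
        simp only [Pi.add_apply, add_mul, Finset.sum_add_distrib]
      map_smul' := fun a c => by
        funext p
        simp only [Pi.smul_apply, smul_eq_mul, mul_assoc, Finset.mul_sum, RingHom.id_apply] }
  have hker : LinearMap.ker A ≠ ⊥ := by
    refine LinearMap.ker_ne_bot_of_finrank_lt ?_
    rw [Module.finrank_fintype_fun_eq_card, Module.finrank_fintype_fun_eq_card, Fintype.card_sigma, Fintype.card_fin]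
    simp only [Fintype.card_fin]
    exact hlt
  obtain ⟨c, hc, hc0⟩ := (Submodule.ne_bot_iff _).1 hker
  rw [LinearMap.mem_ker] at hc
  set f : Fin (P.natDegree * s) → LaurentSeries F := ∑ i, c i • fun q => e q (v i) with hf
  have hfm : f ∈ Lb k x O π e n := hmem c
  have hf0 : f ≠ 0 := fun h0 => hc0 (funext (Fintype.linearIndependent_iff.1 hli c h0))
  have hfq : ∀ q, f q ≠ 0 := lb_ne h hfm hf0
  have hfc : ∀ q (j : ℤ), (f q).coeff j = ∑ i, c i * (e q (v i)).coeff j := by
    intro q j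
    rw [hf, Finset.sum_apply, HahnSeries.coeff_sum]
    refine Finset.sum_congr rfl fun i _ => ?_
    rw [Pi.smul_apply, HahnSeries.coeff_smul, smul_eq_mul]
  have hfT : ∀ q, Pole (f q) ((n : ℤ) - U q) := by
    intro q j hj
    rcases lt_or_ge j (-(n : ℤ)) with h1 | h1
    · exact lb_pole h he hfm q j h1
    · have h2 := congrFun hc ⟨q, ⟨(j + n).toNat, by omega⟩⟩
      have h3 : (-(n : ℤ) + ((j + n).toNat : ℕ)) = j := by omega
      rw [hfc]
      simp only [A, LinearMap.coe_mk, AddHom.coe_mk, Pi.zero_apply] at h2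
      rw [h3] at h2
      exact h2
  -- the second step
  let τ' : Fin (P.natDegree * s) → LaurentSeries F := fun q => τ q / f q
  choose Nq hNq using fun q => gejp_ex (τ' q)
  obtain ⟨ψ, hψ, hψ2⟩ := lb_pp h he (Finset.univ.sup Nq) (τ := τ') (fun q =>
    gejp_mono (hNq q) (by exact_mod_cast Finset.le_sup (f := Nq) (Finset.mem_univ q)))
  have hmul := lb_mul h hfm hψ
  have hT' : ∀ q, Pole (τ q - (f * ψ) q) ((N : ℤ) - U q) := by
    intro q
    have h1 : τ q - (f * ψ) q = f q * (τ' q - ψ q) := by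
      simp only [τ', Pi.mul_apply]
      rw [mul_sub, mul_div_cancel₀ _ (hfq q)]
    rw [h1]
    have h2 := gejp_mul (hfT q) (hψ2 q)
    exact gejp_mono h2 (by omega)
  refine ⟨f * ψ, lb_desc h he hmul fun q => ?_, hT'⟩
  have h1 : (f * ψ) q = τ q - (τ q - (f * ψ) q) := by ring
  rw [h1]
  exact gejp_sub (hτ q) (gejp_mono (hT' q) (by omega))

private theorem jelp_aev {k L : Type} [Field k] [Field L] [Algebra k L] {O : ValuationSubring L}
    (hb : ∀ c : k, algebraMap k L c ∈ O) {g : L} (hg : g ∈ O) (A : Polynomial k) : Polynomial.aeval g A ∈ O := by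
  rw [Polynomial.aeval_eq_sum_range]
  refine O.toSubring.sum_mem fun i _ => ?_
  rw [Algebra.smul_def]
  exact O.mul_mem _ _ (hb _) (O.toSubring.pow_mem hg _)

private theorem jelp_trunc {L : Type} [Field L] {O : ValuationSubring L} {π : L} (hπ : π ∈ O) {s : ℕ}
    (f : Fin s → ℕ → L) (hf : ∀ i j, f i j ∈ O) {M U : ℕ} (hU : U ≤ M) {r : L} (hr : r ∈ O) :
    ∃ r' ∈ O, (∑ i, ∑ j ∈ Finset.range M, f i j * π ^ j) + r * π ^ M =
      (∑ i, ∑ j ∈ Finset.range U, f i j * π ^ j) + r' * π ^ U := by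
  obtain ⟨V, rfl⟩ := Nat.exists_eq_add_of_le hU
  refine ⟨(∑ i, ∑ j ∈ Finset.range V, f i (U + j) * π ^ j) + r * π ^ V, ?_, ?_⟩
  · refine O.add_mem _ _ (O.toSubring.sum_mem fun i _ => O.toSubring.sum_mem fun j _ => ?_) ?_
    · exact O.mul_mem _ _ (hf i _) (O.toSubring.pow_mem hπ j)
    · exact O.mul_mem _ _ hr (O.toSubring.pow_mem hπ V)
  · rw [add_mul, Finset.sum_mul, ← add_assoc, ← Finset.sum_add_distrib]
    congr 1
    · refine Finset.sum_congr rfl fun i _ => ?_
      rw [Finset.sum_range_add, Finset.sum_mul]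
      congr 1
      refine Finset.sum_congr rfl fun j _ => ?_
      rw [pow_add]
      ring
    · rw [pow_add]
      ring

theorem jelp_sj {k L F : Type} [Field k] [CharZero k] [Field L] [Algebra k L] {x : L} {O : ValuationSubring L}
    {P : Polynomial k} {g π : L} {s γ : ℕ} {z : Fin s → L} (h : Pt k x O P g π s γ z) (hρ0 : 0 < P.natDegree * s) {N U : ℕ}
    (hm0 : 2 * γ / (P.natDegree * s) + 1 ≤ N) {m : ℕ} {φ : Fin m → L}
    (hφs : ∀ a ∈ LS k x O π N, a ∈ Submodule.span k (Set.range φ))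
    {g' : L} (hg' : g' ∈ O) (hgm : g' - g ∈ O.nonunits) (hPg : Polynomial.aeval g' P / π ^ U ∈ O)
    (B : Fin m → Fin s → ℕ → Polynomial k) (r : Fin m → L) (hr : ∀ l, r l ∈ O)
    (hB : ∀ l, π ^ N * φ l = (∑ i, ∑ j ∈ Finset.range U,
      Polynomial.aeval g' (B l i j) * z i * π ^ j) + r l * π ^ U)
    [Field F] [Algebra k F] [IsAlgClosed F] [Algebra.IsAlgebraic k F]
    (al : Fin P.natDegree → F) (hal : Function.Injective al) (hroot : ∀ j, Polynomial.aeval (al j) P = 0)
    (p : Fin P.natDegree → ℕ) (hp : ∀ j, p j ≤ U)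
    (hJ : s * ∑ j, p j + γ ≤ P.natDegree * s * (N - (2 * γ / (P.natDegree * s) + 1)))
    (c : Fin P.natDegree → Fin s → ℕ → F) :
    ∃ w : Fin m → F, ∀ j, ∀ i, ∀ u < p j, ∑ l, w l * Polynomial.aeval (al j) (B l i u) = c j i u := by
  classical
  have hg : g ∈ O := Pool.Agent.H12.GN.gO h.inf.base h.irr h.Pg
  have hπ : π ∈ O := O.nonunits_subset h.πm
  obtain ⟨e, he⟩ := esx (F := F) h
  obtain ⟨E, hEd⟩ : ∃ E : Fin (P.natDegree * s) → L → PowerSeries F, ∀ q a, E q a = jtp (e q a) :=
    ⟨fun q a => jtp (e q a), fun _ _ => rfl⟩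
  have hE : ∀ q, JEh k O π (E q) := by
    intro q
    have h1 : E q = fun a => jtp (e q a) := funext fun a => hEd q a
    rw [h1]
    exact jeh_of he q
  have hc0 : ∀ q a, (e q a).coeff 0 = PowerSeries.constantCoeff (E q a) := by
    intro q a
    rw [hEd]
    exact jt_c0 q a
  -- the root over which q lies
  have hjx : ∀ q, ∃ j, (e q g).coeff 0 = al j := by
    intro q
    have h1 : Polynomial.aeval ((e q g).coeff 0) P = 0 := by
      rw [hc0, ← jt_cc, ← ((hE q).aev hg P).2]
      exact (hE q).non h.π0 h.πm h.unf h.Pg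
    have hP0 : P.map (algebraMap k F) ≠ 0 := Polynomial.map_ne_zero h.irr.ne_zero
    have h3 : Finset.univ.image al = (P.map (algebraMap k F)).roots.toFinset := by
      apply Finset.eq_of_subset_of_card_le
      · intro a ha
        obtain ⟨j, -, rfl⟩ := Finset.mem_image.1 ha
        rw [Multiset.mem_toFinset, Polynomial.mem_roots hP0, Polynomial.IsRoot.def,
          Polynomial.eval_map_algebraMap]
        exact hroot j
      · rw [Finset.card_image_of_injective _ hal, Finset.card_fin]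
        exact (Multiset.toFinset_card_le _).trans ((Polynomial.card_roots' _).trans Polynomial.natDegree_map_le)
    have h4 : (e q g).coeff 0 ∈ Finset.univ.image al := by
      rw [h3, Multiset.mem_toFinset, Polynomial.mem_roots hP0, Polynomial.IsRoot.def,
        Polynomial.eval_map_algebraMap]
      exact h1
    obtain ⟨j, -, hj⟩ := Finset.mem_image.1 h4
    exact ⟨j, hj.symm⟩
  choose jj hjj using hjx
  have hg2 : ∀ q, (PowerSeries.X : PowerSeries F) ^ U ∣ E q g' - PowerSeries.C (al (jj q)) := by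
    intro q
    have h0 : PowerSeries.constantCoeff (E q g') = al (jj q) := by
      have h2 := (hE q).non h.π0 h.πm h.unf hgm
      rw [(hE q).sub, map_sub, sub_eq_zero] at h2
      rw [h2, ← hc0, hjj]
    have h3 : (PowerSeries.X : PowerSeries F) ^ U ∣ Polynomial.aeval (E q g') P := by
      rw [← ((hE q).aev hg' P).2]
      have h5 : Polynomial.aeval g' P = π ^ U * (Polynomial.aeval g' P / π ^ U) :=
        (mul_div_cancel₀ _ (pow_ne_zero _ h.π0)).symm
      rw [h5, (hE q).mul _ (O.pow_mem hπ _) _ hPg, (hE q).pow hπ, (hE q).pi]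
      exact Dvd.intro _ rfl
    have h8 := jt_root h.irr (f := E q g') (N := U) (by rw [h0]; exact hroot _) h3
    rw [h0] at h8
    exact h8
  -- the number of points over a root
  have hfib : ∀ j, (Finset.univ.filter fun q => jj q = j).card ≤ s := by
    intro j
    refine jt_card (fun q i => (e q (z i)).coeff 0) jj j ?_
    intro c
    obtain ⟨n, a, w, ha, hw⟩ := he.sur c
    choose A hA using fun i => h.zs (a i) (ha i)
    refine ⟨fun i => ∑ t, w t * Polynomial.aeval (al j) (A t i), fun q hq => ?_⟩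
    rw [← hw q]
    have h1 : ∀ t, (e q (a t)).coeff 0 = ∑ i, Polynomial.aeval (al j) (A t i) * (e q (z i)).coeff 0 := by
      intro t
      have h2 := (hE q).non h.π0 h.πm h.unf (hA t)
      rw [(hE q).sub, map_sub, sub_eq_zero, (hE q).sum, map_sum] at h2
      rw [hc0, h2]
      refine Finset.sum_congr rfl fun i _ => ?_
      rw [(hE q).mul _ ((hE q).aev hg _).1 _ (h.zO i), map_mul, ((hE q).aev hg _).2, jt_cc, ← hc0, ← hc0, hjj, hq]
    have h2 : ∑ t, w t * (e q (a t)).coeff 0 =
        ∑ t, ∑ i, w t * (Polynomial.aeval (al j) (A t i) * (e q (z i)).coeff 0) :=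
      Finset.sum_congr rfl fun t _ => by rw [h1 t, Finset.mul_sum]
    rw [h2, Finset.sum_comm]
    refine Finset.sum_congr rfl fun i _ => ?_
    rw [Finset.sum_mul]
    exact Finset.sum_congr rfl fun t _ => by ring
  have hTc : ∑ q, p (jj q) + γ ≤ P.natDegree * s * (N - (2 * γ / (P.natDegree * s) + 1)) := by
    have h1 : ∑ q, p (jj q) ≤ s * ∑ j, p j := by
      rw [← Finset.sum_fiberwise_of_maps_to (s := Finset.univ) (t := Finset.univ) (g := jj)
        (fun q _ => Finset.mem_univ (jj q)) (fun q => p (jj q)), Finset.mul_sum]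
      refine Finset.sum_le_sum fun j _ => ?_
      rw [Finset.sum_congr rfl (fun q hq => by rw [(Finset.mem_filter.1 hq).2] :
        ∀ q ∈ Finset.univ.filter (fun q => jj q = j), p (jj q) = p j), Finset.sum_const, smul_eq_mul]
      exact Nat.mul_le_mul_right _ (hfib j)
    exact (Nat.add_le_add_right h1 γ).trans hJ
  -- the prescribed principal parts
  obtain ⟨τ, hτ⟩ : ∃ τ : Fin (P.natDegree * s) → LaurentSeries F, ∀ q, τ q =
      HahnSeries.single (-(N : ℤ)) 1 * HahnSeries.ofPowerSeries ℤ F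
        (∑ i, ∑ u : Fin (p (jj q)), PowerSeries.C (c (jj q) i u) * E q (z i) * PowerSeries.X ^ (u : ℕ)) :=
    ⟨_, fun _ => rfl⟩
  have hτP : ∀ q, Pole (τ q) (N : ℤ) := by
    intro q i hi
    rw [hτ, HahnSeries.coeff_single_mul, one_mul, PowerSeries.coeff_coe, if_pos (by omega)]
  obtain ⟨ψ, hψ, hψT⟩ := gejP h hρ0 hm0 he hTc hτP
  obtain ⟨w, hw⟩ := jt_span hφs hψ
  refine ⟨w, fun j => ?_⟩
  have htr := fun l => jelp_trunc hπ (fun i j => Polynomial.aeval g' (B l i j) * z i) (fun i j =>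
    O.mul_mem _ _ (jelp_aev h.inf.base hg' _) (h.zO i)) (hp j) (hr l)
  choose r' hr' hr3 using htr
  have hshift : ∀ q l (n : ℕ), (e q (φ l)).coeff ((n : ℤ) - (N : ℤ)) =
      PowerSeries.coeff n (E q (π ^ N * φ l)) := by
    intro q l n
    rw [hEd, jtp_coeff, map_mul, map_pow, he.pi, HahnSeries.single_pow, one_pow, HahnSeries.coeff_single_mul,
      one_mul, nsmul_eq_mul, mul_one]
  have hkey : ∀ q, jj q = j → ∀ n < p j, PowerSeries.coeff n (∑ i, ∑ u : Fin (p j),
      PowerSeries.C ((∑ l, w l * Polynomial.aeval (al j) (B l i u)) - c j i u) * E q (z i) *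
        PowerSeries.X ^ (u : ℕ)) = 0 := by
    intro q hq n hn
    have h1 := hψT q ((n : ℤ) - (N : ℤ)) (by rw [hq]; omega)
    rw [HahnSeries.coeff_sub, hw, sub_eq_zero, hτ, HahnSeries.coeff_single_mul, one_mul,
      show (n : ℤ) - (N : ℤ) - -(N : ℤ) = (n : ℤ) by ring,
      HahnSeries.ofPowerSeries_apply_coeff, hq] at h1
    have h2 : ∀ l, (e q (φ l)).coeff ((n : ℤ) - (N : ℤ)) = PowerSeries.coeff n
        (∑ i, ∑ u : Fin (p j), PowerSeries.C (Polynomial.aeval (al j) (B l i u)) * E q (z i) *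
          PowerSeries.X ^ (u : ℕ)) := by
      intro l
      rw [hshift]
      have h3 := (hE q).expd hπ h.zO hg' ((pow_dvd_pow _ (hp j)).trans (hg2 q)) (B l) (hr' l)
        ((hB l).trans (hr3 l))
      rw [PowerSeries.X_pow_dvd_iff] at h3
      have h4 := h3 n hn
      rw [map_sub, sub_eq_zero, hq] at h4
      exact h4
    have h2' : ∑ l, w l * (e q (φ l)).coeff ((n : ℤ) - (N : ℤ)) =
        ∑ l, w l * PowerSeries.coeff n (∑ i, ∑ u : Fin (p j),
          PowerSeries.C (Polynomial.aeval (al j) (B l i u)) * E q (z i) * PowerSeries.X ^ (u : ℕ)) :=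
      Finset.sum_congr rfl fun l _ => by rw [h2 l]
    rw [h2'] at h1
    have h5 : (∑ i, ∑ u : Fin (p j),
        PowerSeries.C ((∑ l, w l * Polynomial.aeval (al j) (B l i u)) - c j i u) * E q (z i) *
          PowerSeries.X ^ (u : ℕ)) =
        (∑ l, PowerSeries.C (w l) * (∑ i, ∑ u : Fin (p j),
          PowerSeries.C (Polynomial.aeval (al j) (B l i u)) * E q (z i) * PowerSeries.X ^ (u : ℕ))) -
        (∑ i, ∑ u : Fin (p j), PowerSeries.C (c j i u) * E q (z i) * PowerSeries.X ^ (u : ℕ)) := by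
      have h6 : (∑ l, PowerSeries.C (w l) * (∑ i, ∑ u : Fin (p j),
          PowerSeries.C (Polynomial.aeval (al j) (B l i u)) * E q (z i) * PowerSeries.X ^ (u : ℕ))) =
          ∑ i, ∑ u : Fin (p j), ∑ l, PowerSeries.C (w l) *
            (PowerSeries.C (Polynomial.aeval (al j) (B l i u)) * E q (z i) * PowerSeries.X ^ (u : ℕ)) := by
        simp only [Finset.mul_sum]
        rw [Finset.sum_comm]
        exact Finset.sum_congr rfl fun i _ => Finset.sum_comm
      rw [h6, ← Finset.sum_sub_distrib]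
      refine Finset.sum_congr rfl fun i _ => ?_
      rw [← Finset.sum_sub_distrib]
      refine Finset.sum_congr rfl fun u _ => ?_
      rw [map_sub, map_sum, sub_mul, sub_mul, Finset.sum_mul, Finset.sum_mul]
      congr 1
      refine Finset.sum_congr rfl fun l _ => ?_
      rw [map_mul]
      ring
    rw [h5, map_sub, map_sum, h1, sub_eq_zero]
    exact Finset.sum_congr rfl fun l _ => PowerSeries.coeff_C_mul _ _ _
  have htri := jt_tri (fun q i => E q (z i)) (fun q => jj q = j) (fun d hd =>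
    jt_ind h hg he hal hjj j d (fun q hq => by
      rw [← hd q hq]
      exact Finset.sum_congr rfl fun i _ => by rw [hc0])) _ hkey
  intro i u hu
  have h1 := htri u hu i
  exact sub_eq_zero.1 h1


theorem jetsP {k L : Type} [Field k] [CharZero k] [Field L] [Algebra k L] {x : L} {O : ValuationSubring L}
    {P : Polynomial k} {g π : L} {s γ : ℕ} {z : Fin s → L} (h : Pt k x O P g π s γ z) (hr : 1 ≤ P.natDegree) {M U cap : ℕ}
    (hm0 : 2 * γ / (P.natDegree * s) + 1 ≤ M)
    (hcap : cap + γ ≤ P.natDegree * s * (M - (2 * γ / (P.natDegree * s) + 1))) :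
    ∃ (m : ℕ) (φ : Fin m → L) (g' : L) (b : Fin m → Fin s → Fin U → Polynomial k),
      BasP k x O P g π s z M U m φ g' b ∧
      ∀ (F : Type) [Field F] [Algebra k F] [IsAlgClosed F] [Algebra.IsAlgebraic k F], SjP P cap b F := by
  have hbase : ∀ c : k, algebraMap k L c ∈ O := h.inf.base
  have hg : g ∈ O := Pool.Agent.H12.GN.gO hbase h.irr h.Pg
  have hπ : π ∈ O := O.nonunits_subset h.πm
  have hpos : 0 < P.natDegree * s := Nat.mul_pos (by omega) h.s1
  obtain ⟨m, φ, hφi, hφ, hφs, hm⟩ := ls_fin h M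
  have hm1 : 0 < m := by
    have h3 : P.natDegree * s * (M - (2 * γ / (P.natDegree * s) + 1)) ≤ P.natDegree * s * M :=
      Nat.mul_le_mul_left _ (Nat.sub_le _ _)
    omega
  obtain ⟨g', hg'O, hg'm, hg'P⟩ := Pool.Agent.H85.LK.nwt hbase h.π0 h.πm h.unf hg h.irr h.Pg U
  have hsp := Pool.Agent.H12.GN.spc hbase h.zO hg hg'O hg'm h.zs
  have hex := fun j => Pool.Agent.H12.GN.exd h.π0 h.unf hsp U (hφ j).2
  choose B r hr' hB using hex
  refine ⟨m, φ, g', fun l i u => B l i u, ⟨hm1, hφi, fun i => (hφ i).1, fun i => (hφ i).2, hg'O, hg'm, hg'P,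
    fun j => ?_⟩, ?_⟩
  · have h1 : ∑ i, ∑ u : Fin U, Polynomial.aeval g' (B j i u) * z i * π ^ (u : ℕ) =
        ∑ i, ∑ u ∈ Finset.range U, Polynomial.aeval g' (B j i u) * z i * π ^ u :=
      Finset.sum_congr rfl fun i _ =>
        (Finset.sum_range fun u => Polynomial.aeval g' (B j i u) * z i * π ^ u).symm
    rw [h1, hB j, add_sub_cancel_left, mul_div_cancel_right₀ _ (pow_ne_zero _ h.π0)]
    exact hr' j
  · intro F _ _ _ _ al hal hroot p hpU hpc c
    obtain ⟨w, hw⟩ := jelp_sj h hpos hm0 hφs hg'O hg'm hg'P B r hr' hB al hal hroot p hpU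
      ((Nat.add_le_add_right hpc γ).trans hcap) (fun j i u => if hu : u < U then c j i ⟨u, hu⟩ else 0)
    refine ⟨w, fun j i u hu => ?_⟩
    rw [hw j i u hu, dif_pos u.2]

end Pool.Agent.H85.SB
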